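import Pool.Agent.N207.HG.Seven

/-!
# Project HG: the main theorem for solutions of the equation
-/

set_option autoImplicit false
set_option linter.unusedSectionVars false

open Matrix Polynomial Filter

namespace Pool.Agent.N207.HG

open Pool.Agent.Y119.HY (Sol Hf Gm HD PG ps Lens)
open Pool.Agent.Y985.OR (Mat bl Fam BigO SymSk ExcE DenseS S_DENSE S_FIN3)
open Pool.Agent.Y119.PLM (MT IsMon Cnt DenseMon Big)
open Pool.Agent

variable {n : ℕ} {P w Q : ℝ[X]} {s : ℝ}

/-- the operator `θ = z d/dz` -/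
noncomputable def th (f : ℂ → ℂ) : ℂ → ℂ := fun z => z * deriv f z

/-- `f` is a solution of the equation `P(θ) f = z Q(θ) f` on the slit disc -/
def IsSol (P Q : ℝ[X]) (f : ℂ → ℂ) : Prop := AnalyticOnNhd ℂ f D0 ∧ ∀ z ∈ D0,
  P.sum (fun l a => (a : ℂ) * (th^[l] f) z) = z * Q.sum (fun l a => (a : ℂ) * (th^[l] f) z)

/-- the matrix of the functions `θ^i f_j` -/
noncomputable def Ym (f : Fin n → ℂ → ℂ) (z : ℂ) : Mat n := Matrix.of fun i j => (th^[i] (f j)) z

lemma th_an {f : ℂ → ℂ} (hf : AnalyticOnNhd ℂ f D0) (l : ℕ) : AnalyticOnNhd ℂ (th^[l] f) D0 := by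
  induction l with
  | zero => exact hf
  | succ l ih =>
    rw [Function.iterate_succ_apply']
    exact analyticOnNhd_id.mul ih.deriv

lemma sum_eq {P : ℝ[X]} (hP : P.natDegree = n) (c : ℕ → ℂ) :
    P.sum (fun l a => (a : ℂ) * c l) = ∑ l ∈ Finset.range (n + 1), (P.coeff l : ℂ) * c l := by
  refine Polynomial.sum_over_range' P (fun l => by simp) (n + 1) (by omega)

lemma Gm_row (n : ℕ) (P Q : ℝ[X]) (z : ℂ) (X : Mat n) (i b : Fin n) :
    (Gm (cmp n P) (bmp n P Q) z * X) i b = if h : (i : ℕ) + 1 < n then (1 / z) * X ⟨i + 1, h⟩ b else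
      ∑ j : Fin n, (-(1 / z) * (P.coeff j : ℂ) + (1 / (1 - z)) * (Q.coeff j - P.coeff j : ℂ)) * X j b := by
  have hi := i.2
  unfold Gm cmp bmp eL cf
  rw [Matrix.mul_apply]
  simp only [Matrix.add_apply, Matrix.smul_apply, smul_eq_mul, Matrix.of_apply, vecMulVec_apply, coeff_sub]
  by_cases h : (i : ℕ) + 1 < n
  · have hne : ¬ ((i : ℕ) + 1 = n) := by omega
    simp only [if_pos h, dif_pos h, if_neg hne, zero_mul, mul_zero, add_zero]
    rw [Finset.sum_eq_single ⟨i + 1, h⟩]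
    · rw [if_pos rfl]
      ring
    · intro j _ hj
      rw [if_neg (fun h' => hj (Fin.ext h'))]
      ring
    · intro h'
      exact absurd (Finset.mem_univ _) h'
  · have he : (i : ℕ) + 1 = n := by omega
    simp only [if_neg h, dif_neg h, if_pos he]
    refine Finset.sum_congr rfl fun j _ => ?_
    push_cast
    ring

lemma Ym_ode (h : Dat n P w Q s) {f : Fin n → ℂ → ℂ} (hf : ∀ j, IsSol P Q (f j)) {z : ℂ} (hz : z ∈ D0) :
    HD (Ym f) (Gm (cmp n P) (bmp n P Q) z * Ym f z) z := by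
  intro i b
  have hz0 := D0_ne hz
  have hz1 : 1 - z ≠ 0 := sub_ne_zero.2 (D0_ne1 hz).symm
  have han := th_an (hf b).1 i z hz
  have h1 := han.differentiableAt.hasDerivAt
  have h2 : deriv (th^[i] (f b)) z = (1 / z) * (th^[i + 1] (f b)) z := by
    rw [Function.iterate_succ_apply']
    unfold th
    field_simp
  have h3 : (Gm (cmp n P) (bmp n P Q) z * Ym f z) i b = deriv (th^[i] (f b)) z := by
    rw [h2, Gm_row]
    by_cases hi : (i : ℕ) + 1 < n
    · rw [dif_pos hi]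
      rfl
    · rw [dif_neg hi]
      have hi' : (i : ℕ) + 1 = n := by have := i.2; omega
      have h4 := (hf b).2 z hz
      rw [sum_eq h.Pd, sum_eq h.Qd, Finset.sum_range_succ, Finset.sum_range_succ] at h4
      have hPl : P.coeff n = 1 := by rw [← h.Pd]; exact h.Pm.coeff_natDegree
      have hQl : Q.coeff n = 1 := by rw [← h.Qd]; exact h.Qm.coeff_natDegree
      rw [hPl, hQl, Finset.sum_range, Finset.sum_range] at h4
      have h5 : ∑ j : Fin n, (-(1 / z) * (P.coeff j : ℂ) + (1 / (1 - z)) * (Q.coeff j - P.coeff j : ℂ)) * Ym f z j b =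
          (-(1 / z) - 1 / (1 - z)) * ∑ j : Fin n, (P.coeff j : ℂ) * (th^[j] (f b)) z +
          (1 / (1 - z)) * ∑ j : Fin n, (Q.coeff j : ℂ) * (th^[j] (f b)) z := by
        rw [Finset.mul_sum, Finset.mul_sum, ← Finset.sum_add_distrib]
        refine Finset.sum_congr rfl fun j _ => ?_
        unfold Ym
        rw [Matrix.of_apply]
        ring
      rw [h5, hi']
      push_cast at h4
      field_simp
      linear_combination -h4
  rw [h3]
  exact h1

/-- linearly independent solutions -/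
def LI (f : Fin n → ℂ → ℂ) : Prop := ∀ c : Fin n → ℂ, (∀ z ∈ D0, ∑ j, c j * f j z = 0) → c = 0

lemma Ym_det (hA : All) (h : Dat n P w Q s) {f : Fin n → ℂ → ℂ} (hf : ∀ j, IsSol P Q (f j)) (hl : LI f) :
    ∃ z ∈ D0, (Ym f z).det ≠ 0 := by
  obtain ⟨H, K, M, Mi, hH, hK, hMMi, hM⟩ := h.setup hA
  obtain ⟨C, hC⟩ := hA.uni n D0 (Gm (cmp n P) (bmp n P Q)) (YE (cmp n P) H) (Ym f) isOpen_D0 preconn_D0
    (fun z hz => YE_ode hA (h.nrA hA) hH hz) (fun z hz => Ym_ode h hf hz)
    (fun z hz => YE_det hA (h.nrA hA) hH hz.1)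
  refine ⟨_, half_D0, ?_⟩
  rw [hC _ half_D0, det_mul]
  refine mul_ne_zero (YE_det hA (h.nrA hA) hH half_D0.1) fun h0 => ?_
  obtain ⟨v, hv, hv2⟩ := Matrix.exists_mulVec_eq_zero_iff.2 h0
  refine hv (hl v fun z hz => ?_)
  have h1 : Ym f z *ᵥ v = 0 := by rw [hC z hz, ← mulVec_mulVec, hv2, mulVec_zero]
  have h2 := congrFun h1 ⟨0, h.n0⟩
  simp only [Matrix.mulVec, dotProduct, Ym, Matrix.of_apply, Function.iterate_zero, id, Pi.zero_apply] at h2
  rw [← h2]
  exact Finset.sum_congr rfl fun j _ => mul_comm _ _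

end Pool.Agent.N207.HG
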