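import Pool.Agent.N207.HG.Inf3

/-!
# Project HG: the monodromy at infinity, the theorem
-/

set_option autoImplicit false

open Matrix Polynomial Metric

namespace Pool.Agent.N207.HG.Inf

open Pool.Agent.Y119.HY (Sol Hf Gm HD PG ps Lens mem_Lens)
open Pool.Agent.Y985.OR (Mat)
open Pool.Agent.N207.HG

variable {n : ℕ} {A B : Mat n} {H K L H' L' : ℕ → Mat n}

lemma lg_eq {σ s : ℝ} (hσ : σ = 1 ∨ σ = -1) {w : ℂ} (h : 0 < σ * w.im) :
    lg s w = Complex.log w + ((s : ℂ) - σ) * (Real.pi * Complex.I) := by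
  have h1 := N222.HG.log_neg_turn hσ h
  unfold lg
  rw [← h1]
  ring

/-- turning points of the branches -/
lemma PB_turn {N : Mat n} {G : ℕ → Mat n} {φ : ℂ → ℂ} {σ s : ℝ} (hσ : σ = 1 ∨ σ = -1) {z : ℂ} (h : 0 < σ * (φ z).im) :
    PB N G φ (lg s) z = PB N G φ Complex.log z * EX N (((s : ℂ) - σ) * (Real.pi * Complex.I)) := by
  unfold PB
  rw [lg_eq hσ h, (N530.HG.exx n N).2.1, Matrix.mul_assoc]

lemma im_inv {σ : ℝ} {z : ℂ} (h : 0 < σ * z.im) : 0 < -σ * (1 / z).im := by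
  have hz : z ≠ 0 := by
    rintro rfl
    simp at h
  have hn : 0 < Complex.normSq z := Complex.normSq_pos.2 hz
  rw [one_div, Complex.inv_im]
  have : -σ * (-z.im / Complex.normSq z) = σ * z.im / Complex.normSq z := by ring
  rw [this]
  exact div_pos h hn

lemma im_one {σ : ℝ} {z : ℂ} (h : 0 < σ * z.im) : 0 < -σ * (1 - z).im := by
  rw [Complex.sub_im, Complex.one_im]
  linarith

lemma half (M X Y : Mat n) (h : M.det ≠ 0) (he : M * X = M * Y) : X = Y := by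
  have := congrArg (fun Z => M⁻¹ * Z) he
  simpa [← Matrix.mul_assoc, nonsing_inv_mul _ (Ne.isUnit h)] using this

lemma half' (M X Y : Mat n) (h : M.det ≠ 0) (he : X * M = Y * M) : X = Y := by
  have := congrArg (fun Z => Z * M⁻¹) he
  simpa [Matrix.mul_assoc, mul_nonsing_inv _ (Ne.isUnit h)] using this

theorem inf : S_INF := by
  intro n A B H K M Mi hA hB hI hH hK hM hLens
  obtain ⟨⟨L, hL⟩, -⟩ := N222.HG.loc n (B - A) B hI
  obtain ⟨⟨L', hL'⟩, -⟩ := N222.HG.loc n (B - A) (-A) hI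
  obtain ⟨⟨H', hH'⟩, -⟩ := N222.HG.loc n A (A - B) hA
  obtain ⟨r, hr, hr0⟩ : ∃ r : ℝ, r ^ 2 = 3 ∧ 1 < r :=
    ⟨Real.sqrt 3, Real.sq_sqrt (by norm_num), by rw [Real.lt_sqrt (by norm_num)]; norm_num⟩
  -- the constants
  have hz0 : ∀ z : ℂ, z.re < 0 → IsF A B (FF A B H K L H' L' .z0) z := fun z hz =>
    z0_sol hA hH' (by linarith) (Or.inl hz)
  have hzi : ∀ z : ℂ, z.re < 0 → IsF A B (FF A B H K L H' L' .zi) z := by
    intro z hz
    refine zi_sol hI hL' (ngt.2 ?_) (Or.inl ?_)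
    · rw [Complex.sub_re, Complex.sub_im, Complex.one_re, Complex.one_im]
      nlinarith [sq_nonneg z.im]
    · rw [Complex.sub_re, Complex.one_re]
      linarith
  have hneg : ∀ z : ℂ, z.re < 0 → -z ∈ Complex.slitPlane := fun z hz => Or.inl (by rw [Complex.neg_re]; linarith)
  obtain ⟨C, hC, hC'⟩ := exists_K (A := A) (B := B) (V := ball 0 1 ∩ HP (-1) 0 0) (isOpen_ball.inter (HP_open _ _ _))
    ((convex_ball _ _).inter (HP_conv _ _ _)) (F := PB A H id (lg ((1 : ℝ) : ℂ))) (G := FF A B H K L H' L' .z0)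
    (fun z hz => w0_sol hA hH _ (mem_b0.1 hz.1) (hneg z (by have := mem_HP.1 hz.2; linarith)))
    (fun z hz => hz0 z (by have := mem_HP.1 hz.2; linarith))
    ⟨⟨-1 / 2, 0⟩, mem_b0.2 (nlt.2 (by norm_num)), mem_HP.2 (by norm_num)⟩
  obtain ⟨S, hS, hS'⟩ := exists_K (A := A) (B := B) (V := HP (-1) 0 0) (HP_open _ _ _) (HP_conv _ _ _)
    (F := FF A B H K L H' L' .z0) (G := FF A B H K L H' L' .zi)
    (fun z hz => hz0 z (by have := mem_HP.1 hz; linarith)) (fun z hz => hzi z (by have := mem_HP.1 hz; linarith))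
    ⟨⟨-1 / 2, 0⟩, mem_HP.2 (by norm_num)⟩
  obtain ⟨D, hD, hD'⟩ := exists_K (A := A) (B := B) (V := HP (-1) 0 1) (HP_open _ _ _) (HP_conv _ _ _)
    (F := PB (B - A) L (fun z => 1 / z) (lg ((-1 : ℝ) : ℂ))) (G := FF A B H K L H' L' .zi)
    (fun z hz => by
      have h1 := mem_HP.1 hz
      exact wi_sol hI hL _ (ngt.2 (by nlinarith [sq_nonneg z.im])) (hneg z (by linarith)))
    (fun z hz => hzi z (by have := mem_HP.1 hz; linarith))
    ⟨⟨-2, 0⟩, mem_HP.2 (by norm_num)⟩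
  obtain ⟨E, hE, hE'⟩ := exists_K (A := A) (B := B) (V := ball 1 1 ∩ HP 1 0 1) (isOpen_ball.inter (HP_open _ _ _))
    ((convex_ball _ _).inter (HP_conv _ _ _)) (F := PB (-B) K (fun z => 1 - z) (lg ((-1 : ℝ) : ℂ)))
    (G := FF A B H K L H' L' .yi)
    (fun z hz => w1_sol hB hK _ (mem_b1.1 hz.1) (Or.inl (by
      have := mem_HP.1 hz.2
      rw [Complex.neg_re, Complex.sub_re, Complex.one_re]; linarith)))
    (fun z hz => by
      have h1 := mem_HP.1 hz.2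
      exact yi_sol hI hL (ngt.2 (by nlinarith [sq_nonneg z.im])) (Or.inl (by linarith)))
    ⟨⟨3 / 2, 0⟩, mem_b1.2 (nlt.2 (by simp only [Complex.sub_re, Complex.sub_im, Complex.one_re, Complex.one_im]; norm_num)),
      mem_HP.2 (by norm_num)⟩
  -- the relation in the half plane of sign `σ`
  have key : ∀ σ : ℝ, (σ = 1 ∨ σ = -1) → M * (EX A (((1 : ℝ) - σ) * (Real.pi * Complex.I)) * C) * S =
      (EX (-B) ((((-1 : ℝ) : ℂ) - ((-σ : ℝ) : ℂ)) * (Real.pi * Complex.I)) * E) *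
        (EX (B - A) ((((-1 : ℝ) : ℂ) - ((-σ : ℝ) : ℂ)) * (Real.pi * Complex.I)) * D) := by
    intro σ hσ'
    have hσ : σ ^ 2 = 1 := by rcases hσ' with h | h <;> rw [h] <;> norm_num
    have hσn : -σ = 1 ∨ -σ = -1 := by
      rcases hσ' with h | h
      · right; rw [h]
      · left; rw [h, neg_neg]
    have hF := fun i => FF_sol (r := r) (σ := σ) hA hB hI hH hK hL hH' hL' hr hσ i
    obtain ⟨k, hk, hkk⟩ := star (A := A) (B := B) (c := vx r σ) vx_ne.1 vx_ne.2 (VV r σ) (FF A B H K L H' L')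
      (VV_open r σ) (VV_conv r σ) hF (fun i δ hδ => by
        cases i
        · obtain ⟨p, h1, -, h2⟩ := pa hr hr0 hσ hδ; exact ⟨p, h1, h2⟩
        · obtain ⟨p, h1, h2, -⟩ := pa hr hr0 hσ hδ; exact ⟨p, h1, h2⟩
        · obtain ⟨p, h1, -, h2, -⟩ := pb hr hr0 hσ hδ; exact ⟨p, h1, h2⟩
        · obtain ⟨p, h1, -, -, h2⟩ := pb hr hr0 hσ hδ; exact ⟨p, h1, h2⟩
        · obtain ⟨p, h1, h2, -⟩ := pc hr hr0 hσ hδ; exact ⟨p, h1, h2⟩)
    have hpos : ∀ x y : ℝ, 0 < y → (⟨x, σ * y⟩ : ℂ) ∈ HP 0 σ 0 := by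
      intro x y hy
      rw [mem_HP]
      simp only
      have : 0 * x + σ * (σ * y) = σ ^ 2 * y := by ring
      rw [this, hσ, one_mul]
      exact hy
    have hpos' : ∀ x y : ℝ, 0 < y → 0 < σ * (⟨x, σ * y⟩ : ℂ).im := by
      intro x y hy
      simp only
      have : σ * (σ * y) = σ ^ 2 * y := by ring
      rw [this, hσ, one_mul]
      exact hy
    have hmul : ∀ x y a : ℝ, (⟨x, σ * y⟩ : ℂ) ∈ HP a (r * σ) (a * x + r * y - 1) := by
      intro x y a
      rw [mem_HP]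
      simp only
      have : a * x + r * σ * (σ * y) = a * x + σ ^ 2 * (r * y) := by ring
      rw [this, hσ]
      linarith
    -- relation 1
    have e1 : k .y0 = k .y1 * M := by
      refine hkk .y1 .y0 M fun δ hδ => ?_
      obtain ⟨p, h1, h2, h3⟩ := pa hr hr0 hσ hδ
      refine ⟨p, h1, h2, h3, ?_⟩
      exact hLens p (mem_Lens.2 ⟨mem_b0.1 h3.1, mem_b1.1 h2.1⟩)
    -- relation 2
    have e2 : k .z0 = k .y0 * (EX A (((1 : ℝ) - σ) * (Real.pi * Complex.I)) * C) := by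
      refine hkk .y0 .z0 _ fun δ hδ => ?_
      obtain ⟨p, h1, h2, h3, -⟩ := pb hr hr0 hσ hδ
      refine ⟨p, h1, h2, h3, ?_⟩
      have hq : (⟨-1 / 2, σ * (1 / 2)⟩ : ℂ) ∈ VV r σ .y0 ∩ VV r σ .z0 := by
        refine ⟨⟨mem_b0.2 (nlt.2 ?_), hpos _ _ (by norm_num)⟩, ⟨mem_HP.2 (by norm_num), hpos _ _ (by norm_num)⟩⟩
        simp only
        have : -1 / 2 * (-1 / 2) + σ * (1 / 2) * (σ * (1 / 2)) = 1 / 4 + σ ^ 2 / 4 := by ring
        rw [this, hσ]
        norm_num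
      refine transfer (V := VV r σ .y0 ∩ VV r σ .z0) ((VV_open r σ _).inter (VV_open r σ _))
        ((VV_conv r σ _).inter (VV_conv r σ _)) (fun z hz => hF .y0 z hz.1) (fun z hz => hF .z0 z hz.2) hq ?_ p ⟨h2, h3⟩
      rw [hC' _ ⟨hq.1.1, mem_HP.2 (by norm_num)⟩, ← Matrix.mul_assoc]
      congr 1
      exact PB_turn hσ' (φ := id) (hpos' _ _ (by norm_num))
    -- relation 3
    have e3 : k .zi = k .z0 * S := by
      refine hkk .z0 .zi _ fun δ hδ => ?_
      obtain ⟨p, h1, -, h2, h3⟩ := pb hr hr0 hσ hδ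
      refine ⟨p, h1, h2, h3, ?_⟩
      have hq : (⟨-1, σ * 10⟩ : ℂ) ∈ VV r σ .z0 ∩ VV r σ .zi := by
        refine ⟨⟨mem_HP.2 (by norm_num), hpos _ _ (by norm_num)⟩, ⟨?_, hpos _ _ (by norm_num)⟩⟩
        have h4 := mem_HP.1 (hmul (-1) 10 (-1))
        rw [mem_HP]
        linarith
      exact transfer (V := VV r σ .z0 ∩ VV r σ .zi) ((VV_open r σ _).inter (VV_open r σ _))
        ((VV_conv r σ _).inter (VV_conv r σ _)) (fun z hz => hF .z0 z hz.1) (fun z hz => hF .zi z hz.2) hq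
        (hS' _ (mem_HP.2 (by norm_num))) p ⟨h2, h3⟩
    -- relation 4
    have e4 : k .zi = k .yi * (EX (B - A) ((((-1 : ℝ) : ℂ) - ((-σ : ℝ) : ℂ)) * (Real.pi * Complex.I)) * D) := by
      refine hkk .yi .zi _ fun δ hδ => ?_
      obtain ⟨p, h1, h2, h3⟩ := pc hr hr0 hσ hδ
      refine ⟨p, h1, h2, h3, ?_⟩
      have hq : (⟨-2, σ * 10⟩ : ℂ) ∈ VV r σ .yi ∩ VV r σ .zi := by
        refine ⟨⟨?_, hpos _ _ (by norm_num)⟩, ⟨?_, hpos _ _ (by norm_num)⟩⟩
        · have h4 := mem_HP.1 (hmul (-2) 10 1)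
          rw [mem_HP]
          linarith
        · have h4 := mem_HP.1 (hmul (-2) 10 (-1))
          rw [mem_HP]
          linarith
      refine transfer (V := VV r σ .yi ∩ VV r σ .zi) ((VV_open r σ _).inter (VV_open r σ _))
        ((VV_conv r σ _).inter (VV_conv r σ _)) (fun z hz => hF .yi z hz.1) (fun z hz => hF .zi z hz.2) hq ?_ p ⟨h2, h3⟩
      rw [hD' _ (mem_HP.2 (by norm_num)), ← Matrix.mul_assoc]
      congr 1
      exact PB_turn hσn (φ := fun z => 1 / z) (im_inv (hpos' _ _ (by norm_num)))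
    -- relation 5
    have e5 : k .yi = k .y1 * (EX (-B) ((((-1 : ℝ) : ℂ) - ((-σ : ℝ) : ℂ)) * (Real.pi * Complex.I)) * E) := by
      refine hkk .y1 .yi _ fun δ hδ => ?_
      obtain ⟨p, h1, h2, h3⟩ := pd hr hr0 hσ hδ
      refine ⟨p, h1, h2, h3, ?_⟩
      have hq : (⟨3 / 2, σ * (1 / 2)⟩ : ℂ) ∈ VV r σ .y1 ∩ VV r σ .yi := by
        refine ⟨⟨mem_b1.2 (nlt.2 ?_), hpos _ _ (by norm_num)⟩, ⟨?_, hpos _ _ (by norm_num)⟩⟩
        · simp only [Complex.sub_re, Complex.sub_im, Complex.one_re, Complex.one_im]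
          have : (1 - 3 / 2) * (1 - 3 / 2) + (0 - σ * (1 / 2)) * (0 - σ * (1 / 2)) = 1 / 4 + σ ^ 2 / 4 := by ring
          rw [this, hσ]
          norm_num
        · rw [mem_HP]
          simp only
          have : 1 * (3 / 2) + r * σ * (σ * (1 / 2)) = 3 / 2 + σ ^ 2 * r / 2 := by ring
          rw [this, hσ]
          linarith
      refine transfer (V := VV r σ .y1 ∩ VV r σ .yi) ((VV_open r σ _).inter (VV_open r σ _))
        ((VV_conv r σ _).inter (VV_conv r σ _)) (fun z hz => hF .y1 z hz.1) (fun z hz => hF .yi z hz.2) hq ?_ p ⟨h2, h3⟩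
      rw [hE' _ ⟨hq.1.1, mem_HP.2 (by norm_num)⟩, ← Matrix.mul_assoc]
      congr 1
      exact PB_turn hσn (φ := fun z => 1 - z) (im_one (hpos' _ _ (by norm_num)))
    refine half (k .y1) _ _ (hk .y1) ?_
    calc k .y1 * (M * (EX A (((1 : ℝ) - σ) * (Real.pi * Complex.I)) * C) * S) = k .zi := by
          rw [e3, e2, e1]; simp only [Matrix.mul_assoc]
      _ = _ := by rw [e4, e5]; simp only [Matrix.mul_assoc]
  have k1 := key 1 (Or.inl rfl)
  have k2 := key (-1) (Or.inr rfl)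
  have hEX0 : ∀ N : Mat n, EX N 0 = 1 := fun N => (N530.HG.exx n N).1
  have t1 : (((1 : ℝ) : ℂ) - ((1 : ℝ) : ℂ)) * (Real.pi * Complex.I) = 0 := by rw [sub_self, zero_mul]
  have t2 : (((-1 : ℝ) : ℂ) - ((-1 : ℝ) : ℂ)) * (Real.pi * Complex.I) = 0 := by rw [sub_self, zero_mul]
  have t3 : (((1 : ℝ) : ℂ) - ((-1 : ℝ) : ℂ)) * (Real.pi * Complex.I) = 2 * Real.pi * Complex.I := by
    push_cast; ring
  have t4 : (((-1 : ℝ) : ℂ) - ((- -1 : ℝ) : ℂ)) * (Real.pi * Complex.I) = -(2 * Real.pi * Complex.I) := by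
    push_cast; ring
  rw [t1, t2, hEX0, hEX0, hEX0, one_mul, one_mul, one_mul] at k1
  rw [t3, t4] at k2
  -- algebra
  set EA := EX A (2 * Real.pi * Complex.I)
  set EB := EX (-B) (2 * Real.pi * Complex.I) with hEB
  have hEI : EX (B - A) (-(2 * Real.pi * Complex.I)) = EX (A - B) (2 * Real.pi * Complex.I) := by
    unfold EX
    rw [neg_smul, ← smul_neg, neg_sub]
  rw [hEI] at k2
  set EI := EX (A - B) (2 * Real.pi * Complex.I)
  have hBB : EB * EX (-B) (-(2 * Real.pi * Complex.I)) = 1 := by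
    rw [hEB, ← (N530.HG.exx n (-B)).2.1, add_neg_cancel, hEX0]
  have hEu : IsUnit E.det := Ne.isUnit hE
  have hMiM : Mi * M = 1 := mul_eq_one_comm.1 hM
  refine ⟨Mi * E, E⁻¹ * M, ?_, ?_⟩
  · calc Mi * E * (E⁻¹ * M) = Mi * (E * E⁻¹) * M := by simp only [Matrix.mul_assoc]
      _ = 1 := by rw [mul_nonsing_inv _ hEu, mul_one, hMiM]
  · have h1 : E⁻¹ * (M * C * S) = D := by
      rw [k1, ← Matrix.mul_assoc, nonsing_inv_mul _ hEu, one_mul]
    have hCS : (C * S).det ≠ 0 := by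
      rw [det_mul]
      exact mul_ne_zero hC hS
    refine half' (C * S) _ _ hCS ?_
    calc Mi * EB * M * EA * (C * S) = Mi * EB * (M * (EA * C) * S) := by simp only [Matrix.mul_assoc]
      _ = Mi * EB * (EX (-B) (-(2 * Real.pi * Complex.I)) * E * (EI * D)) := by rw [k2]
      _ = Mi * (EB * EX (-B) (-(2 * Real.pi * Complex.I))) * E * (EI * D) := by simp only [Matrix.mul_assoc]
      _ = Mi * E * (EI * (E⁻¹ * (M * C * S))) := by rw [hBB, mul_one, h1]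
      _ = _ := by simp only [Matrix.mul_assoc]

end Pool.Agent.N207.HG.Inf
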