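import Pool.Agent.N207.HG.Stm2
import Pool.Agent.N34.HG.Irr

/-!
# Project HG: irreducibility, with multiplicities of the eigenvalues (variant of `Pool.Agent.N34.HG.Irr`)
-/

set_option autoImplicit false

open Matrix

namespace Pool.Agent.N207.HG.Ir2

open Pool.Agent.Y985.OR (Mat bl)
open Pool.Agent.N34.HG.Irr
open Pool.Agent.N207.HG (S_IR2)

section

variable {n : ℕ} {J : Mat n} {s : ℂ} {U : (Mat n)ˣ} {x : Fin n → ℂ} {c : ℂ}

lemma mult_le {ζ : ℂ} (hζ : ζ ≠ 0) (M : Mat n) (m : ℂ) :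
    (ζ • M).charpoly.rootMultiplicity (ζ * m) ≤ M.charpoly.rootMultiplicity m := by
  have h1 : (ζ • M).charpoly.comp (Polynomial.C ζ * Polynomial.X) = Polynomial.C (ζ ^ n) * M.charpoly := by
    have h2 : (ζ • M).charpoly.comp (Polynomial.C ζ * Polynomial.X) =
        Polynomial.compRingHom (Polynomial.C ζ * Polynomial.X) (ζ • M).charpoly := rfl
    rw [h2, Matrix.charpoly, RingHom.map_det]
    have h3 : (Polynomial.compRingHom (Polynomial.C ζ * Polynomial.X)).mapMatrix (ζ • M).charmatrix =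
        Polynomial.C ζ • M.charmatrix := by
      refine Matrix.ext fun i j => ?_
      rw [RingHom.mapMatrix_apply, Matrix.map_apply, Matrix.smul_apply, smul_eq_mul]
      by_cases hij : i = j
      · rw [hij, Matrix.charmatrix_apply_eq, Matrix.charmatrix_apply_eq, Matrix.smul_apply, smul_eq_mul]
        simp only [map_sub, Polynomial.coe_compRingHom_apply, Polynomial.X_comp, Polynomial.C_mul, Polynomial.mul_comp,
          Polynomial.C_comp]
        ring
      · rw [Matrix.charmatrix_apply_ne _ _ _ hij, Matrix.charmatrix_apply_ne _ _ _ hij, Matrix.smul_apply, smul_eq_mul]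
        simp only [map_neg, Polynomial.coe_compRingHom_apply, Polynomial.C_mul, Polynomial.mul_comp, Polynomial.C_comp]
        ring
    rw [h3, Matrix.det_smul, Fintype.card_fin, ← Polynomial.C_pow]
    rfl
  have h0 : M.charpoly ≠ 0 := (Matrix.charpoly_monic M).ne_zero
  rw [Polynomial.le_rootMultiplicity_iff h0]
  have h4 : (Polynomial.X - Polynomial.C (ζ * m)) ^ (ζ • M).charpoly.rootMultiplicity (ζ * m) ∣ (ζ • M).charpoly :=
    Polynomial.pow_rootMultiplicity_dvd _ _
  obtain ⟨q, hq⟩ := h4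
  have h5 := congrArg (fun p : Polynomial ℂ => p.comp (Polynomial.C ζ * Polynomial.X)) hq
  simp only [h1, Polynomial.mul_comp, Polynomial.pow_comp, Polynomial.sub_comp, Polynomial.X_comp,
    Polynomial.C_comp] at h5
  set r := (ζ • M).charpoly.rootMultiplicity (ζ * m)
  have h6 : Polynomial.C ζ * Polynomial.X - Polynomial.C (ζ * m) = Polynomial.C ζ * (Polynomial.X - Polynomial.C m) := by
    rw [Polynomial.C_mul]
    ring
  rw [h6, mul_pow] at h5
  refine ⟨Polynomial.C (ζ⁻¹ ^ n) * Polynomial.C ζ ^ r * q.comp (Polynomial.C ζ * Polynomial.X), ?_⟩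
  have h7 : Polynomial.C (ζ⁻¹ ^ n) * Polynomial.C (ζ ^ n) = 1 := by
    rw [← Polynomial.C_mul, ← mul_pow, inv_mul_cancel₀ hζ, one_pow, Polynomial.C_1]
  calc M.charpoly = Polynomial.C (ζ⁻¹ ^ n) * (Polynomial.C (ζ ^ n) * M.charpoly) := by
        rw [← mul_assoc, h7, one_mul]
    _ = _ := by rw [h5]; ring

lemma mult_smul {ζ : ℂ} (hζ : ζ ≠ 0) (M : Mat n) (m : ℂ) :
    (ζ • M).charpoly.rootMultiplicity (ζ * m) = M.charpoly.rootMultiplicity m := by
  refine le_antisymm (mult_le hζ M m) ?_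
  have h1 := mult_le (inv_ne_zero hζ) (ζ • M) (ζ * m)
  rw [smul_smul, inv_mul_cancel₀ hζ, one_smul, ← mul_assoc, inv_mul_cancel₀ hζ, one_mul] at h1
  exact h1

lemma mult_eq {ζ : ℂ} (hζ : ζ ≠ 0) {D : (Fin n → ℂ) →ₗ[ℂ] (Fin n → ℂ)} (hD : ∀ z, D z = 0 → z = 0) {M : Mat n}
    (h : ∀ z, D (M *ᵥ z) = ζ • (M *ᵥ D z)) (m : ℂ) :
    M.charpoly.rootMultiplicity m = M.charpoly.rootMultiplicity (ζ * m) := by
  set Dm : Mat n := LinearMap.toMatrix' D with hDm
  have hDa : ∀ z, Dm *ᵥ z = D z := fun z => by rw [hDm, LinearMap.toMatrix'_mulVec]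
  have hdet : Dm.det ≠ 0 := by
    intro h0
    obtain ⟨v, hv, hv2⟩ := Matrix.exists_mulVec_eq_zero_iff.2 h0
    rw [hDa] at hv2
    exact hv (hD v hv2)
  have h1 : Dm * M = (ζ • M) * Dm := by
    apply Matrix.toLin'.injective
    apply LinearMap.ext
    intro z
    rw [Matrix.toLin'_apply, Matrix.toLin'_apply, ← mulVec_mulVec, ← mulVec_mulVec, hDa, hDa, h, smul_mulVec]
  have hu : IsUnit Dm := (Matrix.isUnit_iff_isUnit_det _).2 (Ne.isUnit hdet)
  have h2 : M.charpoly = (ζ • M).charpoly := by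
    obtain ⟨u, hu⟩ := hu
    have h3 := Matrix.charpoly_units_conj u M
    rw [hu, h1, Matrix.mul_assoc, Matrix.mul_nonsing_inv _ (Ne.isUnit hdet), mul_one] at h3
    exact h3.symm
  conv_rhs => rw [h2]
  rw [mult_smul hζ]

/-- the conclusion from a period `d ≥ 2` of the classes -/
lemma no_period2
    (hJp : ∀ y : Fin n → ℂ, (∀ k, bb J y (vv U x k) = 0) → y = 0)
    (htop : ∀ W : Submodule ℂ (Fin n → ℂ), (∀ k, vv U x k ∈ W) → W = ⊤) {g : Mat n}
    (hg : ∀ y, g *ᵥ y = y + (c * bb J y x) • x) {d : ℕ} (hd : 2 ≤ d)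
    (hort : ∀ k l : ℤ, ¬ (d : ℤ) ∣ k - l → bb J (vv U x k) (vv U x l) = 0)
    (h : (∃ m : ℂ, (U : Mat n).charpoly.rootMultiplicity m ≠
      (U : Mat n).charpoly.rootMultiplicity (m * Complex.exp (2 * Real.pi * Complex.I / d))) ∨
    (∃ m : ℂ, (g * (U : Mat n)).charpoly.rootMultiplicity m ≠
      (g * (U : Mat n)).charpoly.rootMultiplicity (m * Complex.exp (2 * Real.pi * Complex.I / d)))) :
    False := by
  set ζ : ℂ := Complex.exp (2 * Real.pi * Complex.I / d) with hζd
  have hζ0 : ζ ≠ 0 := Complex.exp_ne_zero _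
  have hζinv : Complex.exp (-(2 * Real.pi * Complex.I / d)) = ζ⁻¹ := Complex.exp_neg _
  have hd0 : (d : ℂ) ≠ 0 := by exact_mod_cast (by omega : d ≠ 0)
  have hζpow : ζ ^ d = 1 := by
    rw [hζd, ← Complex.exp_nat_mul, mul_div_cancel₀ _ hd0, Complex.exp_two_pi_mul_I]
  have hζdvd : ∀ k : ℤ, (d : ℤ) ∣ k → ζ ^ k = 1 := by
    rintro k ⟨j, rfl⟩
    rw [_root_.zpow_mul, zpow_natCast, hζpow, _root_.one_zpow]
  have hζeq : ∀ k l : ℤ, (d : ℤ) ∣ k - l → ζ ^ k = ζ ^ l := by
    intro k l hkl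
    have h1 := hζdvd _ hkl
    rw [zpow_sub₀ hζ0, div_eq_one_iff_eq (zpow_ne_zero l hζ0)] at h1
    exact h1
  obtain ⟨D, hD, hDinj⟩ := exists_D (J := J) (U := U) (x := x) hζ0 hJp htop
    (fun k l hkl => hort k l fun h => hkl (hζeq k l h))
  have hDT : ∀ z, D ((U : Mat n) *ᵥ z) = ζ • ((U : Mat n) *ᵥ D z) := by
    have h1 : (⊤ : Submodule ℂ (Fin n → ℂ)) ≤ LinearMap.eqLocus (D ∘ₗ Matrix.mulVecLin (U : Mat n))
        (ζ • (Matrix.mulVecLin (U : Mat n) ∘ₗ D)) := by
      rw [← htop (LinearMap.eqLocus (D ∘ₗ Matrix.mulVecLin (U : Mat n))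
        (ζ • (Matrix.mulVecLin (U : Mat n) ∘ₗ D)))]
      intro k
      rw [LinearMap.mem_eqLocus, LinearMap.comp_apply, LinearMap.smul_apply, LinearMap.comp_apply,
        hD, map_smul, mulVecLin_apply]
      have h2 := mul_vv (U := U) (x := x) 1 k
      rw [_root_.zpow_one] at h2
      rw [h2, hD, smul_smul, zpow_add₀ hζ0, zpow_one]
    intro z
    have h2 := h1 (Submodule.mem_top : z ∈ ⊤)
    rw [LinearMap.mem_eqLocus, LinearMap.comp_apply, LinearMap.smul_apply, LinearMap.comp_apply,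
      mulVecLin_apply, mulVecLin_apply] at h2
    exact h2
  have hDg : ∀ z, D (g *ᵥ z) = g *ᵥ D z := by
    have h1 : (⊤ : Submodule ℂ (Fin n → ℂ)) ≤ LinearMap.eqLocus (D ∘ₗ Matrix.mulVecLin g)
        (Matrix.mulVecLin g ∘ₗ D) := by
      rw [← htop (LinearMap.eqLocus (D ∘ₗ Matrix.mulVecLin g) (Matrix.mulVecLin g ∘ₗ D))]
      intro k
      rw [LinearMap.mem_eqLocus, LinearMap.comp_apply, LinearMap.comp_apply, mulVecLin_apply,
        mulVecLin_apply, hD, mulVec_smul, hg, map_add, map_smul, hD]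
      have hDx : D x = x := by
        have := hD 0
        rw [vv_zero, _root_.zpow_zero, one_smul] at this
        exact this
      rw [hDx, smul_add, smul_smul]
      congr 1
      by_cases hk : (d : ℤ) ∣ k
      · rw [hζdvd k hk, one_mul]
      · have h3 := hort k 0 (by rw [sub_zero]; exact hk)
        rw [vv_zero] at h3
        rw [h3, mul_zero, mul_zero]
    intro z
    have h2 := h1 (Submodule.mem_top : z ∈ ⊤)
    rw [LinearMap.mem_eqLocus, LinearMap.comp_apply, LinearMap.comp_apply, mulVecLin_apply,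
      mulVecLin_apply] at h2
    exact h2
  rcases h with ⟨m, h⟩ | ⟨m, h⟩
  · rw [mul_comm] at h
    exact h (mult_eq hζ0 hDinj hDT m)
  · rw [mul_comm] at h
    refine h (mult_eq hζ0 hDinj (fun z => ?_) m)
    rw [← mulVec_mulVec, hDg, hDT, mulVec_smul, mulVec_mulVec]

lemma irr_aux2 (hJ : J.det ≠ 0) (hs : ∀ u w, bb J u w = s * bb J w u)
    (hU : (U : Mat n)ᵀ * J * (U : Mat n) = J) (hx : x ≠ 0) (hc : c ≠ 0) {g : Mat n}
    (hg : ∀ y, g *ᵥ y = y + (c * bb J y x) • x)
    (he : ∀ (e : Fin n → ℂ) (m : ℂ), e ≠ 0 → (U : Mat n) *ᵥ e = m • e → bb J x e ≠ 0)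
    (h : ∀ d : ℕ, 2 ≤ d →
    (∃ m : ℂ, (U : Mat n).charpoly.rootMultiplicity m ≠
      (U : Mat n).charpoly.rootMultiplicity (m * Complex.exp (2 * Real.pi * Complex.I / d))) ∨
    (∃ m : ℂ, (g * (U : Mat n)).charpoly.rootMultiplicity m ≠
      (g * (U : Mat n)).charpoly.rootMultiplicity (m * Complex.exp (2 * Real.pi * Complex.I / d))))
    {W : Submodule ℂ (Fin n → ℂ)} (hW : Inv J U x c W) : W = ⊥ ∨ W = ⊤ := by
  have hJp : ∀ y : Fin n → ℂ, (∀ k, bb J y (vv U x k) = 0) → y = 0 :=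
    fun y hy => perp_zero hU hs he hy
  have htop : ∀ W : Submodule ℂ (Fin n → ℂ), (∀ k, vv U x k ∈ W) → W = ⊤ :=
    fun W hW => span_top hJ hJp hW
  obtain ⟨a, ha⟩ := Int.subgroup_cyclic (HH hU x c)
  have hmem : ∀ k, k ∈ HH hU x c ↔ ((a.natAbs : ℕ) : ℤ) ∣ k := by
    intro k
    rw [ha, AddSubgroup.mem_closure_singleton, Int.natAbs_dvd]
    constructor
    · rintro ⟨z, rfl⟩
      exact ⟨z, by rw [smul_eq_mul, mul_comm]⟩
    · rintro ⟨z, rfl⟩
      exact ⟨z, by rw [smul_eq_mul, mul_comm]⟩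
  have hort : ∀ k l : ℤ, ¬ ((a.natAbs : ℕ) : ℤ) ∣ k - l → bb J (vv U x k) (vv U x l) = 0 := by
    intro k l hkl
    apply ortho hs hc
    rw [rel_iff hU, hmem]
    exact hkl
  rcases Nat.lt_or_ge a.natAbs 2 with h2 | h2
  · rcases Nat.lt_or_ge a.natAbs 1 with h1 | h1
    · -- all translates are orthogonal
      exfalso
      have h0 : a.natAbs = 0 := by omega
      have hort' : ∀ k l : ℤ, k ≠ l → bb J (vv U x k) (vv U x l) = 0 := by
        intro k l hkl
        apply hort k l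
        rw [h0]
        intro hdv
        rw [Nat.cast_zero, zero_dvd_iff] at hdv
        exact hkl (by omega)
      have hnz : ∀ k : ℤ, bb J (vv U x k) (vv U x k) ≠ 0 := by
        intro k hk
        have h3 : vv U x k = 0 := by
          apply hJp
          intro l
          rcases eq_or_ne k l with rfl | hkl
          · exact hk
          · exact hort' k l hkl
        apply hx
        have h4 := mul_vv (U := U) (x := x) (-k) k
        rw [h3, mulVec_zero, neg_add_cancel, vv_zero] at h4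
        exact h4.symm
      have hli : LinearIndependent ℂ (vv U x) := by
        rw [linearIndependent_iff']
        intro t f hf k hk
        have h3 : bb J (∑ i ∈ t, f i • vv U x i) (vv U x k) = f k * bb J (vv U x k) (vv U x k) := by
          rw [map_sum, LinearMap.sum_apply, Finset.sum_eq_single k]
          · rw [map_smul, LinearMap.smul_apply, smul_eq_mul]
          · intro i _ hik
            rw [map_smul, LinearMap.smul_apply, hort' i k hik, smul_zero]
          · exact fun h => absurd hk h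
        rw [hf, map_zero, LinearMap.zero_apply] at h3
        exact (mul_eq_zero.1 h3.symm).resolve_right (hnz k)
      have := hli.finite
      exact not_finite ℤ
    · -- all indices are equivalent
      have h0 : a.natAbs = 1 := by omega
      have hall : ∀ k : ℤ, Rel J U x c k 0 := by
        intro k
        rw [rel_iff hU, hmem, h0]
        simp
      by_cases hW0 : vv U x 0 ∈ W
      · right
        exact htop W fun k => (hall k W hW).2 hW0
      · left
        rw [Submodule.eq_bot_iff]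
        intro y hy
        apply hJp
        intro k
        rcases inv_or hc hW k with h3 | h3
        · exact absurd ((hall k W hW).1 h3) hW0
        · exact h3 y hy
  · exact (no_period2 hJp htop hg h2 hort (h _ h2)).elim

end

theorem ir2 : S_IR2 := by
  intro n J T Ti g x c hsym hJ hT hTi hx hc hgd _ he h W hW
  have hTi' : Ti * T = 1 := mul_eq_one_comm.1 hTi
  let U : (Mat n)ˣ := ⟨T, Ti, hTi, hTi'⟩
  have hUT : (U : Mat n) = T := rfl
  have hUTi : ((U⁻¹ : (Mat n)ˣ) : Mat n) = Ti := rfl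
  obtain ⟨s, hs⟩ : ∃ s : ℂ, ∀ u w, bb J u w = s * bb J w u := by
    have h1 : ∀ u w : Fin n → ℂ, u ⬝ᵥ (J *ᵥ w) = w ⬝ᵥ (Jᵀ *ᵥ u) := by
      intro u w
      rw [dotProduct_mulVec, dotProduct_comm, mulVec_transpose]
    rcases hsym with h2 | h2
    · refine ⟨1, fun u w => ?_⟩
      rw [bb_apply, bb_apply, one_mul]
      unfold bl
      rw [h1, h2]
    · refine ⟨-1, fun u w => ?_⟩
      rw [bb_apply, bb_apply]
      unfold bl
      rw [h1, h2, neg_mulVec, dotProduct_neg, neg_one_mul]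
  have hg : ∀ y, g *ᵥ y = y + (c * bb J y x) • x := by
    intro y
    rw [hgd, add_mulVec, one_mulVec, smul_mulVec, bb_apply]
    congr 1
    funext i
    unfold bl
    rw [dotProduct_comm y]
    simp only [Pi.smul_apply, smul_eq_mul, mulVec, dotProduct, vecMulVec_apply]
    rw [Finset.mul_sum, Finset.mul_sum, Finset.sum_mul]
    apply Finset.sum_congr rfl
    intro j _
    ring
  have hU : (U : Mat n)ᵀ * J * (U : Mat n) = J := hT
  have key : ∀ (k : ℤ) (y : Fin n → ℂ), y ∈ W →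
      (((U ^ k : (Mat n)ˣ) : Mat n) * g * ((U ^ (-k) : (Mat n)ˣ) : Mat n)) *ᵥ y ∈ W := by
    intro k y hy
    rcases Int.eq_nat_or_neg k with ⟨j, rfl | rfl⟩
    · have h1 := (hW j).1 y hy
      rw [_root_.zpow_neg, zpow_natCast, ← inv_pow, Units.val_pow_eq_pow_val, Units.val_pow_eq_pow_val]
      exact h1
    · have h1 := (hW j).2 y hy
      rw [neg_neg, _root_.zpow_neg, zpow_natCast, ← inv_pow, Units.val_pow_eq_pow_val,
        Units.val_pow_eq_pow_val]
      exact h1
  refine irr_aux2 (U := U) (s := s) hJ hs hU hx hc hg ?_ h ?_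
  · intro e m he0 hem
    rw [bb_apply]
    exact he e m he0 hem
  · intro k y hy
    have h1 := key k y hy
    rw [← mulVec_mulVec, ← mulVec_mulVec, hg, mulVec_add, mulVec_smul, inv_mulVec_cancel,
      ← iso_zpow hU k, inv_mulVec_cancel] at h1
    exact h1

end Pool.Agent.N207.HG.Ir2
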