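import Pool.Agent.N207.HG.Stm

/-!
# Project HG: monodromy matrices are a monoid
-/

set_option autoImplicit false

open Matrix Polynomial

namespace Pool.Agent.N207.HG

open Pool.Agent.Y985.OR (Mat)

variable {n : ℕ}

lemma Ch_mul {D V : Set ℂ} {Y F : ℂ → Mat n} (g : Mat n) (h : Ch D Y V F) :
    Ch D (fun z => Y z * g) V (fun z => F z * g) := by
  induction h with
  | base => exact Ch.base
  | @step V V' W F F' h hV' hp hF' hW hne hWV hWV' he ih =>
    refine Ch.step ih hV' hp (fun a b => ?_) hW hne hWV hWV' fun z hz => by rw [he z hz]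
    simp only [Matrix.mul_apply]
    exact Finset.analyticOnNhd_fun_sum _ fun l _ => (hF' a l).mul analyticOnNhd_const

lemma Ch_trans {D V V' : Set ℂ} {Y F F' : ℂ → Mat n} (h : Ch D Y V F) (h' : Ch V F V' F') : Ch D Y V' F' := by
  induction h' with
  | base => exact h
  | step _ h1 h2 h3 h4 h5 h6 h7 h8 ih => exact Ch.step ih h1 h2 h3 h4 h5 h6 h7 h8

theorem mon : S_MON := by
  intro n D Y hD hp hne hY
  refine ⟨⟨D, D, Y, Ch.base, hD, hne, subset_rfl, subset_rfl, fun z _ => (mul_one _).symm⟩, ?_, ?_⟩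
  · rintro g h ⟨V, W, F, hc, hW, hWne, hWV, hWD, he⟩ ⟨V2, W2, F2, hc2, hW2, hWne2, hWV2, hWD2, he2⟩
    have h1 : Ch D Y D (fun z => Y z * h) := by
      refine Ch.step hc2 hD hp (fun a b => ?_) hW2 hWne2 hWV2 hWD2 fun z hz => (he2 z hz).symm
      simp only [Matrix.mul_apply]
      exact Finset.analyticOnNhd_fun_sum _ fun l _ => (hY a l).mul analyticOnNhd_const
    refine ⟨V, W, fun z => F z * h, Ch_trans h1 (Ch_mul h hc), hW, hWne, hWV, hWD, fun z hz => ?_⟩
    show F z * h = Y z * (g * h)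
    rw [he z hz, Matrix.mul_assoc]
  · rintro g O Oi hO ⟨V, W, F, hc, hW, hWne, hWV, hWD, he⟩
    refine ⟨V, W, fun z => F z * O, Ch_mul O hc, hW, hWne, hWV, hWD, fun z hz => ?_⟩
    show F z * O = Y z * O * (Oi * g * O)
    rw [he z hz]
    calc Y z * g * O = Y z * 1 * g * O := by rw [mul_one]
      _ = Y z * (O * Oi) * g * O := by rw [hO]
      _ = _ := by simp only [Matrix.mul_assoc]

end Pool.Agent.N207.HG
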