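import Pool.Agent.Y985.OR.Final
import Pool.Agent.Y119.HY.Prs

/-!
# Project HG: periods of self-dual hypergeometric families. Definitions and statements of the jobs
-/

set_option autoImplicit false

open Matrix Polynomial

namespace Pool.Agent.N207.HG

open Pool.Agent.Y119.HY (Sol Hf Gm HD PG ps Lens)
open Pool.Agent.Y119.PLM (MT IsMon Cnt DenseMon)
open Pool.Agent.Y985.OR (Mat bl refl Fam)

/-! ### Local theory at a singular point with nonresonant residue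

The system is `Y' = (N0 / z + N1 / (1 - z)) Y`, in the notation of `Y119.HY.Loc`: `HD Y (Gm N0 N1 z * Y z) z`. -/

/-- the matrix is nonresonant: no two eigenvalues differ by a positive integer -/
def NR {n : ℕ} (N : Mat n) : Prop := ∀ (k : ℕ) (X : Mat n), ((k : ℂ) + 1) • X + (X * N - N * X) = 0 → X = 0

/-- `exp (s N)` -/
noncomputable def EX {n : ℕ} (N : Mat n) (s : ℂ) : Mat n := NormedSpace.exp (s • N)

/-- the fundamental matrix `H(z) exp (N log z)` -/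
noncomputable def YE {n : ℕ} (N : Mat n) (H : ℕ → Mat n) (z : ℂ) : Mat n := Hf H z * EX N (Complex.log z)

/-- HG-LOC: existence and growth of the holomorphic part -/
def S_LOC : Prop := ∀ (n : ℕ) (N0 N1 : Mat n), NR N0 →
  (∃ H, Sol N0 N1 H) ∧ ∀ H, Sol N0 N1 H → ∀ i j, PG fun k => H k i j

/-- HG-EXP: properties of the exponential -/
def S_EXP : Prop := ∀ (n : ℕ) (N : Mat n),
  EX N 0 = 1 ∧ (∀ s t, EX N (s + t) = EX N s * EX N t) ∧ (∀ s, HD (EX N) (N * EX N s) s) ∧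
  (∀ i j, AnalyticOnNhd ℂ (fun s => EX N s i j) Set.univ) ∧
  (∀ (l : ℂ) (v : Fin n → ℂ), N *ᵥ v = l • v → ∀ s, EX N s *ᵥ v = Complex.exp (s * l) • v) ∧
  (∀ (l : ℂ) (v : Fin n → ℂ), N *ᵥ (N *ᵥ v - l • v) = l • (N *ᵥ v - l • v) →
    ∀ s, EX N s *ᵥ v = Complex.exp (s * l) • (v + s • (N *ᵥ v - l • v))) ∧
  (∀ (t s : ℂ), N * N = t • N → t ≠ 0 → EX N s = 1 + ((Complex.exp (t * s) - 1) / t) • N) ∧
  (N * N = 0 → ∀ s, EX N s = 1 + s • N) ∧ (∀ s (M Mi : Mat n), M * Mi = 1 → EX (M * N * Mi) s = M * EX N s * Mi)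

/-- HG-ODE: the local solutions are solutions, and they are invertible -/
def S_ODE : Prop := ∀ (n : ℕ) (N0 N1 : Mat n) (H : ℕ → Mat n), NR N0 → Sol N0 N1 H →
  (∀ i j, AnalyticOnNhd ℂ (fun z => Hf H z i j) (Metric.ball 0 1)) ∧
  (∀ z : ℂ, ‖z‖ < 1 → (Hf H z).det ≠ 0) ∧
  (∀ (L : ℂ → ℂ) (z : ℂ), ‖z‖ < 1 → z ≠ 0 → HasDerivAt L (1 / z) z →
    HD (fun w => Hf H w * EX N0 (L w)) (Gm N0 N1 z * (Hf H z * EX N0 (L z))) z)

/-- HG-UNI: two fundamental matrices differ by a constant matrix -/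
def S_UNI : Prop := ∀ (n : ℕ) (V : Set ℂ) (G Y Z : ℂ → Mat n), IsOpen V → IsPreconnected V →
  (∀ z ∈ V, HD Y (G z * Y z) z) → (∀ z ∈ V, HD Z (G z * Z z) z) → (∀ z ∈ V, (Y z).det ≠ 0) →
  ∃ C : Mat n, ∀ z ∈ V, Z z = Y z * C

/-! ### Monodromy -/

/-- analytic continuation of a matrix of functions of one variable along a chain of connected open sets -/
inductive Ch {n : ℕ} (D : Set ℂ) (Y : ℂ → Mat n) : Set ℂ → (ℂ → Mat n) → Prop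
  | base : Ch D Y D Y
  | step {V V' W : Set ℂ} {F F' : ℂ → Mat n} : Ch D Y V F → IsOpen V' → IsPreconnected V' →
      (∀ a b, AnalyticOnNhd ℂ (fun z => F' z a b) V') → IsOpen W → W.Nonempty → W ⊆ V → W ⊆ V' →
      (∀ z ∈ W, F' z = F z) → Ch D Y V' F'

/-- `g` is a monodromy matrix of `Y` -/
def Mo {n : ℕ} (D : Set ℂ) (Y : ℂ → Mat n) (g : Mat n) : Prop :=
  ∃ (V W : Set ℂ) (F : ℂ → Mat n), Ch D Y V F ∧ IsOpen W ∧ W.Nonempty ∧ W ⊆ V ∧ W ⊆ D ∧ ∀ z ∈ W, F z = Y z * g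

/-- the slit unit disc -/
def D0 : Set ℂ := {z | ‖z‖ < 1 ∧ z ∈ Complex.slitPlane}

/-- HG-MON: the monodromy matrices are a monoid -/
def S_MON : Prop := ∀ (n : ℕ) (D : Set ℂ) (Y : ℂ → Mat n), IsOpen D → IsPreconnected D → D.Nonempty →
  (∀ a b, AnalyticOnNhd ℂ (fun z => Y z a b) D) →
  Mo D Y 1 ∧ (∀ g h, Mo D Y g → Mo D Y h → Mo D Y (g * h)) ∧
  ∀ (g O Oi : Mat n), O * Oi = 1 → Mo D Y g → Mo D (fun z => Y z * O) (Oi * g * O)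

/-- HG-TRA: monodromy of one factor of a product -/
def S_TRA : Prop := ∀ (κ : Type) [Fintype κ] [DecidableEq κ] (n : κ → ℕ) (D : Set ℂ)
  (Y : (j : κ) → ℂ → Mat (n j)), IsOpen D → IsPreconnected D → D.Nonempty →
  (∀ j a b, AnalyticOnNhd ℂ (fun z => Y j z a b) D) → ∀ j g, Mo D (Y j) g →
  IsMon {x : κ → ℂ | ∀ i, x i ∈ D} (fun x i => Y i (x i)) (Pi.mulSingle j g)

/-- HG-T01: the local monodromies at `0` and `1` -/
def S_T01 : Prop := ∀ (n : ℕ) (A B : Mat n) (H K : ℕ → Mat n) (M Mi : Mat n), NR A → NR (-B) → Sol A B H →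
  Sol (-B) (-A) K → M * Mi = 1 → (∀ z ∈ Lens, YE A H z = YE (-B) K (1 - z) * M) →
  Mo D0 (YE A H) (EX A (2 * Real.pi * Complex.I)) ∧ Mo D0 (YE A H) (EX A (-(2 * Real.pi * Complex.I))) ∧
  Mo D0 (YE A H) (Mi * EX (-B) (2 * Real.pi * Complex.I) * M)

/-- HG-INF: the monodromy at infinity -/
def S_INF : Prop := ∀ (n : ℕ) (A B : Mat n) (H K : ℕ → Mat n) (M Mi : Mat n), NR A → NR (-B) → NR (B - A) →
  Sol A B H → Sol (-B) (-A) K → M * Mi = 1 → (∀ z ∈ Lens, YE A H z = YE (-B) K (1 - z) * M) →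
  ∃ R Ri : Mat n, R * Ri = 1 ∧ (Mi * EX (-B) (2 * Real.pi * Complex.I) * M) * EX A (2 * Real.pi * Complex.I) =
    R * EX (A - B) (2 * Real.pi * Complex.I) * Ri

/-! ### Hypergeometric systems -/

/-- the companion matrix of `P` -/
noncomputable def cmp (n : ℕ) (P : ℝ[X]) : Mat n := Matrix.of fun i j =>
  if (i : ℕ) + 1 < n then (if (j : ℕ) = i + 1 then 1 else 0) else -(P.coeff j : ℂ)

/-- the last basis vector -/
def eL (n : ℕ) : Fin n → ℂ := fun i => if (i : ℕ) + 1 = n then 1 else 0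

/-- the vector of the coefficients -/
noncomputable def cf (n : ℕ) (w : ℝ[X]) : Fin n → ℂ := fun i => (w.coeff i : ℂ)

/-- the second residue matrix: the last row is `Q - P` -/
noncomputable def bmp (n : ℕ) (P Q : ℝ[X]) : Mat n := vecMulVec (eL n) (cf n (Q - P))

/-- the vector `(1, x, …, x^(n-1))` -/
noncomputable def nu (n : ℕ) (x : ℂ) : Fin n → ℂ := fun i => x ^ (i : ℕ)

/-- HG-NRS: nonresonance -/
def S_NRS : Prop := (∀ (n : ℕ) (P : ℝ[X]), P.Monic → P.natDegree = n →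
    (∀ x y : ℂ, Polynomial.aeval x P = 0 → Polynomial.aeval y P = 0 → ∀ k : ℕ, y ≠ x + k + 1) →
    NR (cmp n P) ∧ NR (-cmp n P)) ∧
  ∀ (n : ℕ) (B : Mat n) (t : ℂ), B * B = t • B → (∀ k : ℕ, (k : ℂ) + 1 ≠ t ∧ (k : ℂ) + 1 ≠ -t) → NR B

/-- HG-SNG: the eigenfunctions of the monodromy at `0` are singular at `1` -/
def S_SNG : Prop := ∀ (n : ℕ) (P Q : ℝ[X]) (H : ℕ → Mat n) (l : ℝ) (hn : 0 < n), P.Monic → Q.Monic →
  P.natDegree = n → Q.natDegree = n → P.eval l = 0 → (∀ k : ℕ, P.eval (l + k + 1) ≠ 0) →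
  (∀ k : ℕ, Q.eval (l + k) ≠ 0) → Sol (cmp n P) (bmp n P Q) H → (∀ i j, PG fun k => H k i j) →
  ∀ g : ℂ → ℂ, AnalyticOnNhd ℂ g (Metric.ball 1 1) →
  (∀ z ∈ Lens, (Hf H z *ᵥ nu n l) ⟨0, hn⟩ = g z) → False

/-- HG-EIG: eigenvectors of `exp (2 π i A)` -/
def S_EIG : Prop := ∀ (n : ℕ) (P : ℝ[X]), P.Monic → P.natDegree = n →
  (∀ x y : ℂ, Polynomial.aeval x P = 0 → Polynomial.aeval y P = 0 → ∀ k : ℤ, y = x + k → y = x) →
  (∀ (e : Fin n → ℂ) (m : ℂ), e ≠ 0 → EX (cmp n P) (2 * Real.pi * Complex.I) *ᵥ e = m • e →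
    ∃ (l c : ℂ), Polynomial.aeval l P = 0 ∧ m = Complex.exp (2 * Real.pi * Complex.I * l) ∧ c ≠ 0 ∧
      e = c • nu n l) ∧
  (∀ l : ℂ, Polynomial.aeval l P = 0 → cmp n P *ᵥ nu n l = l • nu n l) ∧
  (∀ l : ℂ, Polynomial.aeval l P = 0 → Polynomial.aeval l (derivative P) = 0 → ∃ y : Fin n → ℂ,
    EX (cmp n P) (2 * Real.pi * Complex.I) *ᵥ y - Complex.exp (2 * Real.pi * Complex.I * l) • y = nu n l)

/-- the coefficients of `(w(x) P(y) + s P(x) w(y)) / (x + y)` -/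
noncomputable def cK (n : ℕ) (P w : ℝ[X]) (s : ℝ) : Mat n := Matrix.of fun i j =>
  ((∑ l ∈ Finset.range ((i : ℕ) + 1), (-1) ^ l * (w.coeff ((i : ℕ) - l) * P.coeff ((j : ℕ) + 1 + l) +
    s * P.coeff ((i : ℕ) - l) * w.coeff ((j : ℕ) + 1 + l)) : ℝ) : ℂ)

/-- HG-FRM: the forms -/
def S_FRM : Prop := ∀ (n : ℕ) (P w : ℝ[X]) (s : ℝ), 0 < n → (s = 1 ∨ s = -1) → P.Monic → P.natDegree = n →
  w.natDegree < n → P.comp (-X) = (-1) ^ n * P → w.comp (-X) = C (-s) * (-1) ^ n * w →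
  (∀ x : ℂ, Polynomial.aeval x P = 0 → Polynomial.aeval x w ≠ 0) →
  (cK n P w s)ᵀ = (s : ℂ) • cK n P w s ∧ (cmp n P)ᵀ * cK n P w s + cK n P w s * cmp n P = 0 ∧
  cK n P w s *ᵥ eL n = cf n w ∧ (cK n P w s).det ≠ 0 ∧
  (∀ Q : ℝ[X], Q.natDegree = n → Q.Monic → Q = (X + C (1 / 2)) * w →
    cf n (Q - P) = cf n w ᵥ* cmp n P + (1 / 2 : ℂ) • cf n w)

/-- the form over the punctured disc: `J0` in the skew case and `J0 - z w wᵀ` in the symmetric case -/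
noncomputable def Jz (n : ℕ) (P w : ℝ[X]) (s : ℝ) (z : ℂ) : Mat n :=
  cK n P w s - (((1 + s) / 2 : ℝ) : ℂ) • z • vecMulVec (cf n w) (cf n w)

/-- HG-REL: the form is horizontal and invertible -/
def S_REL : Prop := ∀ (n : ℕ) (P w Q : ℝ[X]) (s : ℝ), 0 < n → P.Monic → P.natDegree = n → Q.Monic →
  Q.natDegree = n → w.natDegree < n → P.comp (-X) = (-1) ^ n * P → w.comp (-X) = C (-s) * (-1) ^ n * w →
  (∀ x : ℂ, Polynomial.aeval x P = 0 → Polynomial.aeval x w ≠ 0) →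
  ((s = 1 ∧ Q = (X + C (1 / 2)) * w) ∨ (s = -1 ∧ Q = P + w)) → ∀ z : ℂ, z ≠ 0 → z ≠ 1 →
  (Jz n P w s z).det ≠ 0 ∧ ∀ Y : ℂ → Mat n, HD Y (Gm (cmp n P) (bmp n P Q) z * Y z) z →
    HD (fun x => (Y x)ᵀ * Jz n P w s x * Y x) 0 z

/-! ### Linear algebra -/

/-- HG-IRR: the conjugates of a reflection (transvection) under `T` act irreducibly -/
def S_IRR : Prop := ∀ (n : ℕ) (J T Ti g : Mat n) (x : Fin n → ℂ) (c : ℂ), (Jᵀ = J ∨ Jᵀ = -J) → J.det ≠ 0 →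
  Tᵀ * J * T = J → T * Ti = 1 → x ≠ 0 → c ≠ 0 → g = 1 + c • vecMulVec x (J *ᵥ x) → gᵀ * J * g = J →
  (∀ (e : Fin n → ℂ) (m : ℂ), e ≠ 0 → T *ᵥ e = m • e → bl J x e ≠ 0) →
  (∀ d : ℕ, 2 ≤ d →
    (∃ (m : ℂ) (e : Fin n → ℂ), e ≠ 0 ∧ T *ᵥ e = m • e ∧ ∀ e' : Fin n → ℂ,
      T *ᵥ e' = (m * Complex.exp (-(2 * Real.pi * Complex.I / d))) • e' → e' = 0) ∨
    (∃ (m : ℂ) (e : Fin n → ℂ), e ≠ 0 ∧ (g * T) *ᵥ e = m • e ∧ ∀ e' : Fin n → ℂ,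
      (g * T) *ᵥ e' = (m * Complex.exp (-(2 * Real.pi * Complex.I / d))) • e' → e' = 0)) →
  ∀ W : Submodule ℂ (Fin n → ℂ), (∀ k : ℕ, (∀ y ∈ W, (T ^ k * g * Ti ^ k) *ᵥ y ∈ W) ∧
    ∀ y ∈ W, (Ti ^ k * g * T ^ k) *ᵥ y ∈ W) → W = ⊥ ∨ W = ⊤

/-- HG-UNB: two reflections whose product has infinite order, if `T` is unbounded -/
def S_UNB : Prop := ∀ (n : ℕ) (J T Ti : Mat n) (x y : Fin n → ℂ) (m : ℂ), Jᵀ = J → J.det ≠ 0 →
  Tᵀ * J * T = J → T * Ti = 1 → bl J x x ≠ 0 →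
  (∀ (e : Fin n → ℂ) (m : ℂ), e ≠ 0 → T *ᵥ e = m • e → bl J x e ≠ 0) →
  ‖m‖ = 1 → T *ᵥ y - m • y ≠ 0 → T *ᵥ (T *ᵥ y - m • y) = m • (T *ᵥ y - m • y) →
  ∃ k : ℕ, bl J (T ^ k *ᵥ x) (T ^ k *ᵥ x) ≠ 0 ∧ ∀ m : ℕ, 0 < m → (refl J x * refl J (T ^ k *ᵥ x)) ^ m ≠ 1

/-- HG-FIN: two reflections whose product has infinite order, if `T` has finite order and the group is infinite -/
def S_FIN : Prop := ∀ (n : ℕ) (J T : Mat n) (x : Fin n → ℂ) (N : ℕ), Jᵀ = J → J.det ≠ 0 →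
  Tᵀ * J * T = J → 0 < N → T ^ N = 1 → bl J x x ≠ 0 →
  (∀ (e : Fin n → ℂ) (m : ℂ), e ≠ 0 → T *ᵥ e = m • e → bl J x e ≠ 0) →
  (Submonoid.closure {T, refl J x} : Set (Mat n)).Infinite →
  ∃ u v, bl J u u ≠ 0 ∧ bl J v v ≠ 0 ∧ refl J u ∈ Submonoid.closure {T, refl J x} ∧
    refl J v ∈ Submonoid.closure {T, refl J x} ∧ ∀ m : ℕ, 0 < m → (refl J u * refl J v) ^ m ≠ 1

/-! ### Continuation of families -/

/-- HG-CNT: the hypotheses of the engine persist under analytic continuation -/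
def S_CNT : Prop := ∀ (X κ : Type) [Fintype X] [Fintype κ] [DecidableEq κ] (n : κ → ℕ) (J : MT n)
  (J' : (j : κ) → Matrix (Fin (n j)) (Fin (n j)) (MvPolynomial X ℂ)) (U V : Set (X → ℂ))
  (Y F : (X → ℂ) → MT n), Fam J J' U Y → DenseMon U Y J → Cnt U Y V F → IsOpen V → V.Nonempty →
  Fam J J' V F ∧ DenseMon V F J

end Pool.Agent.N207.HG
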