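import Pool.Agent.N207.HG.Stm
import Pool.Agent.N40.HG.Chp

/-!
# Project HG: nonresonance
-/

set_option autoImplicit false

open Matrix Polynomial

namespace Pool.Agent.N207.HG

open Pool.Agent.Y985.OR (Mat)

variable {n : ℕ}

lemma twine {A B X : Mat n} (h : A * X = X * B) (p : ℂ[X]) : aeval A p * X = X * aeval B p := by
  induction p using Polynomial.induction_on' with
  | add p q hp hq => rw [map_add, map_add, add_mul, mul_add, hp, hq]
  | monomial k a =>
    have h1 : A ^ k * X = X * B ^ k := by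
      induction k with
      | zero => simp
      | succ k ih =>
        rw [pow_succ' A, pow_succ B, Matrix.mul_assoc, ih, ← Matrix.mul_assoc, h]
        simp only [Matrix.mul_assoc, ← pow_succ', ← pow_succ]
    rw [aeval_monomial, aeval_monomial, ← Algebra.smul_def, ← Algebra.smul_def, smul_mul_assoc, mul_smul_comm, h1]

lemma cmp_charpoly (P : ℝ[X]) (hP : P.Monic) (hn : P.natDegree = n) :
    (cmp n P).charpoly = P.map (algebraMap ℝ ℂ) ∧ ∃ l : ℕ → ℂ,
      P.map (algebraMap ℝ ℂ) = ∏ i : Fin n, (X - C (l i)) := by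
  have hm : (P.map (algebraMap ℝ ℂ)).Monic := hP.map _
  have hd : (P.map (algebraMap ℝ ℂ)).natDegree = n := by rw [hP.natDegree_map]; exact hn
  obtain ⟨l, hl⟩ := N40.HG.enum n _ hm hd
  have hq : P.map (algebraMap ℝ ℂ) = ∏ i : Fin n, (X - C (l i)) := by
    rw [hl, N40.HG.q_prod, Finset.prod_range]
  refine ⟨?_, l, hq⟩
  rw [N40.HG.cmp_eq, hl]
  have hdet : IsUnit (N40.HG.Qm n l).det := by rw [N40.HG.Qm_det]; exact isUnit_one
  have h1 : N40.HG.cm n (N40.HG.q l n) = (N40.HG.Qm n l)⁻¹ * N40.HG.Bm n l * N40.HG.Qm n l := by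
    rw [Matrix.mul_assoc, ← N40.HG.QA, ← Matrix.mul_assoc, Matrix.nonsing_inv_mul _ hdet, Matrix.one_mul]
  have hu : IsUnit (N40.HG.Qm n l) := (Matrix.isUnit_iff_isUnit_det _).2 hdet
  have h3 : ((N40.HG.Qm n l)⁻¹ * N40.HG.Bm n l * N40.HG.Qm n l).charpoly = (N40.HG.Bm n l).charpoly := by
    obtain ⟨u, hu⟩ := hu
    have := Matrix.charpoly_units_conj' u (N40.HG.Bm n l)
    rw [hu] at this
    rw [← this, ← hu]
  rw [h1, h3, Matrix.charpoly_of_isUpperTriangular _ (N40.HG.Bm_tri n l), ← hl, hq]
  refine Finset.prod_congr rfl fun i _ => ?_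
  simp [N40.HG.Bm]

lemma inv_shift {N : Mat n} {c : ℂ} {l : ℕ → ℂ} (h : N.charpoly = ∏ i : Fin n, (X - C (l i)))
    (hc : ∀ i : Fin n, N.charpoly.eval (l i - c) ≠ 0) :
    (aeval (N + c • (1 : Mat n)) N.charpoly).det ≠ 0 := by
  have h1 : aeval (N + c • (1 : Mat n)) N.charpoly =
      (List.ofFn fun i : Fin n => (N + c • (1 : Mat n)) - algebraMap ℂ (Mat n) (l i)).prod := by
    rw [h, ← List.prod_ofFn, map_list_prod, List.map_ofFn]
    congr 1
    congr 1
    funext i
    simp
  rw [h1, ← Matrix.coe_detMonoidHom, map_list_prod, List.map_ofFn, List.prod_ofFn]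
  refine Finset.prod_ne_zero_iff.2 fun i _ => ?_
  have h2 := hc i
  rw [Matrix.eval_charpoly] at h2
  simp only [Function.comp, Matrix.coe_detMonoidHom]
  have h3 : N + c • (1 : Mat n) - algebraMap ℂ (Mat n) (l i) = -(Matrix.scalar (Fin n) (l i - c) - N) := by
    rw [Algebra.algebraMap_eq_smul_one, Matrix.scalar_apply, ← Matrix.smul_one_eq_diagonal, sub_smul]
    abel
  rw [h3, Matrix.det_neg]
  exact mul_ne_zero (pow_ne_zero _ (by norm_num)) h2

theorem nrs : S_NRS := by
  constructor
  · intro n P hP hn hr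
    obtain ⟨h1, l, hl⟩ := cmp_charpoly P hP hn
    have hroot : ∀ x : ℂ, (P.map (algebraMap ℝ ℂ)).eval x = aeval x P := fun x => by
      rw [eval_map, aeval_def]
    have hk : ∀ (k : ℕ) (i : Fin n), (cmp n P).charpoly.eval (l i - ((k : ℂ) + 1)) ≠ 0 := by
      intro k i h0
      rw [h1, hroot] at h0
      refine hr (l i - ((k : ℂ) + 1)) (l i) h0 ?_ k (by ring)
      rw [← hroot, hl, eval_prod]
      exact Finset.prod_eq_zero (Finset.mem_univ i) (by simp)
    have hca := Matrix.aeval_self_charpoly (cmp n P)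
    constructor
    · intro k X hX
      have h2 : cmp n P * X = X * (cmp n P + ((k : ℂ) + 1) • (1 : Mat n)) := by
        rw [mul_add, mul_smul_comm, mul_one]
        have := hX
        rw [← add_sub_assoc, sub_eq_zero] at this
        rw [← this, add_comm]
      have h3 := twine h2 (cmp n P).charpoly
      rw [hca, zero_mul] at h3
      have h4 := inv_shift (h1.trans hl) (hk k)
      have h5 := congrArg (fun Z => Z * (aeval (cmp n P + ((k : ℂ) + 1) • (1 : Mat n)) (cmp n P).charpoly)⁻¹) h3
      simp only [zero_mul, Matrix.mul_assoc] at h5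
      rw [Matrix.mul_nonsing_inv _ (Ne.isUnit h4), mul_one] at h5
      exact h5.symm
    · intro k X hX
      have h2 : (cmp n P + ((k : ℂ) + 1) • (1 : Mat n)) * X = X * cmp n P := by
        rw [add_mul, smul_mul_assoc, one_mul]
        rw [mul_neg, neg_mul, sub_neg_eq_add] at hX
        have h3 : (((k : ℂ) + 1) • X + cmp n P * X) - X * cmp n P = 0 := by
          rw [← hX]; abel
        rw [sub_eq_zero] at h3
        rw [← h3, add_comm]
      have h3 := twine h2 (cmp n P).charpoly
      rw [hca, mul_zero] at h3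
      have h4 := inv_shift (h1.trans hl) (hk k)
      have h5 := congrArg (fun Z => (aeval (cmp n P + ((k : ℂ) + 1) • (1 : Mat n)) (cmp n P).charpoly)⁻¹ * Z) h3
      simp only [mul_zero, ← Matrix.mul_assoc] at h5
      rw [Matrix.nonsing_inv_mul _ (Ne.isUnit h4), one_mul] at h5
      exact h5
  · intro n B t hB ht k X hX
    obtain ⟨ht1, ht2⟩ := ht k
    set c : ℂ := (k : ℂ) + 1 with hc
    have hc0 : c ≠ 0 := by
      rw [hc]
      exact_mod_cast Nat.succ_ne_zero k
    have h1 : c • X = B * X - X * B := by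
      have : c • X - (B * X - X * B) = 0 := by rw [← hX]; abel
      exact sub_eq_zero.1 this
    have e1 : c • (B * X) = t • (B * X) - B * X * B := by
      calc c • (B * X) = B * (c • X) := by rw [mul_smul_comm]
        _ = B * B * X - B * X * B := by rw [h1, mul_sub]; simp only [Matrix.mul_assoc]
        _ = _ := by rw [hB, smul_mul_assoc]
    have e2 : c • (X * B) = B * X * B - t • (X * B) := by
      calc c • (X * B) = (c • X) * B := by rw [smul_mul_assoc]
        _ = B * X * B - X * (B * B) := by rw [h1, sub_mul]; simp only [Matrix.mul_assoc]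
        _ = _ := by rw [hB, mul_smul_comm]
    have e3 : c • (B * X * B) = t • (B * X * B) - t • (B * X * B) := by
      calc c • (B * X * B) = (c • (B * X)) * B := by rw [smul_mul_assoc]
        _ = t • (B * X * B) - B * X * (B * B) := by rw [e1, sub_mul, smul_mul_assoc]; simp only [Matrix.mul_assoc]
        _ = _ := by rw [hB, mul_smul_comm]
    rw [sub_self, smul_eq_zero, or_iff_right hc0] at e3
    rw [e3, sub_zero] at e1
    rw [e3, zero_sub] at e2
    have f1 : B * X = 0 := by
      have : (c - t) • (B * X) = 0 := by rw [sub_smul, e1, sub_self]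
      exact (smul_eq_zero.1 this).resolve_left (sub_ne_zero.2 ht1)
    have f2 : X * B = 0 := by
      have : (c + t) • (X * B) = 0 := by rw [add_smul, e2, neg_add_cancel]
      refine (smul_eq_zero.1 this).resolve_left fun h0 => ht2 (by linear_combination h0)
    rw [f1, f2, sub_self, smul_eq_zero, or_iff_right hc0] at h1
    exact h1

end Pool.Agent.N207.HG
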