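import Pool.Agent.N207.HG.Nine
import Pool.Agent.N207.HG.Mon
import Pool.Agent.N207.HG.Nrs
import Pool.Agent.N207.HG.Ir2
import Pool.Agent.N207.HG.Inf4
import Pool.Agent.N222.HG.Loc
import Pool.Agent.N222.HG.Sng
import Pool.Agent.N222.HG.Tra
import Pool.Agent.N530.HG.Exx
import Pool.Agent.N530.HG.Ode
import Pool.Agent.N530.HG.Unb
import Pool.Agent.N530.HG.Uni
import Pool.Agent.N868.HG.Cnt
import Pool.Agent.N868.HG.Eig
import Pool.Agent.N868.HG.Rel
import Pool.Agent.N459.HG.FRM
import Pool.Agent.N558.HG.Fin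
import Pool.Agent.N558.HG.Int
import Pool.Agent.N40.HG.Chp

/-!
# Project HG: all jobs together
-/

set_option autoImplicit false

namespace Pool.Agent.N207.HG

theorem allHG : All where
  loc := N222.HG.loc
  exx := N530.HG.exx
  ode := N530.HG.ode N222.HG.loc
  uni := N530.HG.uni
  mon := mon
  tra := N222.HG.tra
  t01 := N222.HG.t01 (N530.HG.ode N222.HG.loc) N530.HG.exx
  inf := Inf.inf
  nrs := nrs
  sng := N222.HG.sng
  eig := N868.HG.eig N530.HG.exx
  frm := N459.HG.frm
  rel := N868.HG.rel N459.HG.frm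
  ir2 := Ir2.ir2
  unb := N530.HG.unb
  fin := N558.HG.fin
  cnt := N868.HG.cnt
  chp := N40.HG.chp
  int := N558.HG.int
  tn1 := N40.HG.tn1'

end Pool.Agent.N207.HG
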