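import Pool.Agent.N207.HG.Four
import Pool.Agent.N222.HG.T01

/-!
# Project HG: the monodromy of a factor
-/

set_option autoImplicit false

open Matrix Polynomial

namespace Pool.Agent.N207.HG

open Pool.Agent.Y119.HY (Sol Hf Gm HD PG ps Lens mem_Lens real_mem_Lens isOpen_Lens preconn_Lens symm_Lens slit_Lens)
open Pool.Agent.Y985.OR (Mat bl)

variable {n : ℕ} {P w Q : ℝ[X]} {s : ℝ}

lemma Ch_congr {D V : Set ℂ} {Y Y' F : ℂ → Mat n} (hYY : ∀ z ∈ D, Y' z = Y z) (h : Ch D Y V F) :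
    ∃ F' : ℂ → Mat n, Ch D Y' V F' ∧ ∀ z ∈ V, F' z = F z := by
  induction h with
  | base => exact ⟨Y', Ch.base, hYY⟩
  | @step V V' W F F' h hV' hp hF' hW hne hWV hWV' he ih =>
    obtain ⟨G, h1, h2⟩ := ih
    exact ⟨F', Ch.step h1 hV' hp hF' hW hne hWV hWV' fun z hz => by rw [he z hz, h2 z (hWV hz)], fun _ _ => rfl⟩

lemma Mo_congr {D : Set ℂ} {Y Y' : ℂ → Mat n} {g : Mat n} (hYY : ∀ z ∈ D, Y' z = Y z) (h : Mo D Y g) : Mo D Y' g := by
  obtain ⟨V, W, F, hc, hW, hne, hWV, hWD, he⟩ := h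
  obtain ⟨F', h1, h2⟩ := Ch_congr hYY hc
  exact ⟨V, W, F', h1, hW, hne, hWV, hWD, fun z hz => by rw [h2 z (hWV hz), he z hz, hYY z (hWD hz)]⟩

lemma cmp_sub (n : ℕ) (P Q : ℝ[X]) : cmp n P - bmp n P Q = cmp n Q := by
  ext i j
  unfold cmp bmp eL cf
  simp only [Matrix.sub_apply, Matrix.of_apply, vecMulVec_apply, coeff_sub]
  by_cases h : (i : ℕ) + 1 < n
  · have h2 : ¬ ((i : ℕ) + 1 = n) := by omega
    rw [if_pos h, if_pos h, if_neg h2, zero_mul, sub_zero]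
  · have := i.2
    rw [if_neg h, if_neg h, if_pos (by omega)]
    push_cast
    ring

lemma nu_ne (hn : 0 < n) (x : ℂ) : nu n x ≠ 0 := by
  intro h0
  have := congrFun h0 ⟨0, hn⟩
  unfold nu at this
  simp at this

lemma eL_ne (hn : 0 < n) : eL n ≠ 0 := by
  intro h0
  have := congrFun h0 ⟨n - 1, by omega⟩
  unfold eL at this
  simp only [Pi.zero_apply] at this
  rw [if_pos (by omega)] at this
  exact one_ne_zero this

lemma exists_root (hn : 0 < n) (hd : P.natDegree = n) : ∃ l : ℂ, aeval l P = 0 := by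
  refine IsAlgClosed.exists_aeval_eq_zero ℂ P ?_
  intro h0
  have h1 := natDegree_eq_zero_iff_degree_le_zero.2 h0.le
  omega

lemma NRQ_nat {Q : ℝ[X]} (h : ∀ x y : ℂ, aeval x Q = 0 → aeval y Q = 0 → ∀ k : ℤ, y = x + k → y = x) :
    ∀ x y : ℂ, aeval x Q = 0 → aeval y Q = 0 → ∀ k : ℕ, y ≠ x + k + 1 := by
  intro x y hx hy k hk
  have h1 := h x y hx hy ((k : ℤ) + 1) (by rw [hk]; push_cast; ring)
  rw [h1] at hk
  have h2 : ((k : ℂ) + 1) = 0 := by linear_combination -hk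
  exact absurd h2 (by exact_mod_cast Nat.succ_ne_zero k)

theorem Dat.fac (hA : All) (h : Dat n P w Q s) {Y : ℂ → Mat n}
    (hY : ∀ z ∈ D0, HD Y (Gm (cmp n P) (bmp n P Q) z * Y z) z) (hdet : ∃ z ∈ D0, (Y z).det ≠ 0) :
    ∃ (J T Ti g : Mat n) (x : Fin n → ℂ) (c : ℂ), Fac n P Q s Y J T Ti g x c ∧
      ∀ z ∈ D0, (Y z)ᵀ * Jz n P w s z * Y z = J := by
  obtain ⟨H, K, M, Mi, hH, hK, hMMi, hM⟩ := h.setup hA
  have hMiM : Mi * M = 1 := mul_eq_one_comm.1 hMMi
  obtain ⟨C, hC⟩ := hA.uni n D0 (Gm (cmp n P) (bmp n P Q)) (YE (cmp n P) H) Y isOpen_D0 preconn_D0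
    (fun z hz => YE_ode hA (h.nrA hA) hH hz) hY (fun z hz => YE_det hA (h.nrA hA) hH hz.1)
  have hCdet : C.det ≠ 0 := by
    obtain ⟨z, hz, hz2⟩ := hdet
    rw [hC z hz, det_mul] at hz2
    exact right_ne_zero_of_mul hz2
  have hdet' : ∀ z ∈ D0, (Y z).det ≠ 0 := by
    intro z hz
    rw [hC z hz, det_mul]
    exact mul_ne_zero (YE_det hA (h.nrA hA) hH hz.1) hCdet
  obtain ⟨J, hrel, hJt, hJd⟩ := h.form hA hY hdet'
  set Ci : Mat n := C⁻¹ with hCi
  have hCCi : C * Ci = 1 := mul_nonsing_inv C (Ne.isUnit hCdet)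
  have hCiC : Ci * C = 1 := nonsing_inv_mul C (Ne.isUnit hCdet)
  set A := cmp n P with hAdef
  set B := bmp n P Q with hBdef
  set tp : ℂ := 2 * Real.pi * Complex.I with htp
  obtain ⟨m0, m0', m1⟩ := hA.t01 n A B H K M Mi (h.nrA hA) (h.nrB hA) hH hK hMMi hM
  have hmon := hA.mon n D0 (YE A H) isOpen_D0 preconn_D0 ⟨_, half_D0⟩
    (HD_an isOpen_D0 fun z hz => YE_ode hA (h.nrA hA) hH hz)
  have tr : ∀ g, Mo D0 (YE A H) g → Mo D0 Y (Ci * g * C) := fun g hg => Mo_congr hC (hmon.2.2 g C Ci hCCi hg)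
  set T : Mat n := Ci * EX A tp * C with hT
  set Ti : Mat n := Ci * EX A (-tp) * C with hTi
  set g : Mat n := Ci * (Mi * EX (-B) tp * M) * C with hg
  have mT : Mo D0 Y T := tr _ m0
  have mTi : Mo D0 Y Ti := tr _ m0'
  have mg : Mo D0 Y g := tr _ m1
  have iT := Mo_iso hrel mT
  have ig := Mo_iso hrel mg
  have hTTi : T * Ti = 1 := by
    rw [hT, hTi]
    calc Ci * EX A tp * C * (Ci * EX A (-tp) * C) = Ci * EX A tp * (C * Ci) * EX A (-tp) * C := by
          simp only [Matrix.mul_assoc]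
      _ = Ci * (EX A tp * EX A (-tp)) * C := by rw [hCCi, mul_one]; simp only [Matrix.mul_assoc]
      _ = 1 := by rw [EX_mul_neg hA, mul_one, hCiC]
  obtain ⟨κ, hκ0, hκ⟩ := h.e1 hA
  set x : Fin n → ℂ := (Ci * Mi) *ᵥ eL n with hx
  set y : Fin n → ℂ := cf n (Q - P) ᵥ* (M * C) with hy
  have hgxy : g = 1 + κ • vecMulVec x y := by
    rw [hg, hκ, hx, hy]
    calc Ci * (Mi * (1 + κ • bmp n P Q) * M) * C = Ci * (Mi * M) * C + κ • (Ci * (Mi * bmp n P Q * M) * C) := by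
          simp only [mul_add, add_mul, mul_one, mul_smul_comm, smul_mul_assoc]
      _ = 1 + κ • ((Ci * Mi) * bmp n P Q * (M * C)) := by
          rw [hMiM, mul_one, hCiC]
          simp only [Matrix.mul_assoc]
      _ = _ := by
          unfold bmp
          rw [mul_vecMulVec, vecMulVec_mul]
  have hx0 : x ≠ 0 := by
    intro h0
    have h1 : (M * C) *ᵥ x = 0 := by rw [h0, mulVec_zero]
    rw [hx, mulVec_mulVec] at h1
    have h2 : M * C * (Ci * Mi) = 1 := by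
      calc M * C * (Ci * Mi) = M * (C * Ci) * Mi := by simp only [Matrix.mul_assoc]
        _ = 1 := by rw [hCCi, mul_one, hMMi]
    rw [h2, one_mulVec] at h1
    exact eL_ne h.n0 h1
  have hinj : ∀ x y : ℂ, aeval x P = 0 → aeval y P = 0 → ∀ k : ℤ, y = x + k → y = x := fun x y hx hy k hk => by
    rw [hk, h.dif hx hy k hk]; simp
  obtain ⟨eg1, eg2, eg3⟩ := hA.eig n P h.Pm h.Pd hinj
  have hnf : ∀ l : ℂ, aeval l P = 0 → cf n (Q - P) ⬝ᵥ (M *ᵥ nu n l) ≠ 0 := fun l hl => h.not_fixed hA hH hK hM hl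
  have hye : ∀ e : Fin n → ℂ, y ⬝ᵥ e = cf n (Q - P) ⬝ᵥ (M *ᵥ (C *ᵥ e)) := by
    intro e
    rw [hy, ← dotProduct_mulVec, mulVec_mulVec]
  have hy0 : y ≠ 0 := by
    intro h0
    obtain ⟨l, hl⟩ := exists_root h.n0 h.Pd
    have h1 := hye (Ci *ᵥ nu n l)
    rw [h0, zero_dotProduct, mulVec_mulVec _ C Ci, hCCi, one_mulVec] at h1
    exact hnf l hl h1.symm
  have hJs : Jᵀ = J ∨ Jᵀ = -J := by
    rcases h.sv with h1 | h1
    · left
      rw [hJt, h1, Complex.ofReal_one, one_smul]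
    · right
      rw [hJt, h1, Complex.ofReal_neg, Complex.ofReal_one, neg_one_smul]
  obtain ⟨c, hc0, hc⟩ := rank_one hJs hJd hκ0 hx0 hy0 (by rw [← hgxy]; exact ig)
  have hs0 : (s : ℂ) ≠ 0 := by
    rcases h.sv with h1 | h1 <;> rw [h1] <;> norm_num
  have hTe : ∀ (e : Fin n → ℂ) (m : ℂ), T *ᵥ e = m • e → EX A tp *ᵥ (C *ᵥ e) = m • (C *ᵥ e) := by
    intro e m he
    have h1 := congrArg (fun v => C *ᵥ v) he
    simp only [hT, mulVec_mulVec, mulVec_smul] at h1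
    have h2 : C * (Ci * EX A tp * C) = EX A tp * C := by
      calc C * (Ci * EX A tp * C) = (C * Ci) * EX A tp * C := by simp only [Matrix.mul_assoc]
        _ = _ := by rw [hCCi, one_mul]
    rw [h2] at h1
    rw [mulVec_mulVec]
    exact h1
  have hCe : ∀ e : Fin n → ℂ, e ≠ 0 → C *ᵥ e ≠ 0 := by
    intro e he h0
    have h1 : Ci *ᵥ (C *ᵥ e) = 0 := by rw [h0, mulVec_zero]
    rw [mulVec_mulVec, hCiC, one_mulVec] at h1
    exact he h1
  have hCie : ∀ e : Fin n → ℂ, e ≠ 0 → Ci *ᵥ e ≠ 0 := by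
    intro e he h0
    have h1 : C *ᵥ (Ci *ᵥ e) = 0 := by rw [h0, mulVec_zero]
    rw [mulVec_mulVec, hCCi, one_mulVec] at h1
    exact he h1
  have hTC : ∀ v : Fin n → ℂ, T *ᵥ (Ci *ᵥ v) = Ci *ᵥ (EX A tp *ᵥ v) := by
    intro v
    rw [hT, mulVec_mulVec, mulVec_mulVec]
    congr 1
    calc Ci * EX A tp * C * Ci = Ci * EX A tp * (C * Ci) := by simp only [Matrix.mul_assoc]
      _ = _ := by rw [hCCi, mul_one]
  have hEnu : ∀ l : ℂ, aeval l P = 0 → EX A tp *ᵥ nu n l = Complex.exp (tp * l) • nu n l := fun l hl =>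
    (hA.exx n A).2.2.2.2.1 _ _ (eg2 l hl) tp
  -- infinity
  have hgT : NRQ Q → ∃ S Si : Mat n, S * Si = 1 ∧
      g * T = Si * EX (cmp n Q) tp * S := by
    intro hQ
    have hn1 : NR (B - A) := by
      have h1 := (hA.nrs.1 n Q h.Qm h.Qd (NRQ_nat hQ)).2
      have h2 : B - A = -cmp n Q := by rw [← cmp_sub n P Q, neg_sub]
      rw [h2]
      exact h1
    obtain ⟨R, Ri, hR, he⟩ := hA.inf n A B H K M Mi (h.nrA hA) (h.nrB hA) hn1 hH hK hMMi hM
    rw [cmp_sub] at he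
    have hRi : Ri * R = 1 := mul_eq_one_comm.1 hR
    refine ⟨Ri * C, Ci * R, ?_, ?_⟩
    · calc Ri * C * (Ci * R) = Ri * (C * Ci) * R := by simp only [Matrix.mul_assoc]
        _ = 1 := by rw [hCCi, mul_one, hRi]
    · rw [hg, hT]
      calc Ci * (Mi * EX (-B) tp * M) * C * (Ci * EX A tp * C)
          = Ci * (Mi * EX (-B) tp * M) * (C * Ci) * EX A tp * C := by simp only [Matrix.mul_assoc]
        _ = Ci * ((Mi * EX (-B) tp * M) * EX A tp) * C := by rw [hCCi, mul_one]; simp only [Matrix.mul_assoc]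
        _ = _ := by rw [he, ← htp]; simp only [Matrix.mul_assoc]
  refine ⟨J, T, Ti, g, x, κ * c, ⟨hJt, hJd, hTTi, mT, mTi, mg, iT, ig, hx0, mul_ne_zero hκ0 hc0, ?_, ?_, ?_, ?_, ?_,
    ?_, ?_, ⟨C, Ci, hCCi, rfl⟩, hgT, ?_, ?_⟩, hrel⟩
  · rw [hgxy, hc, vecMulVec_smul, smul_smul]
  · intro e m he hm h0
    obtain ⟨l, c', hl, -, hc', hce⟩ := eg1 (C *ᵥ e) m (hCe e he) (hTe e m hm)
    rw [bl_symm hJt, mul_eq_zero, or_iff_right hs0] at h0
    have h1 := hye e
    rw [hc, smul_dotProduct, h0, smul_zero, hce, mulVec_smul, dotProduct_smul, smul_eq_mul] at h1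
    exact mul_ne_zero hc' (hnf l hl) h1.symm
  · intro e m he hm
    obtain ⟨l, c', hl, hml, -, -⟩ := eg1 (C *ᵥ e) m (hCe e he) (hTe e m hm)
    exact ⟨l, hl, hml⟩
  · intro l hl
    refine ⟨Ci *ᵥ nu n l, hCie _ (nu_ne h.n0 l), ?_⟩
    rw [hTC, hEnu l hl, mulVec_smul]
  · intro l hl hl'
    obtain ⟨y0, hy0⟩ := eg3 l hl hl'
    have e1 : T *ᵥ (Ci *ᵥ y0) - Complex.exp (tp * l) • (Ci *ᵥ y0) = Ci *ᵥ nu n l := by
      rw [hTC, ← hy0, mulVec_sub, mulVec_smul]
    refine ⟨Ci *ᵥ y0, ?_, ?_⟩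
    · rw [e1]
      exact hCie _ (nu_ne h.n0 l)
    · rw [e1, hTC, hEnu l hl, mulVec_smul]
  · intro hQ e m he hm
    obtain ⟨S, Si, hS, hgs⟩ := hgT hQ
    have hSi : Si * S = 1 := mul_eq_one_comm.1 hS
    have h1 : S *ᵥ e ≠ 0 := by
      intro h0
      have h1 : Si *ᵥ (S *ᵥ e) = 0 := by rw [h0, mulVec_zero]
      rw [mulVec_mulVec, hSi, one_mulVec] at h1
      exact he h1
    have h2 : EX (cmp n Q) tp *ᵥ (S *ᵥ e) = m • (S *ᵥ e) := by
      have h3 := congrArg (fun v => S *ᵥ v) hm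
      simp only [hgs, mulVec_mulVec, mulVec_smul] at h3
      have h4 : S * (Si * EX (cmp n Q) tp * S) = EX (cmp n Q) tp * S := by
        calc S * (Si * EX (cmp n Q) tp * S) = (S * Si) * EX (cmp n Q) tp * S := by simp only [Matrix.mul_assoc]
          _ = _ := by rw [hS, one_mul]
      rw [h4] at h3
      rw [mulVec_mulVec]
      exact h3
    obtain ⟨l, c', hl, hml, -, -⟩ := (hA.eig n Q h.Qm h.Qd hQ).1 (S *ᵥ e) m h1 h2
    exact ⟨l, hl, hml⟩
  · intro hQ l hl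
    obtain ⟨S, Si, hS, hgs⟩ := hgT hQ
    have hSi : Si * S = 1 := mul_eq_one_comm.1 hS
    refine ⟨Si *ᵥ nu n l, ?_, ?_⟩
    · intro h0
      have h1 : S *ᵥ (Si *ᵥ nu n l) = 0 := by rw [h0, mulVec_zero]
      rw [mulVec_mulVec, hS, one_mulVec] at h1
      exact nu_ne h.n0 l h1
    · have h2 := (hA.exx n (cmp n Q)).2.2.2.2.1 _ _ ((hA.eig n Q h.Qm h.Qd hQ).2.1 l hl) tp
      have h4 : Si * EX (cmp n Q) tp * S * Si = Si * EX (cmp n Q) tp := by
        calc Si * EX (cmp n Q) tp * S * Si = Si * EX (cmp n Q) tp * (S * Si) := by simp only [Matrix.mul_assoc]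
          _ = _ := by rw [hS, mul_one]
      rw [hgs, mulVec_mulVec, h4, ← mulVec_mulVec, h2, mulVec_smul]
  · have hHan := (hA.ode n A B H (h.nrA hA) hH).1
    have hadd := (hA.exx n A).2.1
    have hEan := (hA.exx n A).2.2.2.1
    refine ⟨fun z => Hf H z * EX A (Complex.log (-z) + Real.pi * Complex.I) * C, ?_, fun z hz hi => ?_, fun z hz hi => ?_⟩
    · refine Pool.Agent.N222.HG.sol_an (φ := fun z => z) ⟨fun z => rfl, analyticOnNhd_id⟩ (fun z hz => hz.1) hHan hEan ?_ C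
      intro z hz
      exact (AnalyticAt.clog analyticAt_id.neg hz.2).add analyticAt_const
    · have h1 := Pool.Agent.N222.HG.log_neg_turn (ε := 1) (Or.inl rfl) (z := z) (by rwa [one_mul])
      rw [Complex.ofReal_one, one_mul] at h1
      show Hf H z * EX A (Complex.log (-z) + Real.pi * Complex.I) * C = Y z
      rw [h1, hC z ⟨hz, Or.inr hi.ne'⟩]
      rfl
    · have h1 := Pool.Agent.N222.HG.log_neg_turn (ε := -1) (Or.inr rfl) (z := z) (by linarith)
      have h2 : Complex.log (-z) + Real.pi * Complex.I = Complex.log z + tp := by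
        rw [← h1, htp]
        push_cast
        ring
      show Hf H z * EX A (Complex.log (-z) + Real.pi * Complex.I) * C = Y z * T
      rw [h2, hadd, hC z ⟨hz, Or.inr hi.ne⟩, hT]
      unfold YE
      calc Hf H z * (EX A (Complex.log z) * EX A tp) * C = Hf H z * EX A (Complex.log z) * 1 * EX A tp * C := by
            rw [mul_one]; simp only [Matrix.mul_assoc]
        _ = _ := by rw [← hCCi]; simp only [Matrix.mul_assoc]
  · have hKan := (hA.ode n (-B) (-A) K (h.nrB hA) hK).1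
    have hadd := (hA.exx n (-B)).2.1
    have hEan := (hA.exx n (-B)).2.2.2.1
    have hYL : ∀ z : ℂ, ‖z‖ < 1 → ‖1 - z‖ < 1 → Y z = Hf K (1 - z) * EX (-B) (Complex.log (1 - z)) * M * C := by
      intro z h1 h2
      have h3 : z ∈ Lens := mem_Lens.2 ⟨h1, h2⟩
      rw [hC z (Lens_D0 h3), hM z h3]
      rfl
    refine ⟨fun z => Hf K (1 - z) * EX (-B) (Complex.log (z - 1) + Real.pi * Complex.I) * (M * C), ?_,
      fun z hz hz1 hi => ?_, fun z hz hz1 hi => ?_⟩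
    · refine Pool.Agent.N222.HG.sol_an (φ := fun z => 1 - z) ⟨fun z => by ring, analyticOnNhd_const.sub analyticOnNhd_id⟩
        (fun z hz => hz.1) hKan hEan ?_ (M * C)
      intro z hz
      exact (AnalyticAt.clog (analyticAt_id.sub analyticAt_const) hz.2).add analyticAt_const
    · have h1 := Pool.Agent.N222.HG.log_neg_turn (ε := 1) (Or.inl rfl) (z := 1 - z) (by
        rw [one_mul, Complex.sub_im, Complex.one_im]; linarith)
      rw [Complex.ofReal_one, one_mul, neg_sub] at h1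
      show Hf K (1 - z) * EX (-B) (Complex.log (z - 1) + Real.pi * Complex.I) * (M * C) = Y z
      rw [h1, hYL z hz hz1]
      simp only [Matrix.mul_assoc]
    · have h1 := Pool.Agent.N222.HG.log_neg_turn (ε := -1) (Or.inr rfl) (z := 1 - z) (by
        rw [Complex.sub_im, Complex.one_im]; linarith)
      rw [neg_sub] at h1
      have h2 : Complex.log (z - 1) + Real.pi * Complex.I = Complex.log (1 - z) + tp := by
        rw [← h1, htp]
        push_cast
        ring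
      show Hf K (1 - z) * EX (-B) (Complex.log (z - 1) + Real.pi * Complex.I) * (M * C) = Y z * g
      rw [h2, hadd, hYL z hz hz1, hg]
      calc Hf K (1 - z) * (EX (-B) (Complex.log (1 - z)) * EX (-B) tp) * (M * C)
          = Hf K (1 - z) * EX (-B) (Complex.log (1 - z)) * 1 * EX (-B) tp * (M * C) := by
            rw [mul_one]; simp only [Matrix.mul_assoc]
        _ = Hf K (1 - z) * EX (-B) (Complex.log (1 - z)) * (M * 1 * Mi) * EX (-B) tp * (M * C) := by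
            simp only [mul_one, hMMi]
        _ = _ := by rw [← hCCi]; simp only [Matrix.mul_assoc]

end Pool.Agent.N207.HG
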