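import Pool.Agent.N207.HG.Three

/-!
# Project HG: one factor, summary
-/

set_option autoImplicit false

open Matrix Polynomial

namespace Pool.Agent.N207.HG

open Pool.Agent.Y119.HY (Sol Hf Gm HD PG ps Lens mem_Lens real_mem_Lens isOpen_Lens preconn_Lens symm_Lens slit_Lens)
open Pool.Agent.Y985.OR (Mat bl)

variable {n : ℕ} {P w Q : ℝ[X]} {s : ℝ}

lemma bl_symm {J : Mat n} {s : ℂ} (hJ : Jᵀ = s • J) (x e : Fin n → ℂ) : bl J x e = s * ((J *ᵥ x) ⬝ᵥ e) := by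
  unfold bl
  have h1 : x ⬝ᵥ (J *ᵥ e) = (Jᵀ *ᵥ x) ⬝ᵥ e := by
    rw [mulVec_transpose, dotProduct_mulVec]
  rw [h1, hJ, smul_mulVec, smul_dotProduct, smul_eq_mul]

lemma ball1_slit {z : ℂ} (hz : z ∈ Metric.ball (1 : ℂ) 1) : z ∈ Complex.slitPlane := by
  rw [Metric.mem_ball, dist_eq_norm] at hz
  left
  have h1 : (1 - z).re ≤ ‖1 - z‖ := Complex.re_le_norm _
  rw [Complex.sub_re, Complex.one_re, norm_sub_rev] at h1
  linarith

/-- no eigenvector of the monodromy at `0` is fixed by the monodromy at `1` -/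
lemma Dat.not_fixed (hA : All) (h : Dat n P w Q s) {H K : ℕ → Mat n} {M : Mat n}
    (hH : Sol (cmp n P) (bmp n P Q) H) (hK : Sol (-bmp n P Q) (-cmp n P) K)
    (hM : ∀ z ∈ Lens, YE (cmp n P) H z = YE (-bmp n P Q) K (1 - z) * M) {l : ℂ} (hl : aeval l P = 0) :
    cf n (Q - P) ⬝ᵥ (M *ᵥ nu n l) ≠ 0 := by
  intro h0
  obtain ⟨y, rfl, hy, hyP⟩ := h.rt_real hl
  have hB : (-bmp n P Q) *ᵥ (M *ᵥ nu n y) = (0 : ℂ) • (M *ᵥ nu n y) := by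
    unfold bmp
    rw [neg_mulVec, vecMulVec_mulVec, h0, zero_smul]
    simp
  have hE : ∀ t, EX (-bmp n P Q) t *ᵥ (M *ᵥ nu n y) = M *ᵥ nu n y := by
    intro t
    rw [(hA.exx n (-bmp n P Q)).2.2.2.2.1 _ _ hB, mul_zero, Complex.exp_zero, one_smul]
  have hEA : ∀ t, EX (cmp n P) t *ᵥ nu n y = Complex.exp (t * y) • nu n y := by
    intro t
    refine (hA.exx n (cmp n P)).2.2.2.2.1 _ _ ?_ t
    exact (hA.eig n P h.Pm h.Pd fun x y hx hy k hk => by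
      rw [hk, h.dif hx hy k hk]; simp).2.1 _ hl
  have hloc0 := hA.loc n (cmp n P) (bmp n P Q) (h.nrA hA)
  refine hA.sng n P Q H y h.n0 h.Pm h.Qm h.Pd h.Qd hyP (fun k hk => ?_) (fun k => h.irr y hyP k) hH (hloc0.2 H hH)
    (fun z => Complex.exp (-(Complex.log z * y)) * (Hf K (1 - z) *ᵥ (M *ᵥ nu n y)) ⟨0, h.n0⟩) ?_ fun z hz => ?_
  · have h1 : aeval ((y + k + 1 : ℝ) : ℂ) P = 0 := by
      rw [aeval_real, hk]
      simp
    obtain ⟨y', h2, h3⟩ := h.rts _ h1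
    have h4 : y + k + 1 = y' := by exact_mod_cast h2
    rw [← h4, abs_lt] at h3
    rw [abs_lt] at hy
    have := Nat.cast_nonneg (α := ℝ) k
    linarith [h3.2, hy.1]
  · refine AnalyticOnNhd.mul ?_ ?_
    · intro z hz
      have h1 : AnalyticAt ℂ (fun z : ℂ => -(Complex.log z * y)) z :=
        ((analyticAt_id.clog (ball1_slit hz)).mul analyticAt_const).neg
      exact h1.cexp
    · simp only [Matrix.mulVec, dotProduct]
      refine Finset.analyticOnNhd_fun_sum _ fun j _ => AnalyticOnNhd.mul ?_ analyticOnNhd_const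
      intro z hz
      have h3 : AnalyticAt ℂ (fun w => Hf K w ⟨0, h.n0⟩ j) (1 - z) :=
        (hA.ode n _ _ K (h.nrB hA) hK).1 _ j (1 - z) (by
          rw [Metric.mem_ball, dist_comm, dist_eq_norm] at hz
          rwa [Metric.mem_ball, dist_zero_right])
      have h4 : AnalyticAt ℂ (fun w : ℂ => 1 - w) z := analyticAt_const.sub analyticAt_id
      exact h3.fun_comp h4
  · have h3 := congrArg (fun X : Mat n => X *ᵥ nu n y) (hM z hz)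
    unfold YE at h3
    simp only [← mulVec_mulVec] at h3
    rw [hEA, hE, mulVec_smul] at h3
    have h4 := congrFun h3 ⟨0, h.n0⟩
    rw [Pi.smul_apply, smul_eq_mul] at h4
    rw [← h4, ← mul_assoc, ← Complex.exp_add, neg_add_cancel, Complex.exp_zero, one_mul]

/-- `g` is the local monodromy of `Y` at `0` -/
def Loc0 (Y : ℂ → Mat n) (g : Mat n) : Prop := ∃ F : ℂ → Mat n,
  (∀ a b, AnalyticOnNhd ℂ (fun z => F z a b) {z | ‖z‖ < 1 ∧ -z ∈ Complex.slitPlane}) ∧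
  (∀ z : ℂ, ‖z‖ < 1 → 0 < z.im → F z = Y z) ∧ ∀ z : ℂ, ‖z‖ < 1 → z.im < 0 → F z = Y z * g

/-- `g` is the local monodromy of `Y` at `1` -/
def Loc1 (Y : ℂ → Mat n) (g : Mat n) : Prop := ∃ F : ℂ → Mat n,
  (∀ a b, AnalyticOnNhd ℂ (fun z => F z a b) {z | ‖1 - z‖ < 1 ∧ z - 1 ∈ Complex.slitPlane}) ∧
  (∀ z : ℂ, ‖z‖ < 1 → ‖1 - z‖ < 1 → z.im < 0 → F z = Y z) ∧
  ∀ z : ℂ, ‖z‖ < 1 → ‖1 - z‖ < 1 → 0 < z.im → F z = Y z * g

/-- no two roots differ by a nonzero integer -/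
def NRQ (Q : ℝ[X]) : Prop := ∀ x y : ℂ, aeval x Q = 0 → aeval y Q = 0 → ∀ k : ℤ, y = x + k → y = x

/-- the monodromy of a factor -/
structure Fac (n : ℕ) (P Q : ℝ[X]) (s : ℝ) (Y : ℂ → Mat n) (J T Ti g : Mat n) (x : Fin n → ℂ) (c : ℂ) : Prop where
  Jt : Jᵀ = (s : ℂ) • J
  Jd : J.det ≠ 0
  TTi : T * Ti = 1
  mT : Mo D0 Y T
  mTi : Mo D0 Y Ti
  mg : Mo D0 Y g
  iT : Tᵀ * J * T = J
  ig : gᵀ * J * g = J
  x0 : x ≠ 0
  c0 : c ≠ 0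
  gx : g = 1 + c • vecMulVec x (J *ᵥ x)
  ev : ∀ (e : Fin n → ℂ) (m : ℂ), e ≠ 0 → T *ᵥ e = m • e → bl J x e ≠ 0
  sp1 : ∀ (e : Fin n → ℂ) (m : ℂ), e ≠ 0 → T *ᵥ e = m • e →
    ∃ l : ℂ, aeval l P = 0 ∧ m = Complex.exp (2 * Real.pi * Complex.I * l)
  sp2 : ∀ l : ℂ, aeval l P = 0 → ∃ e : Fin n → ℂ, e ≠ 0 ∧ T *ᵥ e = Complex.exp (2 * Real.pi * Complex.I * l) • e
  dbl : ∀ l : ℂ, aeval l P = 0 → aeval l (derivative P) = 0 → ∃ y : Fin n → ℂ,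
    T *ᵥ y - Complex.exp (2 * Real.pi * Complex.I * l) • y ≠ 0 ∧
    T *ᵥ (T *ᵥ y - Complex.exp (2 * Real.pi * Complex.I * l) • y) =
      Complex.exp (2 * Real.pi * Complex.I * l) • (T *ᵥ y - Complex.exp (2 * Real.pi * Complex.I * l) • y)
  sq1 : NRQ Q → ∀ (e : Fin n → ℂ) (m : ℂ), e ≠ 0 → (g * T) *ᵥ e = m • e →
    ∃ l : ℂ, aeval l Q = 0 ∧ m = Complex.exp (2 * Real.pi * Complex.I * l)
  sq2 : NRQ Q → ∀ l : ℂ, aeval l Q = 0 → ∃ e : Fin n → ℂ, e ≠ 0 ∧ (g * T) *ᵥ e = Complex.exp (2 * Real.pi * Complex.I * l) • e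
  cj : ∃ C Ci : Mat n, C * Ci = 1 ∧ T = Ci * EX (cmp n P) (2 * Real.pi * Complex.I) * C
  cq : NRQ Q → ∃ C Ci : Mat n, C * Ci = 1 ∧ g * T = Ci * EX (cmp n Q) (2 * Real.pi * Complex.I) * C
  lc0 : Loc0 Y T
  lc1 : Loc1 Y g

end Pool.Agent.N207.HG
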