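import Pool.Agent.N207.HG.Ode2
import Pool.Agent.N222.HG.Loc
import Pool.Agent.N222.HG.T01
import Pool.Agent.N530.HG.Exx
import Pool.Agent.N530.HG.Ode
import Pool.Agent.N530.HG.Uni

/-!
# Project HG: the monodromy at infinity
-/

set_option autoImplicit false

open Matrix Polynomial Metric

namespace Pool.Agent.N207.HG.Inf

open Pool.Agent.Y119.HY (Sol Hf Gm HD PG ps Lens mem_Lens)
open Pool.Agent.Y985.OR (Mat)
open Pool.Agent.N207.HG

variable {n : ℕ}

/-- pulled back local solutions -/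
noncomputable def PB (N0 : Mat n) (H : ℕ → Mat n) (φ L : ℂ → ℂ) (z : ℂ) : Mat n := Hf H (φ z) * EX N0 (L (φ z))

lemma EX_det (N : Mat n) (t : ℂ) : (EX N t).det ≠ 0 := by
  have h1 : EX N t * EX N (-t) = 1 := by
    rw [← (N530.HG.exx n N).2.1, add_neg_cancel, (N530.HG.exx n N).1]
  have h2 := congrArg Matrix.det h1
  rw [det_mul, det_one] at h2
  exact left_ne_zero_of_mul_eq_one h2

/-- solution with nonzero determinant at `z` -/
def IsF (A B : Mat n) (F : ℂ → Mat n) (z : ℂ) : Prop := HD F (Gm A B z * F z) z ∧ (F z).det ≠ 0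

lemma PB_sol {A B N0 N1 : Mat n} {H : ℕ → Mat n} (hN : NR N0) (hH : Sol N0 N1 H) {φ L : ℂ → ℂ} {φ' z : ℂ}
    (hφ : HasDerivAt φ φ' z) (h1 : ‖φ z‖ < 1) (h0 : φ z ≠ 0) (hL : HasDerivAt L (1 / φ z) (φ z))
    (he : φ' • Gm N0 N1 (φ z) = Gm A B z) : IsF A B (PB N0 H φ L) z := by
  have hode := N530.HG.ode N222.HG.loc n N0 N1 H hN hH
  constructor
  · have h2 := hode.2.2 L (φ z) h1 h0 hL
    intro i j
    have h3 := (h2 i j).comp z hφ
    have h4 : (Gm A B z * PB N0 H φ L z) i j =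
        (Gm N0 N1 (φ z) * (Hf H (φ z) * EX N0 (L (φ z)))) i j * φ' := by
      rw [← he, smul_mul_assoc, Matrix.smul_apply, smul_eq_mul, mul_comm]
      rfl
    rw [h4]
    exact h3
  · unfold PB
    rw [det_mul]
    exact mul_ne_zero (hode.2.1 _ h1) (EX_det _ _)

lemma transfer {A B : Mat n} {V : Set ℂ} (hV : IsOpen V) (hc : Convex ℝ V) {F G : ℂ → Mat n}
    (hF : ∀ z ∈ V, IsF A B F z) (hG : ∀ z ∈ V, IsF A B G z) {K : Mat n} {q : ℂ} (hq : q ∈ V) (h : G q = F q * K) :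
    ∀ z ∈ V, G z = F z * K := by
  obtain ⟨C, hC⟩ := N530.HG.uni n V (Gm A B) F G hV hc.isPreconnected (fun z hz => (hF z hz).1)
    (fun z hz => (hG z hz).1) (fun z hz => (hF z hz).2)
  have h1 : F q * C = F q * K := by rw [← hC q hq, h]
  have hu : IsUnit (F q).det := Ne.isUnit (hF q hq).2
  have h2 : C = K := by
    have := congrArg (fun X => (F q)⁻¹ * X) h1
    simpa [← Matrix.mul_assoc, nonsing_inv_mul _ hu] using this
  rw [← h2]
  exact hC

lemma exists_K {A B : Mat n} {V : Set ℂ} (hV : IsOpen V) (hc : Convex ℝ V) {F G : ℂ → Mat n}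
    (hF : ∀ z ∈ V, IsF A B F z) (hG : ∀ z ∈ V, IsF A B G z) (hne : V.Nonempty) :
    ∃ K : Mat n, K.det ≠ 0 ∧ ∀ z ∈ V, G z = F z * K := by
  obtain ⟨C, hC⟩ := N530.HG.uni n V (Gm A B) F G hV hc.isPreconnected (fun z hz => (hF z hz).1)
    (fun z hz => (hG z hz).1) (fun z hz => (hF z hz).2)
  obtain ⟨q, hq⟩ := hne
  refine ⟨C, ?_, hC⟩
  have h1 := (hG q hq).2
  rw [hC q hq, det_mul] at h1
  exact right_ne_zero_of_mul h1

/-- local solutions at an ordinary point -/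
lemma star {A B : Mat n} {c : ℂ} (hc0 : c ≠ 0) (hc1 : c ≠ 1) {ι : Type} (V : ι → Set ℂ) (F : ι → ℂ → Mat n)
    (hVo : ∀ i, IsOpen (V i)) (hVc : ∀ i, Convex ℝ (V i)) (hF : ∀ i, ∀ z ∈ V i, IsF A B (F i) z)
    (hne : ∀ i, ∀ δ > 0, ∃ p ∈ ball c δ, p ∈ V i) :
    ∃ k : ι → Mat n, (∀ i, (k i).det ≠ 0) ∧ ∀ i j (K : Mat n),
      (∀ δ > 0, ∃ p ∈ ball c δ, p ∈ V i ∧ p ∈ V j ∧ F j p = F i p * K) → k j = k i * K := by
  obtain ⟨ε, hε, X, hX, hXd⟩ := ex_mat A B hc0 hc1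
  have h1 : ∀ i, ∃ C : Mat n, ∀ z ∈ V i ∩ ball c ε, F i z = X z * C := fun i =>
    N530.HG.uni n (V i ∩ ball c ε) (Gm A B) X (F i) ((hVo i).inter isOpen_ball)
      ((hVc i).inter (convex_ball c ε)).isPreconnected (fun z hz => hX z hz.2) (fun z hz => (hF i z hz.1).1)
      (fun z hz => hXd z hz.2)
  choose k hk using h1
  refine ⟨k, fun i => ?_, fun i j K h => ?_⟩
  · obtain ⟨p, hp, hpV⟩ := hne i ε hε
    have h2 := (hF i p hpV).2
    rw [hk i p ⟨hpV, hp⟩, det_mul] at h2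
    exact right_ne_zero_of_mul h2
  · obtain ⟨p, hp, hpi, hpj, he⟩ := h ε hε
    rw [hk j p ⟨hpj, hp⟩, hk i p ⟨hpi, hp⟩, Matrix.mul_assoc] at he
    have hu : IsUnit (X p).det := Ne.isUnit (hXd p hp)
    have := congrArg (fun Z => (X p)⁻¹ * Z) he
    simpa [← Matrix.mul_assoc, nonsing_inv_mul _ hu] using this

/-- half planes -/
def HP (a b c : ℝ) : Set ℂ := {z | c < a * z.re + b * z.im}

lemma HP_open (a b c : ℝ) : IsOpen (HP a b c) :=
  isOpen_lt continuous_const (by fun_prop)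

lemma HP_conv (a b c : ℝ) : Convex ℝ (HP a b c) := by
  intro z hz w hw s t hs ht hst
  simp only [HP, Set.mem_ofPred_eq, Complex.add_re, Complex.add_im, Complex.real_smul, Complex.mul_re, Complex.mul_im,
    Complex.ofReal_re, Complex.ofReal_im, zero_mul, sub_zero, add_zero] at hz hw ⊢
  have h1 : a * (s * z.re + t * w.re) + b * (s * z.im + t * w.im) = s * (a * z.re + b * z.im) + t * (a * w.re + b * w.im) := by
    ring
  rw [h1]
  rcases eq_or_lt_of_le hs with h | h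
  · have ht1 : t = 1 := by linarith
    rw [← h, ht1]
    linarith
  · have h2 : s * c < s * (a * z.re + b * z.im) := mul_lt_mul_of_pos_left hz h
    have h3 : t * c ≤ t * (a * w.re + b * w.im) := mul_le_mul_of_nonneg_left hw.le ht
    have h4 : c = s * c + t * c := by rw [← add_mul, hst, one_mul]
    linarith

end Pool.Agent.N207.HG.Inf
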