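import Pool.Agent.N207.HG.Inf

/-!
# Project HG: the monodromy at infinity, the local solutions
-/

set_option autoImplicit false

open Matrix Polynomial Metric

namespace Pool.Agent.N207.HG.Inf

open Pool.Agent.Y119.HY (Sol Hf Gm HD PG ps Lens mem_Lens)
open Pool.Agent.Y985.OR (Mat)
open Pool.Agent.N207.HG

variable {n : ℕ} {A B : Mat n} {H K L H' L' : ℕ → Mat n}

/-- branches of the logarithm -/
noncomputable def lg (s : ℂ) (w : ℂ) : ℂ := Complex.log (-w) + s * (Real.pi * Complex.I)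

lemma lg_deriv (s : ℂ) {w : ℂ} (hw : -w ∈ Complex.slitPlane) : HasDerivAt (lg s) (1 / w) w := by
  have h1 : HasDerivAt (fun w : ℂ => -w) (-1) w := (hasDerivAt_id w).neg
  have h2 := ((Complex.hasDerivAt_log hw).comp w h1).add_const (s * (Real.pi * Complex.I))
  have h3 : (-w)⁻¹ * -1 = 1 / w := by
    rw [inv_neg, neg_mul_neg, mul_one, one_div]
  rw [h3] at h2
  exact h2

lemma log_deriv {w : ℂ} (hw : w ∈ Complex.slitPlane) : HasDerivAt Complex.log (1 / w) w := by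
  rw [one_div]
  exact Complex.hasDerivAt_log hw

lemma ne_of_slit {w : ℂ} (hw : w ∈ Complex.slitPlane) : w ≠ 0 := Complex.slitPlane_ne_zero hw

lemma ne_of_nslit {w : ℂ} (hw : -w ∈ Complex.slitPlane) : w ≠ 0 := neg_ne_zero.1 (Complex.slitPlane_ne_zero hw)

lemma g_inv {z : ℂ} (h0 : z ≠ 0) (h1 : z ≠ 1) (A B : Mat n) : (-1 / z ^ 2) • Gm (B - A) B (1 / z) = Gm A B z := by
  have h1' : z - 1 ≠ 0 := sub_ne_zero.2 h1
  have h2' : 1 - z ≠ 0 := sub_ne_zero.2 h1.symm
  have e1 : (1 : ℂ) / (1 - 1 / z) = z / (z - 1) := by field_simp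
  ext i j
  unfold Gm
  rw [e1]
  simp only [Matrix.smul_apply, Matrix.add_apply, Matrix.sub_apply, smul_eq_mul]
  have e2 : (1 : ℂ) / (1 - z) = -(1 / (z - 1)) := by
    rw [← neg_sub z 1, div_neg]
  rw [e2]
  field_simp
  ring

lemma g_pf {z : ℂ} (h0 : z ≠ 0) (h1 : z ≠ 1) (A B : Mat n) :
    (-1 / (z - 1) ^ 2) • Gm A (A - B) (z / (z - 1)) = Gm A B z := by
  have h1' : z - 1 ≠ 0 := sub_ne_zero.2 h1
  have e1 : (1 : ℂ) / (1 - z / (z - 1)) = -(z - 1) := by
    have : 1 - z / (z - 1) = -(1 / (z - 1)) := by field_simp; ring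
    rw [this, div_neg, one_div_one_div]
  ext i j
  unfold Gm
  rw [e1]
  simp only [Matrix.smul_apply, Matrix.add_apply, Matrix.sub_apply, smul_eq_mul]
  have e2 : (1 : ℂ) / (1 - z) = -(1 / (z - 1)) := by
    rw [← neg_sub z 1, div_neg]
  rw [e2]
  field_simp
  ring

lemma g_pi {z : ℂ} (h0 : z ≠ 0) (h1 : z ≠ 1) (A B : Mat n) :
    (1 / (1 - z) ^ 2) • Gm (B - A) (-A) (1 / (1 - z)) = Gm A B z := by
  have h1' : 1 - z ≠ 0 := sub_ne_zero.2 h1.symm
  have e1 : (1 : ℂ) / (1 - 1 / (1 - z)) = -((1 - z) / z) := by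
    have : 1 - 1 / (1 - z) = -(z / (1 - z)) := by field_simp; ring
    rw [this, div_neg, one_div_div]
  ext i j
  unfold Gm
  rw [e1]
  simp only [Matrix.smul_apply, Matrix.add_apply, Matrix.sub_apply, Matrix.neg_apply, smul_eq_mul]
  field_simp
  ring

lemma g_one {z : ℂ} (A B : Mat n) : (-1 : ℂ) • Gm (-B) (-A) (1 - z) = Gm A B z := by
  unfold Gm
  rw [sub_sub_cancel]
  simp only [smul_neg, smul_add, neg_smul, one_smul]
  abel

lemma inv_d {z : ℂ} (h0 : z ≠ 0) : HasDerivAt (fun z : ℂ => 1 / z) (-1 / z ^ 2) z := by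
  have h := (hasDerivAt_const z (1 : ℂ)).div (hasDerivAt_id z) h0
  refine h.congr_deriv ?_
  simp

lemma pf_d {z : ℂ} (h1 : z ≠ 1) : HasDerivAt (fun z : ℂ => z / (z - 1)) (-1 / (z - 1) ^ 2) z := by
  have h1' : z - 1 ≠ 0 := sub_ne_zero.2 h1
  have h := (hasDerivAt_id z).div ((hasDerivAt_id z).sub_const 1) h1'
  refine h.congr_deriv ?_
  simp

lemma pi_d {z : ℂ} (h1 : z ≠ 1) : HasDerivAt (fun z : ℂ => 1 / (1 - z)) (1 / (1 - z) ^ 2) z := by
  have h1' : 1 - z ≠ 0 := sub_ne_zero.2 h1.symm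
  have h2 : HasDerivAt (fun z : ℂ => 1 - z) (-1) z := by simpa using (hasDerivAt_id z).const_sub 1
  have h := (hasDerivAt_const z (1 : ℂ)).div h2 h1'
  refine h.congr_deriv ?_
  simp

lemma one_d {z : ℂ} : HasDerivAt (fun z : ℂ => 1 - z) (-1) z := by
  simpa using (hasDerivAt_id z).const_sub 1

lemma y0_sol (hA : NR A) (hH : Sol A B H) {z : ℂ} (hz : ‖z‖ < 1) (hs : z ∈ Complex.slitPlane) :
    IsF A B (PB A H id Complex.log) z :=
  PB_sol hA hH (hasDerivAt_id z) hz (ne_of_slit hs) (log_deriv hs) (one_smul _ _)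

lemma w0_sol (hA : NR A) (hH : Sol A B H) (s : ℂ) {z : ℂ} (hz : ‖z‖ < 1) (hs : -z ∈ Complex.slitPlane) :
    IsF A B (PB A H id (lg s)) z :=
  PB_sol hA hH (hasDerivAt_id z) hz (ne_of_nslit hs) (lg_deriv s hs) (one_smul _ _)

lemma y1_sol (hB : NR (-B)) (hK : Sol (-B) (-A) K) {z : ℂ} (hz : ‖1 - z‖ < 1) (hs : 1 - z ∈ Complex.slitPlane) :
    IsF A B (PB (-B) K (fun z => 1 - z) Complex.log) z :=
  PB_sol hB hK one_d hz (ne_of_slit hs) (log_deriv hs) (g_one A B)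

lemma w1_sol (hB : NR (-B)) (hK : Sol (-B) (-A) K) (s : ℂ) {z : ℂ} (hz : ‖1 - z‖ < 1)
    (hs : -(1 - z) ∈ Complex.slitPlane) : IsF A B (PB (-B) K (fun z => 1 - z) (lg s)) z :=
  PB_sol hB hK one_d hz (ne_of_nslit hs) (lg_deriv s hs) (g_one A B)

lemma norm_one_div {z : ℂ} (hz : 1 < ‖z‖) : ‖1 / z‖ < 1 := by
  rw [norm_div, norm_one]
  exact (div_lt_one (by linarith)).2 hz

lemma slit_inv {z : ℂ} (h : z ∈ Complex.slitPlane) : 1 / z ∈ Complex.slitPlane := by
  rw [Complex.mem_slitPlane_iff] at h ⊢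
  have hz : z ≠ 0 := by
    rintro rfl
    simp at h
  have hn : 0 < Complex.normSq z := Complex.normSq_pos.2 hz
  rw [one_div, Complex.inv_re, Complex.inv_im]
  rcases h with h | h
  · exact Or.inl (div_pos h hn)
  · exact Or.inr (div_ne_zero (neg_ne_zero.2 h) hn.ne')

lemma ne_one_of {z : ℂ} (hz : 1 < ‖z‖) : z ≠ 1 := by
  rintro rfl
  rw [norm_one] at hz
  exact lt_irrefl _ hz

lemma yi_sol (hI : NR (B - A)) (hL : Sol (B - A) B L) {z : ℂ} (hz : 1 < ‖z‖) (hs : z ∈ Complex.slitPlane) :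
    IsF A B (PB (B - A) L (fun z => 1 / z) Complex.log) z :=
  PB_sol hI hL (inv_d (ne_of_slit hs)) (norm_one_div hz) (one_div_ne_zero (ne_of_slit hs)) (log_deriv (slit_inv hs))
    (g_inv (ne_of_slit hs) (ne_one_of hz) A B)

lemma wi_sol (hI : NR (B - A)) (hL : Sol (B - A) B L) (s : ℂ) {z : ℂ} (hz : 1 < ‖z‖) (hs : -z ∈ Complex.slitPlane) :
    IsF A B (PB (B - A) L (fun z => 1 / z) (lg s)) z := by
  refine PB_sol hI hL (inv_d (ne_of_nslit hs)) (norm_one_div hz) (one_div_ne_zero (ne_of_nslit hs)) (lg_deriv s ?_)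
    (g_inv (ne_of_nslit hs) (ne_one_of hz) A B)
  have : -(1 / z) = 1 / (-z) := by rw [div_neg]
  rw [this]
  exact slit_inv hs

lemma z0_sol (hA : NR A) (hH : Sol A (A - B) H') {z : ℂ} (hz : z.re < 1 / 2) (hs : z.re < 0 ∨ z.im ≠ 0) :
    IsF A B (PB A H' (fun z => z / (z - 1)) Complex.log) z := by
  have h1 : z ≠ 1 := by
    rintro rfl
    rw [Complex.one_re] at hz
    linarith
  have h0 : z ≠ 0 := by
    rintro rfl
    rcases hs with h | h
    · rw [Complex.zero_re] at h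
      exact lt_irrefl _ h
    · exact h Complex.zero_im
  have h1' : z - 1 ≠ 0 := sub_ne_zero.2 h1
  refine PB_sol hA hH (pf_d h1) ?_ (div_ne_zero h0 h1') (log_deriv ?_) (g_pf h0 h1 A B)
  · show ‖z / (z - 1)‖ < 1
    rw [norm_div, div_lt_one (norm_pos_iff.2 h1')]
    rw [← sq_lt_sq₀ (norm_nonneg _) (norm_nonneg _), ← Complex.normSq_eq_norm_sq, ← Complex.normSq_eq_norm_sq,
      Complex.normSq_apply, Complex.normSq_apply, Complex.sub_re, Complex.sub_im, Complex.one_re, Complex.one_im]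
    nlinarith
  · have hn : 0 < Complex.normSq (z - 1) := Complex.normSq_pos.2 h1'
    show z / (z - 1) ∈ Complex.slitPlane
    rcases hs with h | h
    · left
      rw [Complex.div_re, ← add_div]
      apply div_pos _ hn
      rw [Complex.sub_re, Complex.sub_im, Complex.one_re, Complex.one_im]
      nlinarith [sq_nonneg z.im]
    · right
      rw [Complex.div_im, ← sub_div]
      apply div_ne_zero _ hn.ne'
      rw [Complex.sub_re, Complex.sub_im, Complex.one_re, Complex.one_im]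
      intro h2
      apply h
      linear_combination -h2

lemma zi_sol (hI : NR (B - A)) (hL : Sol (B - A) (-A) L') {z : ℂ} (hz : 1 < ‖1 - z‖) (hs : 1 - z ∈ Complex.slitPlane) :
    IsF A B (PB (B - A) L' (fun z => 1 / (1 - z)) Complex.log) z := by
  have h1 : z ≠ 1 := by
    rintro rfl
    rw [sub_self, norm_zero] at hz
    linarith
  have h0 : z ≠ 0 := by
    rintro rfl
    rw [sub_zero, norm_one] at hz
    exact lt_irrefl _ hz
  exact PB_sol hI hL (pi_d h1) (norm_one_div hz) (one_div_ne_zero (ne_of_slit hs)) (log_deriv (slit_inv hs))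
    (g_pi h0 h1 A B)

end Pool.Agent.N207.HG.Inf
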