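import Pool.Agent.N207.HG.Inf2

/-!
# Project HG: the monodromy at infinity, end of the proof
-/

set_option autoImplicit false

open Matrix Polynomial Metric

namespace Pool.Agent.N207.HG.Inf

open Pool.Agent.Y119.HY (Sol Hf Gm HD PG ps Lens mem_Lens)
open Pool.Agent.Y985.OR (Mat)
open Pool.Agent.N207.HG

variable {n : ℕ} {A B : Mat n} {H K L H' L' : ℕ → Mat n}

lemma nlt {z : ℂ} : ‖z‖ < 1 ↔ z.re * z.re + z.im * z.im < 1 := by
  rw [← Complex.normSq_apply, Complex.normSq_eq_norm_sq]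
  constructor
  · intro h
    nlinarith [norm_nonneg z]
  · intro h
    nlinarith [norm_nonneg z]

lemma ngt {z : ℂ} : 1 < ‖z‖ ↔ 1 < z.re * z.re + z.im * z.im := by
  rw [← Complex.normSq_apply, Complex.normSq_eq_norm_sq]
  constructor
  · intro h
    nlinarith [norm_nonneg z]
  · intro h
    nlinarith [norm_nonneg z]

/-- the five sectors -/
inductive Q5
  | y0 | y1 | z0 | zi | yi

/-- the domains -/
noncomputable def VV (r σ : ℝ) : Q5 → Set ℂ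
  | .y0 => ball 0 1 ∩ HP 0 σ 0
  | .y1 => ball 1 1 ∩ HP 0 σ 0
  | .z0 => HP (-1) 0 (-(1 / 2)) ∩ HP 0 σ 0
  | .zi => HP (-1) (r * σ) 1 ∩ HP 0 σ 0
  | .yi => HP 1 (r * σ) 2 ∩ HP 0 σ 0

/-- the solutions -/
noncomputable def FF (A B : Mat n) (H K L H' L' : ℕ → Mat n) : Q5 → ℂ → Mat n
  | .y0 => PB A H id Complex.log
  | .y1 => PB (-B) K (fun z => 1 - z) Complex.log
  | .z0 => PB A H' (fun z => z / (z - 1)) Complex.log
  | .zi => PB (B - A) L' (fun z => 1 / (1 - z)) Complex.log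
  | .yi => PB (B - A) L (fun z => 1 / z) Complex.log

lemma VV_open (r σ : ℝ) (i : Q5) : IsOpen (VV r σ i) := by
  cases i
  · exact isOpen_ball.inter (HP_open _ _ _)
  · exact isOpen_ball.inter (HP_open _ _ _)
  · exact (HP_open _ _ _).inter (HP_open _ _ _)
  · exact (HP_open _ _ _).inter (HP_open _ _ _)
  · exact (HP_open _ _ _).inter (HP_open _ _ _)

lemma VV_conv (r σ : ℝ) (i : Q5) : Convex ℝ (VV r σ i) := by
  cases i
  · exact (convex_ball _ _).inter (HP_conv _ _ _)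
  · exact (convex_ball _ _).inter (HP_conv _ _ _)
  · exact (HP_conv _ _ _).inter (HP_conv _ _ _)
  · exact (HP_conv _ _ _).inter (HP_conv _ _ _)
  · exact (HP_conv _ _ _).inter (HP_conv _ _ _)

lemma mem_HP {a b c : ℝ} {z : ℂ} : z ∈ HP a b c ↔ c < a * z.re + b * z.im := Iff.rfl

lemma mem_b0 {z : ℂ} : z ∈ ball (0 : ℂ) 1 ↔ ‖z‖ < 1 := by rw [mem_ball, dist_zero_right]

lemma mem_b1 {z : ℂ} : z ∈ ball (1 : ℂ) 1 ↔ ‖1 - z‖ < 1 := by rw [mem_ball, dist_comm, dist_eq_norm]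

lemma im_ne {σ : ℝ} {z : ℂ} (h : z ∈ HP 0 σ 0) : z.im ≠ 0 := by
  rw [mem_HP, zero_mul, zero_add] at h
  exact right_ne_zero_of_mul h.ne'

lemma slit_of {z : ℂ} (h : z.im ≠ 0) : z ∈ Complex.slitPlane := Or.inr h

lemma slit_one {z : ℂ} (h : z.im ≠ 0) : 1 - z ∈ Complex.slitPlane := by
  right
  rw [Complex.sub_im, Complex.one_im, zero_sub]
  exact neg_ne_zero.2 h

lemma cs {c a y : ℝ} (hc : c ^ 2 = 3) (h : 2 < a - c * y) : 1 < a * a + y * y := by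
  have h2 : 4 < (a - c * y) ^ 2 := by nlinarith
  have h3 : 4 * (a * a + y * y) = (a - c * y) ^ 2 + (3 * a + c * y) ^ 2 / 3 := by
    linear_combination (-(4 / 3) * y ^ 2) * hc
  have h4 : 0 ≤ (3 * a + c * y) ^ 2 / 3 := by positivity
  linarith

lemma FF_sol (hA : NR A) (hB : NR (-B)) (hI : NR (B - A)) (hH : Sol A B H) (hK : Sol (-B) (-A) K)
    (hL : Sol (B - A) B L) (hH' : Sol A (A - B) H') (hL' : Sol (B - A) (-A) L') {r σ : ℝ} (hr : r ^ 2 = 3)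
    (hσ : σ ^ 2 = 1) (i : Q5) : ∀ z ∈ VV r σ i, IsF A B (FF A B H K L H' L' i) z := by
  intro z hz
  have him : z.im ≠ 0 := by cases i <;> exact im_ne hz.2
  cases i
  · exact y0_sol hA hH (mem_b0.1 hz.1) (slit_of him)
  · exact y1_sol hB hK (mem_b1.1 hz.1) (slit_one him)
  · have h1 := mem_HP.1 hz.1
    exact z0_sol hA hH' (by linarith) (Or.inr him)
  · have h1 := mem_HP.1 hz.1
    refine zi_sol hI hL' (ngt.2 ?_) (slit_one him)
    rw [Complex.sub_re, Complex.sub_im, Complex.one_re, Complex.one_im]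
    exact cs (c := r * σ) (by rw [mul_pow, hr, hσ, mul_one]) (by linarith)
  · have h1 := mem_HP.1 hz.1
    refine yi_sol hI hL (ngt.2 ?_) (slit_of him)
    have h2 := cs (c := r * σ) (a := z.re) (y := -z.im) (by rw [mul_pow, hr, hσ, mul_one]) (by linarith)
    linarith

/-- the vertex -/
noncomputable def vx (r σ : ℝ) : ℂ := ⟨1 / 2, σ * (r / 2)⟩

lemma dist_vx (r σ x y : ℝ) {δ t : ℝ} (ht : t < δ) (ht0 : 0 < t)
    (h : (x - 1 / 2) * (x - 1 / 2) + (y - σ * (r / 2)) * (y - σ * (r / 2)) = t ^ 2) :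
    (⟨x, y⟩ : ℂ) ∈ ball (vx r σ) δ := by
  rw [mem_ball, dist_eq_norm]
  have h1 : ‖(⟨x, y⟩ : ℂ) - vx r σ‖ ^ 2 = t ^ 2 := by
    rw [← Complex.normSq_eq_norm_sq, Complex.normSq_apply, ← h]
    simp only [Complex.sub_re, Complex.sub_im, vx]
  have h2 : ‖(⟨x, y⟩ : ℂ) - vx r σ‖ = t := by
    have := (sq_eq_sq₀ (norm_nonneg _) ht0.le).1 h1
    exact this
  rw [h2]
  exact ht

lemma exists_t {δ : ℝ} (hδ : 0 < δ) : ∃ t : ℝ, 0 < t ∧ t < δ ∧ t < 1 / 2 := by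
  obtain ⟨t, h1, h2⟩ := exists_between (lt_min hδ (by norm_num : (0 : ℝ) < 1 / 2))
  exact ⟨t, h1, h2.trans_le (min_le_left _ _), h2.trans_le (min_le_right _ _)⟩

section
variable {r σ : ℝ} (hr : r ^ 2 = 3) (hr0 : 1 < r) (hσ : σ ^ 2 = 1)
include hr hr0 hσ

lemma pa {δ : ℝ} (hδ : 0 < δ) : ∃ p ∈ ball (vx r σ) δ, p ∈ VV r σ .y1 ∧ p ∈ VV r σ .y0 := by
  obtain ⟨t, h1, h2, h3⟩ := exists_t hδ
  refine ⟨⟨1 / 2, σ * (r / 2 - t)⟩, dist_vx r σ _ _ h2 h1 (by linear_combination (t ^ 2) * hσ), ⟨mem_b1.2 (nlt.2 ?_), ?_⟩,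
    ⟨mem_b0.2 (nlt.2 ?_), ?_⟩⟩
  · simp only [Complex.sub_re, Complex.sub_im, Complex.one_re, Complex.one_im]
    have : (1 - 1 / 2) * (1 - 1 / 2) + (0 - σ * (r / 2 - t)) * (0 - σ * (r / 2 - t)) =
        1 / 4 + σ ^ 2 * (r / 2 - t) ^ 2 := by ring
    rw [this, hσ]
    nlinarith
  · rw [mem_HP]
    simp only
    have : 0 * (1 / 2) + σ * (σ * (r / 2 - t)) = σ ^ 2 * (r / 2 - t) := by ring
    rw [this, hσ]
    linarith
  · simp only
    have : (1 / 2) * (1 / 2) + (σ * (r / 2 - t)) * (σ * (r / 2 - t)) = 1 / 4 + σ ^ 2 * (r / 2 - t) ^ 2 := by ring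
    rw [this, hσ]
    nlinarith
  · rw [mem_HP]
    simp only
    have : 0 * (1 / 2) + σ * (σ * (r / 2 - t)) = σ ^ 2 * (r / 2 - t) := by ring
    rw [this, hσ]
    linarith

lemma pb {δ : ℝ} (hδ : 0 < δ) : ∃ p ∈ ball (vx r σ) δ, p ∈ VV r σ .y0 ∧ p ∈ VV r σ .z0 ∧ p ∈ VV r σ .zi := by
  obtain ⟨t, h1, h2, h3⟩ := exists_t hδ
  have hpos : (⟨1 / 2 - t, σ * (r / 2)⟩ : ℂ) ∈ HP 0 σ 0 := by
    rw [mem_HP]
    simp only
    have : 0 * (1 / 2 - t) + σ * (σ * (r / 2)) = σ ^ 2 * (r / 2) := by ring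
    rw [this, hσ]
    linarith
  refine ⟨⟨1 / 2 - t, σ * (r / 2)⟩, dist_vx r σ _ _ h2 h1 (by ring), ⟨mem_b0.2 (nlt.2 ?_), hpos⟩, ⟨?_, hpos⟩,
    ⟨?_, hpos⟩⟩
  · simp only
    have : (1 / 2 - t) * (1 / 2 - t) + (σ * (r / 2)) * (σ * (r / 2)) = (1 / 2 - t) ^ 2 + σ ^ 2 * r ^ 2 / 4 := by ring
    rw [this, hσ, hr]
    nlinarith
  · rw [mem_HP]
    simp only
    linarith
  · rw [mem_HP]
    simp only
    have : -1 * (1 / 2 - t) + r * σ * (σ * (r / 2)) = t - 1 / 2 + σ ^ 2 * r ^ 2 / 2 := by ring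
    rw [this, hσ, hr]
    linarith

lemma pc {δ : ℝ} (hδ : 0 < δ) : ∃ p ∈ ball (vx r σ) δ, p ∈ VV r σ .yi ∧ p ∈ VV r σ .zi := by
  obtain ⟨t, h1, h2, h3⟩ := exists_t hδ
  have hpos : (⟨1 / 2, σ * (r / 2 + t)⟩ : ℂ) ∈ HP 0 σ 0 := by
    rw [mem_HP]
    simp only
    have : 0 * (1 / 2) + σ * (σ * (r / 2 + t)) = σ ^ 2 * (r / 2 + t) := by ring
    rw [this, hσ]
    linarith
  refine ⟨⟨1 / 2, σ * (r / 2 + t)⟩, dist_vx r σ _ _ h2 h1 (by linear_combination (t ^ 2) * hσ), ⟨?_, hpos⟩, ⟨?_, hpos⟩⟩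
  · rw [mem_HP]
    simp only
    have : 1 * (1 / 2) + r * σ * (σ * (r / 2 + t)) = 1 / 2 + σ ^ 2 * (r ^ 2 / 2 + r * t) := by ring
    rw [this, hσ, hr]
    nlinarith
  · rw [mem_HP]
    simp only
    have : -1 * (1 / 2) + r * σ * (σ * (r / 2 + t)) = -(1 / 2) + σ ^ 2 * (r ^ 2 / 2 + r * t) := by ring
    rw [this, hσ, hr]
    nlinarith

lemma pd {δ : ℝ} (hδ : 0 < δ) : ∃ p ∈ ball (vx r σ) δ, p ∈ VV r σ .y1 ∧ p ∈ VV r σ .yi := by
  obtain ⟨t, h1, h2, h3⟩ := exists_t hδ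
  have hpos : (⟨1 / 2 + t, σ * (r / 2)⟩ : ℂ) ∈ HP 0 σ 0 := by
    rw [mem_HP]
    simp only
    have : 0 * (1 / 2 + t) + σ * (σ * (r / 2)) = σ ^ 2 * (r / 2) := by ring
    rw [this, hσ]
    linarith
  refine ⟨⟨1 / 2 + t, σ * (r / 2)⟩, dist_vx r σ _ _ h2 h1 (by ring), ⟨mem_b1.2 (nlt.2 ?_), hpos⟩, ⟨?_, hpos⟩⟩
  · simp only [Complex.sub_re, Complex.sub_im, Complex.one_re, Complex.one_im]
    have : (1 - (1 / 2 + t)) * (1 - (1 / 2 + t)) + (0 - σ * (r / 2)) * (0 - σ * (r / 2)) =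
        (1 / 2 - t) ^ 2 + σ ^ 2 * r ^ 2 / 4 := by ring
    rw [this, hσ, hr]
    nlinarith
  · rw [mem_HP]
    simp only
    have : 1 * (1 / 2 + t) + r * σ * (σ * (r / 2)) = t + 1 / 2 + σ ^ 2 * r ^ 2 / 2 := by ring
    rw [this, hσ, hr]
    linarith

omit hr hr0 hσ in
lemma vx_ne : vx r σ ≠ 0 ∧ vx r σ ≠ 1 := by
  constructor
  · intro h
    have := congrArg Complex.re h
    simp [vx] at this
  · intro h
    have := congrArg Complex.re h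
    simp only [vx, Complex.one_re] at this
    norm_num at this

end

end Pool.Agent.N207.HG.Inf
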