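import Pool.Agent.N207.HG.Eight

/-!
# Project HG: existence of solutions, and examples
-/

set_option autoImplicit false
set_option linter.unusedSectionVars false

open Matrix Polynomial Filter

namespace Pool.Agent.N207.HG

open Pool.Agent.Y119.HY (Sol Hf Gm HD PG ps Lens)
open Pool.Agent.Y985.OR (Mat bl Fam BigO SymSk ExcE DenseS S_DENSE S_FIN3)
open Pool.Agent.Y119.PLM (MT IsMon Cnt DenseMon Big)
open Pool.Agent

variable {n : ℕ} {P w Q : ℝ[X]} {s : ℝ}

/-- **Existence of a basis of solutions.** -/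
theorem Dat.exists_sol (hA : All) (h : Dat n P w Q s) : ∃ f : Fin n → ℂ → ℂ, (∀ j, IsSol P Q (f j)) ∧ LI f := by
  obtain ⟨H, K, M, Mi, hH, hK, hMMi, hM⟩ := h.setup hA
  set Y := YE (cmp n P) H with hY
  have hode : ∀ z ∈ D0, HD Y (Gm (cmp n P) (bmp n P Q) z * Y z) z := fun z hz => YE_ode hA (h.nrA hA) hH hz
  have han : ∀ i j, AnalyticOnNhd ℂ (fun z => Y z i j) D0 := HD_an isOpen_D0 hode
  have key : ∀ (b : Fin n) (i : ℕ) (hi : i < n), ∀ z ∈ D0, th^[i] (fun z => Y z ⟨0, h.n0⟩ b) z = Y z ⟨i, hi⟩ b := by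
    intro b i
    induction i with
    | zero => intro hi z hz; rfl
    | succ i ih =>
      intro hi z hz
      rw [Function.iterate_succ_apply']
      have h1 : th^[i] (fun z => Y z ⟨0, h.n0⟩ b) =ᶠ[nhds z] fun z => Y z ⟨i, by omega⟩ b := by
        filter_upwards [isOpen_D0.mem_nhds hz] with y hy
        exact ih (by omega) y hy
      unfold th at h1 ⊢
      rw [h1.deriv_eq, (hode z hz ⟨i, by omega⟩ b).deriv, Gm_row, dif_pos (by exact hi)]
      have hz0 := D0_ne hz
      field_simp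
  refine ⟨fun b z => Y z ⟨0, h.n0⟩ b, fun b => ⟨han _ b, fun z hz => ?_⟩, fun c hc => ?_⟩
  · rw [sum_eq h.Pd, sum_eq h.Qd, Finset.sum_range_succ, Finset.sum_range_succ]
    have hPl : P.coeff n = 1 := by rw [← h.Pd]; exact h.Pm.coeff_natDegree
    have hQl : Q.coeff n = 1 := by rw [← h.Qd]; exact h.Qm.coeff_natDegree
    rw [hPl, hQl, Finset.sum_range, Finset.sum_range]
    have hz0 := D0_ne hz
    have hz1 : 1 - z ≠ 0 := sub_ne_zero.2 (D0_ne1 hz).symm
    obtain ⟨m, rfl⟩ := Nat.exists_eq_succ_of_ne_zero h.n0.ne'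
    have h2 : th^[m + 1] (fun z => Y z ⟨0, h.n0⟩ b) z =
        z * ((-(1 / z) - 1 / (1 - z)) * ∑ j : Fin (m + 1), (P.coeff j : ℂ) * Y z j b +
          (1 / (1 - z)) * ∑ j : Fin (m + 1), (Q.coeff j : ℂ) * Y z j b) := by
      rw [Function.iterate_succ_apply']
      have h1 : th^[m] (fun z => Y z ⟨0, h.n0⟩ b) =ᶠ[nhds z] fun z => Y z ⟨m, by omega⟩ b := by
        filter_upwards [isOpen_D0.mem_nhds hz] with y hy
        exact key b m (by omega) y hy
      unfold th at h1 ⊢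
      rw [h1.deriv_eq, (hode z hz ⟨m, by omega⟩ b).deriv, Gm_row, dif_neg (by simp)]
      congr 1
      rw [Finset.mul_sum, Finset.mul_sum, ← Finset.sum_add_distrib]
      refine Finset.sum_congr rfl fun j _ => ?_
      ring
    have h3 : ∀ R : ℝ[X], ∑ j : Fin (m + 1), (R.coeff j : ℂ) * th^[j] (fun z => Y z ⟨0, h.n0⟩ b) z =
        ∑ j : Fin (m + 1), (R.coeff j : ℂ) * Y z j b := fun R =>
      Finset.sum_congr rfl fun j _ => by rw [key b j j.2 z hz]
    simp only [Nat.succ_eq_add_one] at h2 h3 ⊢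
    rw [h2, h3, h3]
    push_cast
    field_simp
    ring
  · have h1 : Y (((1 / 2 : ℝ) : ℂ)) *ᵥ c = 0 := by
      funext i
      have h2 : ∀ z ∈ D0, ∀ i : ℕ, ∀ hi : i < n, ∑ j, c j * Y z ⟨i, hi⟩ j = 0 := by
        intro z hz i
        induction i generalizing z with
        | zero => intro hi; exact hc z hz
        | succ i ih =>
          intro hi
          have h3 : HasDerivAt (fun z => ∑ j, c j * Y z ⟨i, by omega⟩ j)
              (∑ j, c j * (Gm (cmp n P) (bmp n P Q) z * Y z) ⟨i, by omega⟩ j) z := by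
            refine HasDerivAt.fun_sum fun j _ => ?_
            exact (hode z hz ⟨i, by omega⟩ j).const_mul (c j)
          have h4 : (fun z => ∑ j, c j * Y z ⟨i, by omega⟩ j) =ᶠ[nhds z] fun _ => 0 := by
            filter_upwards [isOpen_D0.mem_nhds hz] with y hy
            exact ih y hy (by omega)
          have h5 := h3.deriv
          rw [h4.deriv_eq, deriv_const] at h5
          have h6 : ∑ j, c j * (Gm (cmp n P) (bmp n P Q) z * Y z) ⟨i, by omega⟩ j =
              (1 / z) * ∑ j, c j * Y z ⟨i + 1, hi⟩ j := by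
            rw [Finset.mul_sum]
            refine Finset.sum_congr rfl fun j _ => ?_
            rw [Gm_row, dif_pos (by exact hi)]
            ring
          rw [h6] at h5
          exact (mul_eq_zero.1 h5.symm).resolve_left (one_div_ne_zero (D0_ne hz))
      have h7 := h2 _ half_D0 i i.2
      simp only [Matrix.mulVec, dotProduct, Pi.zero_apply]
      rw [← h7]
      exact Finset.sum_congr rfl fun j _ => mul_comm _ _
    by_contra hne
    exact YE_det hA (h.nrA hA) hH half_D0.1 (Matrix.exists_mulVec_eq_zero_iff.1 ⟨c, hne, h1⟩)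

/-! ### Examples: maximally unipotent monodromy -/

lemma mu_Xpow (n : ℕ) : mu (X ^ n) 0 = n ∧ ∀ d : ℕ, 2 ≤ d → mu (X ^ n) (0 + 1 / d) = 0 := by
  classical
  have hr : ((X ^ n : ℝ[X]).map (algebraMap ℝ ℂ)).roots = Multiset.replicate n 0 := by
    rw [Polynomial.map_pow, map_X, roots_pow, roots_X, Multiset.nsmul_singleton]
  constructor
  · unfold mu
    rw [hr, Multiset.countP_eq_card_filter, Multiset.filter_eq_self.2, Multiset.card_replicate]
    intro a ha
    rw [Multiset.eq_of_mem_replicate ha]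
    exact ⟨0, by simp⟩
  · intro d hd
    unfold mu
    rw [hr, Multiset.countP_eq_zero]
    intro a ha
    rw [Multiset.eq_of_mem_replicate ha]
    rintro ⟨m, hm⟩
    have hd0 : (d : ℂ) ≠ 0 := by exact_mod_cast (by omega : d ≠ 0)
    have h1 : (1 : ℂ) + m * d = 0 := by
      field_simp at hm
      linear_combination -hm
    have h2 : (1 : ℤ) + m * d = 0 := by exact_mod_cast h1
    have h3 : (d : ℤ) ∣ 1 := ⟨-m, by linear_combination h2⟩
    have h4 := Int.le_of_dvd one_pos h3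
    omega

lemma Rot_X (n : ℕ) (hn : 0 < n) (Q : ℝ[X]) : Rot (X ^ n) Q := fun d hd =>
  Or.inl ⟨0, by rw [(mu_Xpow n).1, (mu_Xpow n).2 d hd]; exact hn.ne'⟩

/-- the polynomial `∏_j (x^2 - β_j^2)` -/
noncomputable def Qb {m : ℕ} (β : Fin m → ℝ) : ℝ[X] := ∏ j, (X ^ 2 - C (β j ^ 2))

lemma Qb_monic {m : ℕ} (β : Fin m → ℝ) : (Qb β).Monic :=
  monic_prod_of_monic _ _ fun _ _ => monic_X_pow_sub_C _ two_ne_zero

lemma Qb_deg {m : ℕ} (β : Fin m → ℝ) : (Qb β).natDegree = 2 * m := by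
  unfold Qb
  rw [natDegree_prod_of_monic _ _ fun _ _ => monic_X_pow_sub_C _ two_ne_zero]
  simp only [natDegree_X_pow_sub_C]
  simp [mul_comm]

lemma Qb_comp {m : ℕ} (β : Fin m → ℝ) : (Qb β).comp (-X) = Qb β := by
  unfold Qb
  rw [Polynomial.prod_comp]
  refine Finset.prod_congr rfl fun j _ => ?_
  simp

lemma Qb_eval {m : ℕ} {β : Fin m → ℝ} (hβ : ∀ j (a : ℤ), β j ≠ a) (k : ℕ) : (Qb β).eval (k : ℝ) ≠ 0 := by
  unfold Qb
  rw [eval_prod, Finset.prod_ne_zero_iff]
  intro j _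
  rw [eval_sub, eval_pow, eval_X, eval_C]
  intro h0
  have h1 : ((k : ℝ) - β j) * (k + β j) = 0 := by linear_combination h0
  rcases mul_eq_zero.1 h1 with h2 | h2
  · exact hβ j k (by push_cast; linarith)
  · exact hβ j (-k) (by push_cast; linarith)

lemma Dat_symp {m : ℕ} (hm : 0 < m) {β : Fin m → ℝ} (hβ : ∀ j (a : ℤ), β j ≠ a) :
    Dat (2 * m) (X ^ (2 * m)) (Qb β - X ^ (2 * m)) (Qb β) (-1) := by
  refine ⟨by omega, monic_X_pow _, natDegree_X_pow _, Qb_monic β, Qb_deg β, ?_, ?_, ?_, ?_, ?_, ?_⟩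
  · rcases eq_or_ne (Qb β - X ^ (2 * m)) 0 with h0 | h0
    · rw [h0, natDegree_zero]
      omega
    · refine (natDegree_lt_iff_degree_lt h0).2 ?_
      have h1 : degree (Qb β) = ((2 * m : ℕ) : WithBot ℕ) := by
        rw [degree_eq_natDegree (Qb_monic β).ne_zero, Qb_deg]
      rw [← h1]
      refine degree_sub_lt_left ?_ (Qb_monic β).ne_zero ?_
      · rw [h1, degree_X_pow]
      · rw [(Qb_monic β).leadingCoeff, (monic_X_pow _).leadingCoeff]
  · simp
  · rw [sub_comp, Qb_comp]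
    simp
  · right
    exact ⟨rfl, by ring⟩
  · intro x hx
    refine ⟨0, ?_, by norm_num⟩
    simpa [pow_eq_zero_iff, hm.ne'] using hx
  · intro x hx k
    have h1 : x = 0 := by simpa [pow_eq_zero_iff, hm.ne'] using hx
    rw [h1, zero_add]
    exact Qb_eval hβ k

lemma Dat_orth {m : ℕ} (hm : 0 < m) {β : Fin m → ℝ} (hβ : ∀ j (a : ℤ), β j ≠ a) :
    Dat (2 * m + 1) (X ^ (2 * m + 1)) (Qb β) ((X + C (1 / 2)) * Qb β) 1 := by
  refine ⟨by omega, monic_X_pow _, natDegree_X_pow _, (monic_X_add_C _).mul (Qb_monic β), ?_, ?_, ?_, ?_, ?_, ?_, ?_⟩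
  · rw [(monic_X_add_C _).natDegree_mul (Qb_monic β), Qb_deg, natDegree_X_add_C]
    ring
  · rw [Qb_deg]
    omega
  · rw [X_pow_comp, neg_pow]
  · rw [Qb_comp]
    simp [pow_succ, pow_mul]
  · left
    exact ⟨rfl, rfl⟩
  · intro x hx
    refine ⟨0, ?_, by norm_num⟩
    simpa [pow_eq_zero_iff] using hx
  · intro x hx k
    have h1 : x = 0 := by simpa [pow_eq_zero_iff] using hx
    rw [h1, zero_add, eval_mul]
    refine mul_ne_zero ?_ (Qb_eval hβ k)
    rw [eval_add, eval_X, eval_C]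
    positivity

lemma inf_orth {m : ℕ} (hm : 0 < m) {n : ℕ} (Q : ℝ[X]) (Y : ℂ → Mat n) : InfC n (X ^ (2 * m + 1)) Q Y := by
  left
  refine ⟨0, by simp, ?_⟩
  rw [derivative_X_pow, eval_mul, eval_pow, eval_X, Nat.add_sub_cancel, zero_pow (by omega), mul_zero]

end Pool.Agent.N207.HG
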