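import Mathlib

/-!
# Local existence of solutions of linear differential equations
-/

set_option autoImplicit false

open Metric

namespace Pool.Agent.N207.HG.Ode1

section
variable {R : Type*} [NormedRing R] [NormedAlgebra ℂ R] [CompleteSpace R] {G : ℂ → R} {c : ℂ} {r M : ℝ}

/-- one step of the iteration -/
lemma step (hG : DifferentiableOn ℂ G (ball c r)) {Y : ℂ → R} (hY : DifferentiableOn ℂ Y (ball c r)) :
    ∃ Z : ℂ → R, Z c = 0 ∧ ∀ z ∈ ball c r, HasDerivAt Z (G z * Y z) z := by
  have h1 : DifferentiableOn ℂ (fun z => G z * Y z) (ball c r) := hG.mul hY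
  obtain ⟨Z, h2, h3⟩ := h1.isExactOn_ball.with_val_at c 0
  exact ⟨Z, h2, h3⟩

open Classical in
/-- the iteration -/
noncomputable def it (G : ℂ → R) (c : ℂ) (r : ℝ) : ℕ → ℂ → R
  | 0 => fun _ => 1
  | k + 1 => if h : ∃ Z : ℂ → R, Z c = 0 ∧ ∀ z ∈ ball c r, HasDerivAt Z (G z * it G c r k z) z then h.choose
      else fun _ => 0

lemma it_diff (hG : DifferentiableOn ℂ G (ball c r)) (k : ℕ) : DifferentiableOn ℂ (it G c r k) (ball c r) ∧
    it G c r (k + 1) c = 0 ∧ ∀ z ∈ ball c r, HasDerivAt (it G c r (k + 1)) (G z * it G c r k z) z := by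
  induction k with
  | zero =>
    have h0 : DifferentiableOn ℂ (it G c r 0) (ball c r) := differentiableOn_const 1
    refine ⟨h0, ?_⟩
    have h : ∃ Z : ℂ → R, Z c = 0 ∧ ∀ z ∈ ball c r, HasDerivAt Z (G z * it G c r 0 z) z := step hG h0
    have h1 : it G c r (0 + 1) = h.choose := by
      rw [it, dif_pos h]
    rw [h1]
    exact h.choose_spec
  | succ k ih =>
    have h0 : DifferentiableOn ℂ (it G c r (k + 1)) (ball c r) := fun z hz =>
      (ih.2.2 z hz).differentiableAt.differentiableWithinAt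
    refine ⟨h0, ?_⟩
    have h : ∃ Z : ℂ → R, Z c = 0 ∧ ∀ z ∈ ball c r, HasDerivAt Z (G z * it G c r (k + 1) z) z := step hG h0
    have h1 : it G c r (k + 1 + 1) = h.choose := by
      rw [it, dif_pos h]
    rw [h1]
    exact h.choose_spec

lemma it_bound (hG : DifferentiableOn ℂ G (ball c r)) (hr : 0 < r) (hM : ∀ z ∈ ball c r, ‖G z‖ ≤ M) (hM0 : 0 ≤ M)
    (hMr : M * r ≤ 1 / 2) (k : ℕ) : ∀ z ∈ ball c r, ‖it G c r k z‖ ≤ ‖(1 : R)‖ * (1 / 2) ^ k := by
  induction k with
  | zero =>
    intro z _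
    simp [it]
  | succ k ih =>
    intro z hz
    have h1 := it_diff hG k
    have h2 : ‖it G c r (k + 1) z - it G c r (k + 1) c‖ ≤ (M * (‖(1 : R)‖ * (1 / 2) ^ k)) * ‖z - c‖ := by
      refine (convex_ball c r).norm_image_sub_le_of_norm_hasDerivWithin_le
        (fun x hx => (h1.2.2 x hx).hasDerivWithinAt) (fun x hx => ?_) (mem_ball_self hr) hz
      refine (norm_mul_le _ _).trans ?_
      exact mul_le_mul (hM x hx) (ih x hx) (norm_nonneg _) hM0
    rw [h1.2.1, sub_zero] at h2
    refine h2.trans ?_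
    rw [mem_ball, dist_eq_norm] at hz
    have h3 : 0 ≤ ‖(1 : R)‖ * (1 / 2) ^ k := by positivity
    calc M * (‖(1 : R)‖ * (1 / 2) ^ k) * ‖z - c‖ ≤ M * (‖(1 : R)‖ * (1 / 2) ^ k) * r := by gcongr
      _ = (M * r) * (‖(1 : R)‖ * (1 / 2) ^ k) := by ring
      _ ≤ (1 / 2) * (‖(1 : R)‖ * (1 / 2) ^ k) := by gcongr
      _ = _ := by ring

theorem ex (hG : DifferentiableOn ℂ G (ball c r)) (hr : 0 < r) (hM : ∀ z ∈ ball c r, ‖G z‖ ≤ M) (hM0 : 0 ≤ M)
    (hMr : M * r ≤ 1 / 2) : ∃ X : ℂ → R, X c = 1 ∧ ∀ z ∈ ball c r, HasDerivAt X (G z * X z) z := by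
  have hs : Summable fun k : ℕ => ‖(1 : R)‖ * (1 / 2 : ℝ) ^ k := summable_geometric_two.mul_left _
  have hsum : ∀ z ∈ ball c r, Summable fun k => it G c r k z := fun z hz =>
    Summable.of_norm_bounded hs fun k => it_bound hG hr hM hM0 hMr k z hz
  set D : ℕ → ℂ → R := fun k => match k with
    | 0 => fun _ => 0
    | k + 1 => fun z => G z * it G c r k z with hD
  have hc0 : Summable fun n => it G c r n c := hsum c (mem_ball_self hr)
  refine ⟨fun z => ∑' k, it G c r k z, ?_, fun z hz => ?_⟩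
  · show ∑' k, it G c r k c = 1
    rw [tsum_eq_single 0]
    · rfl
    · intro k hk
      obtain ⟨m, rfl⟩ := Nat.exists_eq_succ_of_ne_zero hk
      exact (it_diff hG m).2.1
  · have h1 : HasDerivAt (fun z => ∑' k, it G c r k z) (∑' k, D k z) z := by
      refine hasDerivAt_tsum_of_isPreconnected (u := fun k => (M * 2) * (‖(1 : R)‖ * (1 / 2 : ℝ) ^ k))
        (hs.mul_left _) isOpen_ball (convex_ball c r).isPreconnected ?_ ?_ (mem_ball_self hr) hc0 hz
      · intro k y hy
        cases k with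
        | zero => exact hasDerivAt_const y 1
        | succ k => exact (it_diff hG k).2.2 y hy
      · intro k y hy
        cases k with
        | zero =>
          simp only [hD, norm_zero]
          positivity
        | succ k =>
          simp only [hD]
          refine (norm_mul_le _ _).trans ?_
          calc ‖G y‖ * ‖it G c r k y‖ ≤ M * (‖(1 : R)‖ * (1 / 2) ^ k) :=
                mul_le_mul (hM y hy) (it_bound hG hr hM hM0 hMr k y hy) (norm_nonneg _) hM0
            _ = _ := by ring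
    have h2 : ∑' k, D k z = G z * ∑' k, it G c r k z := by
      have h3 : Summable fun k => D k z := by
        refine (summable_nat_add_iff 1).1 ?_
        exact (hsum z hz).mul_left (G z)
      rw [h3.tsum_eq_zero_add]
      simp only [hD, zero_add]
      exact (hsum z hz).tsum_mul_left (G z)
    rw [h2] at h1
    exact h1

end

end Pool.Agent.N207.HG.Ode1
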