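import Pool.Agent.N207.HG.Ode1
import Pool.Agent.N207.HG.Stm

/-!
# Local fundamental matrices at ordinary points
-/

set_option autoImplicit false

open Metric Matrix

namespace Pool.Agent.N207.HG

open Pool.Agent.Y119.HY (Gm HD)
open Pool.Agent.Y985.OR (Mat)

section
attribute [local instance] Matrix.linftyOpNormedRing Matrix.linftyOpNormedAlgebra

lemma ex_mat0 {n : ℕ} (A B : Mat n) {c : ℂ} (hc0 : c ≠ 0) (hc1 : c ≠ 1) : ∃ ε > 0, ∃ X : ℂ → Mat n,
    X c = 1 ∧ ∀ z ∈ ball c ε, HD X (Gm A B z * X z) z := by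
  have hcont : ContinuousAt (fun z : ℂ => Gm A B z) c := by
    have e1 : ContinuousAt (fun z : ℂ => 1 / z) c := continuousAt_const.div continuousAt_id hc0
    have e2 : ContinuousAt (fun z : ℂ => 1 / (1 - z)) c :=
      continuousAt_const.div (continuousAt_const.sub continuousAt_id) (sub_ne_zero.2 hc1.symm)
    exact (e1.smul continuousAt_const).add (e2.smul continuousAt_const)
  set M : ℝ := ‖Gm A B c‖ + 1 with hM
  have hM0 : 0 < M := by positivity
  have h1 : ∀ᶠ z in nhds c, ‖Gm A B z‖ < M := hcont.norm.eventually (gt_mem_nhds (by rw [hM]; linarith))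
  have h2 : ∀ᶠ z : ℂ in nhds c, z ≠ 0 ∧ z ≠ 1 := (eventually_ne_nhds hc0).and (eventually_ne_nhds hc1)
  obtain ⟨δ, hδ, h3⟩ := Metric.eventually_nhds_iff_ball.1 (h1.and h2)
  set r : ℝ := min δ (1 / (2 * M)) with hr
  have hr0 : 0 < r := lt_min hδ (by positivity)
  have hsub : ball c r ⊆ ball c δ := ball_subset_ball (min_le_left _ _)
  have hG : DifferentiableOn ℂ (fun z : ℂ => Gm A B z) (ball c r) := by
    intro z hz
    obtain ⟨-, hz0, hz1⟩ := h3 z (hsub hz)
    unfold Gm
    refine DifferentiableWithinAt.add (DifferentiableWithinAt.smul_const ?_ _)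
      (DifferentiableWithinAt.smul_const ?_ _)
    · exact (differentiableAt_const _).differentiableWithinAt.div differentiableAt_id.differentiableWithinAt hz0
    · exact (differentiableAt_const _).differentiableWithinAt.div
        ((differentiableAt_const _).sub differentiableAt_id).differentiableWithinAt (sub_ne_zero.2 hz1.symm)
  obtain ⟨X, hX1, hX2⟩ := Ode1.ex hG hr0 (fun z hz => (h3 z (hsub hz)).1.le) hM0.le (by
    calc M * r ≤ M * (1 / (2 * M)) := by gcongr; exact min_le_right _ _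
      _ = 1 / 2 := by field_simp)
  refine ⟨r, hr0, X, hX1, fun z hz i j => ?_⟩
  have h4 := hX2 z hz
  have h5 := (LinearMap.toContinuousLinearMap (Matrix.entryLinearMap ℂ ℂ i j)).hasFDerivAt.comp_hasDerivAt z h4
  exact h5

end

theorem ex_mat {n : ℕ} (A B : Mat n) {c : ℂ} (hc0 : c ≠ 0) (hc1 : c ≠ 1) : ∃ ε > 0, ∃ X : ℂ → Mat n,
    (∀ z ∈ ball c ε, HD X (Gm A B z * X z) z) ∧ ∀ z ∈ ball c ε, (X z).det ≠ 0 := by
  obtain ⟨r, hr, X, hX1, hX2⟩ := ex_mat0 A B hc0 hc1
  have hcont : ContinuousAt (fun z => (X z).det) c := by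
    have h1 : ContinuousAt X c := by
      refine continuousAt_pi.2 fun i => continuousAt_pi.2 fun j => ?_
      exact (hX2 c (mem_ball_self hr) i j).continuousAt
    exact (continuous_id.matrix_det.continuousAt (x := X c)).comp h1
  have h2 : ∀ᶠ z in nhds c, (X z).det ≠ 0 := hcont.eventually_ne (by
    show (X c).det ≠ 0
    rw [hX1, det_one]
    exact one_ne_zero)
  obtain ⟨δ, hδ, h3⟩ := Metric.eventually_nhds_iff_ball.1 h2
  exact ⟨min r δ, lt_min hr hδ, X, fun z hz => hX2 z (ball_subset_ball (min_le_left _ _) hz),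
    fun z hz => h3 z (ball_subset_ball (min_le_right _ _) hz)⟩

end Pool.Agent.N207.HG
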