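import Pool.Agent.N207.HG.Stm2
import Pool.Agent.Y977.ORD.DenseCore

/-!
# Project HG: one factor

Fundamental matrices of a self-dual hypergeometric equation, local monodromies, the vanishing vector.
-/

set_option autoImplicit false

open Matrix Polynomial

namespace Pool.Agent.N207.HG

open Pool.Agent.Y119.HY (Sol Hf Gm HD PG ps Lens)
open Pool.Agent.Y985.OR (Mat bl refl)

/-- all the jobs -/
structure All : Prop where
  loc : S_LOC
  exx : S_EXP
  ode : S_ODE
  uni : S_UNI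
  mon : S_MON
  tra : S_TRA
  t01 : S_T01
  inf : S_INF
  nrs : S_NRS
  sng : S_SNG
  eig : S_EIG
  frm : S_FRM
  rel : S_REL
  ir2 : S_IR2
  unb : S_UNB
  fin : S_FIN
  cnt : S_CNT
  chp : S_CHP
  int : S_INT
  tn1 : S_TN1

/-- self-dual hypergeometric data: `P(θ) f = z Q(θ) f`, `s = 1` orthogonal, `s = -1` symplectic -/
structure Dat (n : ℕ) (P w Q : ℝ[X]) (s : ℝ) : Prop where
  n0 : 0 < n
  Pm : P.Monic
  Pd : P.natDegree = n
  Qm : Q.Monic
  Qd : Q.natDegree = n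
  wd : w.natDegree < n
  Pp : P.comp (-X) = (-1) ^ n * P
  wp : w.comp (-X) = C (-s) * (-1) ^ n * w
  typ : (s = 1 ∧ Q = (X + C (1 / 2)) * w) ∨ (s = -1 ∧ Q = P + w)
  rts : ∀ x : ℂ, aeval x P = 0 → ∃ y : ℝ, x = y ∧ |y| < 1 / 2
  irr : ∀ x : ℝ, P.eval x = 0 → ∀ k : ℕ, Q.eval (x + k) ≠ 0

variable {n : ℕ} {P w Q : ℝ[X]} {s : ℝ}

lemma aeval_real (P : ℝ[X]) (y : ℝ) : aeval (y : ℂ) P = ((P.eval y : ℝ) : ℂ) := by
  have := Polynomial.aeval_algebraMap_apply ℂ y P
  simpa using this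

lemma Dat.rt_real (h : Dat n P w Q s) {x : ℂ} (hx : aeval x P = 0) :
    ∃ y : ℝ, x = y ∧ |y| < 1 / 2 ∧ P.eval y = 0 := by
  obtain ⟨y, hy, hy2⟩ := h.rts x hx
  refine ⟨y, hy, hy2, ?_⟩
  rw [hy, aeval_real] at hx
  exact_mod_cast hx

lemma Dat.cop (h : Dat n P w Q s) {x : ℂ} (hx : aeval x P = 0) : aeval x w ≠ 0 := by
  obtain ⟨y, rfl, -, hy⟩ := h.rt_real hx
  intro h0
  rw [aeval_real] at h0
  have h1 := h.irr y hy 0
  apply h1
  rw [Nat.cast_zero, add_zero]
  have h2 : w.eval y = 0 := by exact_mod_cast h0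
  rcases h.typ with ⟨-, h3⟩ | ⟨-, h3⟩
  · rw [h3, eval_mul, h2, mul_zero]
  · rw [h3, eval_add, hy, h2, add_zero]

lemma Dat.dif (h : Dat n P w Q s) {x y : ℂ} (hx : aeval x P = 0) (hy : aeval y P = 0) (k : ℤ) (hk : y = x + k) :
    k = 0 := by
  obtain ⟨a, rfl, ha, -⟩ := h.rt_real hx
  obtain ⟨b, rfl, hb, -⟩ := h.rt_real hy
  have h1 : b = a + k := by exact_mod_cast hk
  rw [abs_lt] at ha hb
  have h2 : ((k : ℤ) : ℝ) < 1 := by linarith [ha.1, hb.2]
  have h3 : (-1 : ℝ) < ((k : ℤ) : ℝ) := by linarith [ha.2, hb.1]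
  have h4 : k < 1 := by exact_mod_cast h2
  have h5 : -1 < k := by exact_mod_cast h3
  omega

lemma Dat.nrA (hA : All) (h : Dat n P w Q s) : NR (cmp n P) := by
  refine (hA.nrs.1 n P h.Pm h.Pd fun x y hx hy k hk => ?_).1
  have := h.dif hx hy ((k : ℤ) + 1) (by rw [hk]; push_cast; ring)
  omega

/-- the trace of `B` -/
lemma bmp_sq (n : ℕ) (P Q : ℝ[X]) : bmp n P Q * bmp n P Q = (cf n (Q - P) ⬝ᵥ eL n) • bmp n P Q := by
  unfold bmp
  rw [vecMulVec_mul_vecMulVec, vecMulVec_smul]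

lemma cf_dot_eL (hn : 0 < n) (f : ℝ[X]) : cf n f ⬝ᵥ eL n = (f.coeff (n - 1) : ℂ) := by
  unfold cf eL dotProduct
  rw [Finset.sum_eq_single (⟨n - 1, by omega⟩ : Fin n)]
  · simp only
    rw [if_pos (by omega), mul_one]
  · intro b _ hb
    simp only
    rw [if_neg, mul_zero]
    intro h'
    apply hb
    apply Fin.ext
    simp only
    omega
  · intro h'
    exact absurd (Finset.mem_univ _) h'

/-- parity of the coefficients -/
lemma coeff_par {f : ℝ[X]} {c : ℝ} (h : f.comp (-X) = C c * f) (m : ℕ) : (-1) ^ m * f.coeff m = c * f.coeff m := by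
  have h1 : (f.comp (-X)).coeff m = (-1) ^ m * f.coeff m := by
    have h2 : (-X : ℝ[X]) = C (-1) * X := by simp
    rw [h2]
    have := Polynomial.comp_C_mul_X_coeff (p := f) (r := (-1 : ℝ)) (n := m)
    rw [this, mul_comm]
  rw [← h1, h, coeff_C_mul]

lemma Dat.top (h : Dat n P w Q s) : (Q - P).coeff (n - 1) = (1 + s) / 4 := by
  have hn := h.n0
  obtain ⟨m, rfl⟩ := Nat.exists_eq_succ_of_ne_zero hn.ne'
  have hP1 : P.comp (-X) = C ((-1) ^ (m + 1)) * P := by rw [h.Pp]; simp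
  have hw1 : w.comp (-X) = C (-s * (-1) ^ (m + 1)) * w := by rw [h.wp]; simp
  have hP := coeff_par hP1 m
  have hP0 : P.coeff m = 0 := by
    rw [pow_succ] at hP
    have h2 : ((-1 : ℝ) ^ m) ≠ 0 := pow_ne_zero _ (by norm_num)
    have : (-1 : ℝ) ^ m * (P.coeff m * 2) = 0 := by linear_combination hP
    rcases mul_eq_zero.1 this with h3 | h3
    · exact absurd h3 h2
    · linarith
  simp only [Nat.succ_eq_add_one, Nat.add_sub_cancel, coeff_sub, hP0, sub_zero]
  rcases h.typ with ⟨hs, hQ⟩ | ⟨hs, hQ⟩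
  · have hwm : w.Monic := by
      have := h.Qm
      rw [hQ] at this
      exact (monic_X_add_C (1 / 2 : ℝ)).of_mul_monic_left this
    have hwd : w.natDegree = m := by
      have h2 := h.Qd
      rw [hQ, (monic_X_add_C (1 / 2 : ℝ)).natDegree_mul hwm, natDegree_X_add_C] at h2
      omega
    have hw := coeff_par hw1
    rw [hQ, add_mul, coeff_add, coeff_C_mul]
    have h3 : w.coeff m = 1 := by
      have := hwm.coeff_natDegree
      rwa [hwd] at this
    rw [h3, hs]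
    rcases m with _ | m
    · simp
      norm_num
    · rw [coeff_X_mul]
      have h4 := hw m
      rw [hs, pow_succ, pow_succ] at h4
      have h2 : ((-1 : ℝ) ^ m) ≠ 0 := pow_ne_zero _ (by norm_num)
      have h5 : (-1 : ℝ) ^ m * (w.coeff m * 2) = 0 := by linear_combination h4
      have h6 : w.coeff m = 0 := by
        rcases mul_eq_zero.1 h5 with h3 | h3
        · exact absurd h3 h2
        · linarith
      rw [h6]
      norm_num
  · rw [hQ, coeff_add, hP0, hs]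
    have hw := coeff_par hw1 m
    rw [hs, pow_succ] at hw
    have h2 : ((-1 : ℝ) ^ m) ≠ 0 := pow_ne_zero _ (by norm_num)
    have h5 : (-1 : ℝ) ^ m * (w.coeff m * 2) = 0 := by linear_combination hw
    have h6 : w.coeff m = 0 := by
      rcases mul_eq_zero.1 h5 with h3 | h3
      · exact absurd h3 h2
      · linarith
    rw [h6]
    norm_num

lemma Dat.tr (h : Dat n P w Q s) : cf n (Q - P) ⬝ᵥ eL n = ((1 + s) / 4 : ℝ) := by
  rw [cf_dot_eL h.n0, h.top]

lemma Dat.sv (h : Dat n P w Q s) : s = 1 ∨ s = -1 := by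
  rcases h.typ with h1 | h1
  · exact Or.inl h1.1
  · exact Or.inr h1.1

lemma Dat.nrB (hA : All) (h : Dat n P w Q s) : NR (-bmp n P Q) := by
  refine hA.nrs.2 n _ (-(((1 + s) / 4 : ℝ) : ℂ)) ?_ fun k => ?_
  · rw [neg_mul_neg, bmp_sq, h.tr, neg_smul, smul_neg, neg_neg]
  · have h1 : ∀ t : ℝ, (t = 1 / 2 ∨ t = 0) → (k : ℂ) + 1 ≠ -((t : ℝ) : ℂ) ∧ (k : ℂ) + 1 ≠ ((t : ℝ) : ℂ) := by
      intro t ht
      constructor
      · intro h0
        have h2 : (k : ℝ) + 1 = -t := by exact_mod_cast h0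
        rcases ht with ht | ht <;> rw [ht] at h2 <;> linarith [Nat.cast_nonneg (α := ℝ) k]
      · intro h0
        have h2 : (k : ℝ) + 1 = t := by exact_mod_cast h0
        rcases ht with ht | ht <;> rw [ht] at h2 <;> linarith [Nat.cast_nonneg (α := ℝ) k]
    rw [neg_neg]
    apply h1
    rcases h.sv with h2 | h2 <;> rw [h2]
    · left; norm_num
    · right; norm_num

/-- the monodromy at `1` in the local basis -/
lemma Dat.e1 (hA : All) (h : Dat n P w Q s) : ∃ κ : ℂ, κ ≠ 0 ∧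
    EX (-bmp n P Q) (2 * Real.pi * Complex.I) = 1 + κ • bmp n P Q := by
  rcases h.sv with h2 | h2
  · refine ⟨-4, by norm_num, ?_⟩
    have h3 : (-bmp n P Q) * (-bmp n P Q) = (-(1 / 2) : ℂ) • (-bmp n P Q) := by
      rw [neg_mul_neg, bmp_sq, h.tr, h2, smul_neg, ← neg_smul]
      congr 1
      push_cast
      ring
    rw [(hA.exx n (-bmp n P Q)).2.2.2.2.2.2.1 _ _ h3 (by norm_num)]
    have h4 : Complex.exp (-(1 / 2) * (2 * Real.pi * Complex.I)) = -1 := by
      have : (-(1 / 2) * (2 * Real.pi * Complex.I) : ℂ) = -(Real.pi * Complex.I) := by ring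
      rw [this, Complex.exp_neg, Complex.exp_pi_mul_I]
      norm_num
    rw [h4, smul_neg, ← neg_smul]
    congr 2
    norm_num
  · refine ⟨-(2 * Real.pi * Complex.I), ?_, ?_⟩
    · rw [neg_ne_zero]
      exact Complex.two_pi_I_ne_zero
    · have h3 : (-bmp n P Q) * (-bmp n P Q) = 0 := by
        rw [neg_mul_neg, bmp_sq, h.tr, h2]
        norm_num
      rw [(hA.exx n (-bmp n P Q)).2.2.2.2.2.2.2.1 h3, smul_neg, ← neg_smul]

end Pool.Agent.N207.HG
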