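import Pool.Agent.N207.HG.Six
import Pool.Agent.Y985.OR.Final

/-!
# Project HG: the main theorem for fundamental matrices
-/

set_option autoImplicit false
set_option linter.unusedSectionVars false

open Matrix Polynomial Filter

namespace Pool.Agent.N207.HG

open Pool.Agent.Y119.HY (Sol Hf Gm HD PG ps Lens)
open Pool.Agent.Y985.OR (Mat bl Fam BigO SymSk ExcE DenseS S_DENSE S_FIN3)
open Pool.Agent.Y119.PLM (MT IsMon Cnt DenseMon Big)
open Pool.Agent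

variable {n : ℕ} {P w Q : ℝ[X]} {s : ℝ}

/-- congruent modulo the integers to a root -/
def RZ (P : ℝ[X]) (y : ℝ) : Prop := ∃ m : ℤ, P.eval (y + m) = 0

/-- the conditions which imply that the monodromy group is infinite -/
def InfC (n : ℕ) (P Q : ℝ[X]) (Y : ℂ → Mat n) : Prop :=
  (∃ l : ℝ, P.eval l = 0 ∧ (derivative P).eval l = 0) ∨
  ((∀ l : ℝ, P.eval l = 0 → ∃ q : ℚ, l = q) ∧
    ((∀ g0 g1 : Mat n, Loc0 Y g0 → Loc1 Y g1 → (Submonoid.closure {g1, g0} : Set (Mat n)).Infinite) ∨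
      (NRQ Q ∧ ((∃ l : ℝ, Q.eval l = 0 ∧ (derivative Q).eval l = 0) ∨
        ∃ y1 y2 : ℝ, y1 < y2 ∧ RZ Q y1 ∧ RZ Q y2 ∧ ∀ t : ℝ, y1 ≤ t → t ≤ y2 → ¬ RZ P t))))

lemma jordan_inf {X : Mat n} {y v : Fin n → ℂ} {m : ℂ} (hm : m ≠ 0) (hv : v ≠ 0) (h1 : X *ᵥ y = m • y + v)
    (h2 : X *ᵥ v = m • v) : Function.Injective fun k : ℕ => X ^ k := by
  have hv' : ∀ k : ℕ, X ^ k *ᵥ v = m ^ k • v := by
    intro k
    induction k with
    | zero => simp
    | succ k ih => rw [pow_succ', ← mulVec_mulVec, ih, mulVec_smul, h2, smul_smul, pow_succ]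
  have hy : ∀ k : ℕ, m • (X ^ k *ᵥ y) = m ^ (k + 1) • y + (k * m ^ k) • v := by
    intro k
    induction k with
    | zero => simp
    | succ k ih =>
      rw [pow_succ X, ← mulVec_mulVec, h1, mulVec_add, mulVec_smul, hv', smul_add, ih]
      simp only [smul_add, smul_smul, Nat.cast_add, Nat.cast_one]
      rw [add_assoc, ← add_smul]
      congr 2 <;> ring
  intro a b hab
  have hab' : X ^ a = X ^ b := hab
  have e1 : (m ^ a - m ^ b) • v = 0 := by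
    rw [sub_smul, ← hv', ← hv', hab', sub_self]
  have e2 : m ^ a = m ^ b := sub_eq_zero.1 ((smul_eq_zero.1 e1).resolve_right hv)
  have e3 : ((a : ℂ) * m ^ a - b * m ^ b) • v = 0 := by
    have h3 := hy a
    have h4 := hy b
    rw [hab', h4, pow_succ, pow_succ, e2] at h3
    have h5 : ((a : ℂ) * m ^ b) • v = ((b : ℂ) * m ^ b) • v := (add_left_cancel h3).symm
    rw [sub_smul, e2, h5, sub_self]
  have e4 : (a : ℂ) * m ^ a - b * m ^ b = 0 := (smul_eq_zero.1 e3).resolve_right hv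
  rw [e2, ← sub_mul] at e4
  have e5 : (a : ℂ) - b = 0 := (mul_eq_zero.1 e4).resolve_right (pow_ne_zero _ hm)
  exact_mod_cast sub_eq_zero.1 e5

lemma exp_int_shift (y : ℝ) (m : ℤ) :
    Complex.exp (2 * Real.pi * Complex.I * ((y + m : ℝ) : ℂ)) = Complex.exp (2 * Real.pi * Complex.I * y) := by
  rw [Complex.exp_eq_exp_iff_exists_int]
  exact ⟨m, by push_cast; ring⟩

lemma pow_cj {X C Ci : Mat n} (h : C * Ci = 1) (N : ℕ) : (Ci * X * C) ^ N = Ci * X ^ N * C := by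
  have h2 : Ci * C = 1 := mul_eq_one_comm.1 h
  induction N with
  | zero => rw [pow_zero, pow_zero, mul_one, h2]
  | succ k ih =>
    rw [pow_succ, ih, pow_succ]
    calc Ci * X ^ k * C * (Ci * X * C) = Ci * X ^ k * (C * Ci) * X * C := by simp only [Matrix.mul_assoc]
      _ = _ := by rw [h, mul_one]; simp only [Matrix.mul_assoc]

/-- the alternative used by `Fac.bigO` -/
lemma Fac.inf (hA : All) (h : Dat n P w Q s) (hs : s = 1) {Y : ℂ → Mat n}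
    {J T Ti g : Mat n} {x : Fin n → ℂ} {c : ℂ} (hf : Fac n P Q s Y J T Ti g x c) (hI : InfC n P Q Y) :
    (∃ l : ℝ, P.eval l = 0 ∧ (derivative P).eval l = 0) ∨
      ((∃ N : ℕ, 0 < N ∧ T ^ N = 1) ∧ (Submonoid.closure {g, T} : Set (Mat n)).Infinite) := by
  by_cases hd : ∃ l : ℝ, P.eval l = 0 ∧ (derivative P).eval l = 0
  · exact Or.inl hd
  right
  rcases hI with h1 | ⟨hrat, h2⟩
  · exact absurd h1 hd
  constructor
  · obtain ⟨N, hN, hN2⟩ := hA.tn1 n P h.Pm h.Pd fun y hy => by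
      obtain ⟨t, rfl, -, ht⟩ := h.rt_real hy
      obtain ⟨q, hq⟩ := hrat t ht
      refine ⟨⟨q, by rw [hq]; norm_cast⟩, ?_⟩
      rw [aeval_real]
      intro h0
      exact hd ⟨t, ht, by exact_mod_cast h0⟩
    refine ⟨N, hN, ?_⟩
    obtain ⟨C, Ci, hC, hT⟩ := hf.cj
    have h2 : Ci * C = 1 := mul_eq_one_comm.1 hC
    rw [hT, pow_cj hC, hN2, mul_one, h2]
  · rcases h2 with h2 | ⟨hQ, ⟨l, hl, hl'⟩ | ⟨y1, y2, hy, ⟨m1, hm1⟩, ⟨m2, hm2⟩, hP⟩⟩
    · exact h2 T g hf.lc0 hf.lc1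
    · obtain ⟨C, Ci, hC, hgT⟩ := hf.cq hQ
      have hCi : Ci * C = 1 := mul_eq_one_comm.1 hC
      have hl1 : aeval (l : ℂ) Q = 0 := by rw [aeval_real, hl, Complex.ofReal_zero]
      have hl2 : aeval (l : ℂ) (derivative Q) = 0 := by rw [aeval_real, hl', Complex.ofReal_zero]
      obtain ⟨eg1, eg2, eg3⟩ := hA.eig n Q h.Qm h.Qd hQ
      obtain ⟨y, hy⟩ := eg3 l hl1 hl2
      have hE := (hA.exx n (cmp n Q)).2.2.2.2.1 _ _ (eg2 l hl1) (2 * Real.pi * Complex.I)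
      have hcj : ∀ v, (g * T) *ᵥ (Ci *ᵥ v) = Ci *ᵥ (EX (cmp n Q) (2 * Real.pi * Complex.I) *ᵥ v) := by
        intro v
        rw [hgT, mulVec_mulVec, mulVec_mulVec]
        congr 1
        rw [Matrix.mul_assoc, hC, mul_one]
      have hinj := jordan_inf (X := g * T) (y := Ci *ᵥ y) (v := Ci *ᵥ nu n l)
        (m := Complex.exp (2 * Real.pi * Complex.I * l)) (Complex.exp_ne_zero _) (fun h0 => by
          have h3 : C *ᵥ (Ci *ᵥ nu n l) = 0 := by rw [h0, mulVec_zero]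
          rw [mulVec_mulVec, hC, one_mulVec] at h3
          exact nu_ne h.n0 _ h3) (by
          rw [hcj, ← hy, mulVec_sub, mulVec_smul]
          abel) (by rw [hcj, hE, mulVec_smul])
      refine (Set.infinite_range_of_injective hinj).mono ?_
      rintro _ ⟨k, rfl⟩
      exact Submonoid.pow_mem _ (Submonoid.mul_mem _ (Submonoid.subset_closure (by simp))
        (Submonoid.subset_closure (by simp))) k
    · have hJ1 : Jᵀ = J := by rw [hf.Jt, hs, Complex.ofReal_one, one_smul]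
      obtain ⟨hb, hc, hgr⟩ := rank_one_refl hJ1 hf.Jd hf.c0 hf.x0 (by rw [← hf.gx]; exact hf.ig)
      rw [← hf.gx] at hgr
      obtain ⟨e1, he1, he1'⟩ := hf.sq2 hQ ((y1 + m1 : ℝ) : ℂ) (by rw [aeval_real, hm1, Complex.ofReal_zero])
      obtain ⟨e2, he2, he2'⟩ := hf.sq2 hQ ((y2 + m2 : ℝ) : ℂ) (by rw [aeval_real, hm2, Complex.ofReal_zero])
      rw [exp_int_shift, hgr] at he1' he2'
      rw [hgr, Set.pair_comm]
      refine hA.int n J T Ti x e1 e2 y1 y2 hJ1 hf.Jd hf.iT hf.TTi hb hy he1 he2 he1' he2' fun t ht1 ht2 e he => ?_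
      by_contra h0
      obtain ⟨l, hl, hml⟩ := hf.sp1 e _ h0 he
      obtain ⟨a, rfl, -, ha⟩ := h.rt_real hl
      obtain ⟨m, hm⟩ := exp_eq hml
      refine hP t ht1 ht2 ⟨-m, ?_⟩
      have h3 : t = a + m := by exact_mod_cast hm
      rw [h3]
      push_cast
      rw [add_neg_cancel_right]
      exact ha

/-- **The theorem for fundamental matrices.** -/
theorem main (hA : All) {κ : Type} [Fintype κ] [DecidableEq κ] [Nonempty κ] {n : κ → ℕ} {P w Q : κ → ℝ[X]}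
    {s : κ → ℝ} (h : ∀ j, Dat (n j) (P j) (w j) (Q j) (s j)) (hr : ∀ j, Rot (P j) (Q j))
    {Y : (j : κ) → ℂ → Mat (n j)}
    (hY : ∀ j, ∀ z ∈ D0, HD (Y j) (Gm (cmp (n j) (P j)) (bmp (n j) (P j) (Q j)) z * Y j z) z)
    (hdet : ∀ j, ∃ z ∈ D0, (Y j z).det ≠ 0) (hinf : ∀ j, s j = 1 → InfC (n j) (P j) (Q j) (Y j))
    {V : Set (κ → ℂ)} {F : (κ → ℂ) → MT n} (hc : Cnt (UU κ) (YP Y) V F) (hV : IsOpen V) (hne : V.Nonempty) :
    ∃ J : MT n, (∀ j, (J j)ᵀ = (s j : ℂ) • J j ∧ (J j).det ≠ 0) ∧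
      (∀ j, ∀ z ∈ D0, (Y j z)ᵀ * Jz (n j) (P j) (w j) (s j) z * Y j z = J j) ∧
      (∀ x ∈ V, ∀ j, (F x j)ᵀ * Jz (n j) (P j) (w j) (s j) (x j) * F x j = J j) ∧
      DenseMon V F J ∧
      ∃ (ω : ℝ → ℕ) (T₀ : ℝ), Tendsto ω atTop atTop ∧ Monotone ω ∧ ∀ T, T₀ ≤ T → 0 < ω T ∧
      ∀ (K : Type) [Field K] [NumberField K], Module.finrank ℚ K ≤ ω T → ∀ (io : K →+* ℂ) (ξ : Fin (ω T) → ℂ),
        Y124.Cov ⌊T ^ ((ω T : ℝ)⁻¹)⌋₊ ⌊T ^ ((ω T : ℝ)⁻¹)⌋₊
          ((fun (s : κ → K) i => io (s i)) '' ExcE J (JP P w s) V F K io (ω T) ξ T) ∧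
        (ExcE J (JP P w s) V F K io (ω T) ξ T).Finite ∧
        ((ExcE J (JP P w s) V F K io (ω T) ξ T).ncard : ℝ) ≤
          T ^ ((ω T : ℝ)⁻¹) * ({x : K | Y120.HtLe K T x}.ncard : ℝ) ^ (Fintype.card κ - 1) := by
  choose J T Ti g x c hf hrel using fun j => (h j).fac hA (hY j) (hdet j)
  have han : ∀ j a b, AnalyticOnNhd ℂ (fun z => Y j z a b) D0 := fun j => HD_an isOpen_D0 (hY j)
  have hF : Fam J (JP P w s) (UU κ) (YP Y) := by
    refine ⟨preconn_UU, isOpen_UU, ne_UU, YP_an han, fun j => ⟨(hf j).js (h j), (hf j).Jd⟩, fun x hx j => ?_⟩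
    rw [JP_eval]
    exact hrel j (x j) (hx j)
  have hM : ∀ j g, Mo D0 (Y j) g → IsMon (UU κ) (YP Y) (Pi.mulSingle j g) := fun j g hg =>
    hA.tra κ n D0 Y isOpen_D0 preconn_D0 ⟨_, half_D0⟩ han j g hg
  have hD : DenseMon (UU κ) (YP Y) J := by
    refine Y985.OR.dense' κ κ n J (JP P w s) (UU κ) (YP Y) hF fun j => ?_
    rcases (h j).sv with hs | hs
    · left
      refine ⟨by rw [(hf j).Jt, hs, Complex.ofReal_one, one_smul], ?_⟩
      exact (hf j).bigO hA (h j) hs (hr j) rfl (han j) rfl (hM j) ((hf j).inf hA (h j) hs (hinf j hs))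
    · right
      refine ⟨by rw [(hf j).Jt, hs, Complex.ofReal_neg, Complex.ofReal_one, neg_one_smul], ?_⟩
      exact (hf j).big hA (h j) hs (hr j) rfl (han j) (hM j)
  obtain ⟨hF', hD'⟩ := hA.cnt κ κ n J (JP P w s) (UU κ) V (YP Y) F hF hD hc hV hne
  refine ⟨J, fun j => ⟨(hf j).Jt, (hf j).Jd⟩, hrel, fun x hx j => ?_, hD', ?_⟩
  · have := hF'.rel x hx j
    rwa [JP_eval] at this
  · exact Y985.OR.main_of Y985.OR.fin' hF' fun p hp g hg => hD' p hp g fun j => (hg j).1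

end Pool.Agent.N207.HG
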