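import Pool.Agent.N207.HG.Five

/-!
# Project HG: the product family
-/

set_option autoImplicit false
set_option linter.unusedSectionVars false

open Matrix Polynomial

namespace Pool.Agent.N207.HG

open Pool.Agent.Y119.HY (Sol Hf Gm HD PG ps Lens)
open Pool.Agent.Y985.OR (Mat bl Fam BigO SymSk)
open Pool.Agent.Y119.PLM (MT IsMon Cnt DenseMon Big)

variable {n : ℕ} {P w Q : ℝ[X]} {s : ℝ}

/-- not Kummer induced: the exponents at `0` or at infinity are not invariant under a rotation -/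
def Rot (P Q : ℝ[X]) : Prop := ∀ d : ℕ, 2 ≤ d →
  (∃ x : ℂ, mu P x ≠ mu P (x + 1 / d)) ∨ (NRQ Q ∧ ∃ x : ℂ, mu Q x ≠ mu Q (x + 1 / d))

lemma exp_eq {a b : ℂ} (h : Complex.exp (2 * Real.pi * Complex.I * a) = Complex.exp (2 * Real.pi * Complex.I * b)) :
    ∃ m : ℤ, a = b + m := by
  obtain ⟨m, hm⟩ := Complex.exp_eq_exp_iff_exists_int.1 h
  refine ⟨m, ?_⟩
  have h2 : (2 * Real.pi * Complex.I : ℂ) ≠ 0 := Complex.two_pi_I_ne_zero
  have h3 : (2 * Real.pi * Complex.I) * (a - (b + m)) = 0 := by linear_combination hm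
  exact sub_eq_zero.1 ((mul_eq_zero.1 h3).resolve_left h2)

lemma charpoly_cj {X C Ci : Mat n} (h : C * Ci = 1) : (Ci * X * C).charpoly = X.charpoly := by
  have h2 : Ci * C = 1 := mul_eq_one_comm.1 h
  have := Matrix.charpoly_units_conj (⟨Ci, C, h2, h⟩ : (Mat n)ˣ) X
  rw [← Matrix.coe_units_inv] at this
  exact this

/-- the hypotheses of the irreducibility criterion -/
lemma Fac.rot (hA : All) (h : Dat n P w Q s) {Y : ℂ → Mat n} {J T Ti g : Mat n} {x : Fin n → ℂ} {c : ℂ}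
    (hf : Fac n P Q s Y J T Ti g x c) (hr : Rot P Q) : ∀ d : ℕ, 2 ≤ d →
    (∃ m : ℂ, T.charpoly.rootMultiplicity m ≠
      T.charpoly.rootMultiplicity (m * Complex.exp (2 * Real.pi * Complex.I / d))) ∨
    (∃ m : ℂ, (g * T).charpoly.rootMultiplicity m ≠
      (g * T).charpoly.rootMultiplicity (m * Complex.exp (2 * Real.pi * Complex.I / d))) := by
  intro d hd
  have key : ∀ x : ℂ, Complex.exp (2 * Real.pi * Complex.I * x) * Complex.exp (2 * Real.pi * Complex.I / d) =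
      Complex.exp (2 * Real.pi * Complex.I * (x + 1 / d)) := by
    intro x
    rw [← Complex.exp_add]
    congr 1
    ring
  rcases hr d hd with ⟨y, hy⟩ | ⟨hQ, y, hy⟩
  · left
    refine ⟨Complex.exp (2 * Real.pi * Complex.I * y), ?_⟩
    obtain ⟨C, Ci, hC, hT⟩ := hf.cj
    rw [key, hT, charpoly_cj hC, hA.chp n P h.Pm h.Pd, hA.chp n P h.Pm h.Pd]
    exact hy
  · right
    refine ⟨Complex.exp (2 * Real.pi * Complex.I * y), ?_⟩
    obtain ⟨C, Ci, hC, hT⟩ := hf.cq hQ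
    rw [key, hT, charpoly_cj hC, hA.chp n Q h.Qm h.Qd, hA.chp n Q h.Qm h.Qd]
    exact hy

section
variable {κ : Type} [Fintype κ] [DecidableEq κ] {m : κ → ℕ}

/-- the domain -/
def UU (κ : Type) : Set (κ → ℂ) := {x | ∀ i, x i ∈ D0}

/-- the product family -/
def YP (Y : (j : κ) → ℂ → Mat (m j)) (x : κ → ℂ) : MT m := fun i => Y i (x i)

/-- the forms -/
noncomputable def JP (P w : κ → ℝ[X]) (s : κ → ℝ) (j : κ) : Matrix (Fin (m j)) (Fin (m j)) (MvPolynomial κ ℂ) :=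
  Matrix.of fun a b => MvPolynomial.C (cK (m j) (P j) (w j) (s j) a b) -
    MvPolynomial.C ((((1 + s j) / 2 : ℝ) : ℂ) * (cf (m j) (w j) a * cf (m j) (w j) b)) * MvPolynomial.X j

lemma JP_eval (P w : κ → ℝ[X]) (s : κ → ℝ) (j : κ) (x : κ → ℂ) :
    (JP (m := m) P w s j).map (MvPolynomial.eval x) = Jz (m j) (P j) (w j) (s j) (x j) := by
  ext a b
  unfold JP Jz
  simp only [Matrix.map_apply, Matrix.of_apply, map_sub, map_mul, MvPolynomial.eval_C, MvPolynomial.eval_X,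
    Matrix.sub_apply, Matrix.smul_apply, smul_eq_mul, vecMulVec_apply]
  ring

lemma isOpen_UU : IsOpen (UU κ) := by
  have : UU κ = Set.pi Set.univ fun _ => D0 := by
    ext x
    simp [UU]
  rw [this]
  exact isOpen_set_pi Set.finite_univ fun _ _ => isOpen_D0

lemma preconn_UU : IsPreconnected (UU κ) := by
  have : UU κ = Set.pi Set.univ fun _ => D0 := by
    ext x
    simp [UU]
  rw [this]
  exact isPreconnected_univ_pi fun _ => preconn_D0

lemma ne_UU : (UU κ).Nonempty := ⟨fun _ => _, fun _ => half_D0⟩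

lemma YP_an {Y : (j : κ) → ℂ → Mat (m j)} (hY : ∀ j a b, AnalyticOnNhd ℂ (fun z => Y j z a b) D0) (j : κ)
    (a b : Fin (m j)) : AnalyticOnNhd ℂ (fun x => YP Y x j a b) (UU κ) := by
  intro x hx
  have h1 : AnalyticAt ℂ (fun z => Y j z a b) (x j) := hY j a b (x j) (hx j)
  have h2 : AnalyticAt ℂ (fun x : κ → ℂ => x j) x := (ContinuousLinearMap.proj (R := ℂ) (φ := fun _ : κ => ℂ) j).analyticAt x
  exact h1.comp_of_eq h2 rfl

lemma conj_form {J S Si g : Mat n} (hS : S * Si = 1) {x : Fin n → ℂ} {c : ℂ} (hg : g = 1 + c • vecMulVec x (J *ᵥ x))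
    (iS : Sᵀ * J * S = J) : S * g * Si = 1 + c • vecMulVec (S *ᵥ x) (J *ᵥ (S *ᵥ x)) := by
  have h3 : (J *ᵥ x) ᵥ* Si = J *ᵥ (S *ᵥ x) := by
    have h4 : Siᵀ * Sᵀ = 1 := by rw [← transpose_mul, hS, transpose_one]
    rw [← mulVec_transpose]
    calc Siᵀ *ᵥ (J *ᵥ x) = Siᵀ *ᵥ ((Sᵀ * J * S) *ᵥ x) := by rw [iS]
      _ = (Siᵀ * Sᵀ) *ᵥ (J *ᵥ (S *ᵥ x)) := by
        simp only [mulVec_mulVec, Matrix.mul_assoc]
      _ = _ := by rw [h4, one_mulVec]
  rw [hg, mul_add, add_mul, mul_one, hS, mul_smul_comm, smul_mul_assoc, mul_vecMulVec, vecMulVec_mul, h3]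

lemma pow_inv' {T Ti : Mat n} (h : T * Ti = 1) (k : ℕ) : T ^ k * Ti ^ k = 1 := by
  induction k with
  | zero => simp
  | succ k ih =>
    calc T ^ (k + 1) * Ti ^ (k + 1) = T ^ k * (T * Ti) * Ti ^ k := by
          rw [pow_succ T, pow_succ' Ti]; simp only [Matrix.mul_assoc]
      _ = 1 := by rw [h, mul_one, ih]

lemma iso_pow {J T : Mat n} (h : Tᵀ * J * T = J) (k : ℕ) : (T ^ k)ᵀ * J * T ^ k = J := by
  induction k with
  | zero => simp
  | succ k ih =>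
    rw [pow_succ, transpose_mul]
    calc Tᵀ * (T ^ k)ᵀ * J * (T ^ k * T) = Tᵀ * ((T ^ k)ᵀ * J * T ^ k) * T := by simp only [Matrix.mul_assoc]
      _ = J := by rw [ih, h]

lemma iso_inv {J T Ti : Mat n} (h : Tᵀ * J * T = J) (hT : T * Ti = 1) : Tiᵀ * J * Ti = J := by
  calc Tiᵀ * J * Ti = Tiᵀ * (Tᵀ * J * T) * Ti := by rw [h]
    _ = (Tiᵀ * Tᵀ) * J * (T * Ti) := by simp only [Matrix.mul_assoc]
    _ = J := by rw [hT, ← transpose_mul, hT, transpose_one, one_mul, mul_one]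

lemma iso_bl {J T : Mat n} (h : Tᵀ * J * T = J) (x y : Fin n → ℂ) : bl J (T *ᵥ x) (T *ᵥ y) = bl J x y := by
  unfold bl
  rw [← vecMul_transpose, ← dotProduct_mulVec, mulVec_mulVec, mulVec_mulVec, h]

lemma Mo_pow {Y : ℂ → Mat n} (hA : All) (hY : ∀ a b, AnalyticOnNhd ℂ (fun z => Y z a b) D0) {T : Mat n}
    (h : Mo D0 Y T) (k : ℕ) : Mo D0 Y (T ^ k) := by
  have hm := hA.mon n D0 Y isOpen_D0 preconn_D0 ⟨_, half_D0⟩ hY
  induction k with
  | zero => rw [pow_zero]; exact hm.1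
  | succ k ih => rw [pow_succ]; exact hm.2.1 _ _ ih h

/-- the conjugates of `g` are monodromy matrices -/
lemma Fac.conj (hA : All) {Y : ℂ → Mat n} (hY : ∀ a b, AnalyticOnNhd ℂ (fun z => Y z a b) D0)
    {J T Ti g : Mat n} {x : Fin n → ℂ} {c : ℂ} (hf : Fac n P Q s Y J T Ti g x c) (k : ℕ) :
    Mo D0 Y (T ^ k * g * Ti ^ k) ∧ Mo D0 Y (Ti ^ k * g * T ^ k) := by
  have hm := hA.mon n D0 Y isOpen_D0 preconn_D0 ⟨_, half_D0⟩ hY
  exact ⟨hm.2.1 _ _ (hm.2.1 _ _ (Mo_pow hA hY hf.mT k) hf.mg) (Mo_pow hA hY hf.mTi k),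
    hm.2.1 _ _ (hm.2.1 _ _ (Mo_pow hA hY hf.mTi k) hf.mg) (Mo_pow hA hY hf.mT k)⟩

lemma Fac.js (h : Dat n P w Q s) {Y : ℂ → Mat n}
    {J T Ti g : Mat n} {x : Fin n → ℂ} {c : ℂ} (hf : Fac n P Q s Y J T Ti g x c) : Jᵀ = J ∨ Jᵀ = -J := by
  rcases h.sv with h1 | h1
  · left
    rw [hf.Jt, h1, Complex.ofReal_one, one_smul]
  · right
    rw [hf.Jt, h1, Complex.ofReal_neg, Complex.ofReal_one, neg_one_smul]

/-- irreducibility -/
lemma Fac.irr (hA : All) (h : Dat n P w Q s) (hr : Rot P Q) {Y : ℂ → Mat n}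
    {J T Ti g : Mat n} {x : Fin n → ℂ} {c : ℂ} (hf : Fac n P Q s Y J T Ti g x c)
    (W : Submodule ℂ (Fin n → ℂ)) (hW : ∀ k : ℕ, (∀ y ∈ W, (T ^ k * g * Ti ^ k) *ᵥ y ∈ W) ∧
      ∀ y ∈ W, (Ti ^ k * g * T ^ k) *ᵥ y ∈ W) : W = ⊥ ∨ W = ⊤ :=
  hA.ir2 n J T Ti g x c (hf.js h) hf.Jd hf.iT hf.TTi hf.x0 hf.c0 hf.gx hf.ig hf.ev (hf.rot hA h hr) W hW

/-- **symplectic case** -/
lemma Fac.big (hA : All) (h : Dat n P w Q s) (hs : s = -1) (hr : Rot P Q) {U : Set (κ → ℂ)} {YY : (κ → ℂ) → MT m} {j : κ}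
    (hn : m j = n) {Y : ℂ → Mat n}
    (hY : ∀ a b, AnalyticOnNhd ℂ (fun z => Y z a b) D0)
    {J T Ti g : Mat n} {x : Fin n → ℂ} {c : ℂ} (hf : Fac n P Q s Y J T Ti g x c)
    (hM : ∀ g, Mo D0 Y g → IsMon U YY (Pi.mulSingle j (hn ▸ g))) : Big U YY j := by
  subst hn
  have hgg : ∀ S Si : Mat (m j), S * Si = 1 → Sᵀ * J * S = J → (S * g * Si - 1) ^ m j = 0 := by
    intro S Si hS iS
    rw [conj_form hS hf.gx iS, add_sub_cancel_left]
    have hq : bl J (S *ᵥ x) (S *ᵥ x) = 0 := by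
      rw [iso_bl iS]
      have h1 := bl_symm hf.Jt x x
      have h2 : (J *ᵥ x) ⬝ᵥ x = bl J x x := dotProduct_comm _ _
      rw [h2, hs] at h1
      push_cast at h1
      linear_combination h1 / 2
    have hsq : (c • vecMulVec (S *ᵥ x) (J *ᵥ (S *ᵥ x))) * (c • vecMulVec (S *ᵥ x) (J *ᵥ (S *ᵥ x))) = 0 := by
      rw [smul_mul_assoc, mul_smul_comm, vecMulVec_mul_vecMulVec]
      have h3 : (J *ᵥ (S *ᵥ x)) ⬝ᵥ (S *ᵥ x) = 0 := by
        rw [dotProduct_comm]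
        exact hq
      rw [h3, zero_smul, vecMulVec_zero, smul_zero, smul_zero]
    have hn2 : 2 ≤ m j := by
      have h0 := h.n0
      by_contra h1
      have h2 : m j = 1 := by omega
      have h3 : J = 0 := by
        have h4 := hf.Jt
        rw [hs] at h4
        push_cast at h4
        rw [neg_one_smul] at h4
        ext a b
        have h5 := congrFun (congrFun h4 a) b
        simp only [Matrix.transpose_apply, Matrix.neg_apply] at h5
        have hab : a = b := by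
          apply Fin.ext
          have := a.2
          have := b.2
          omega
        rw [hab] at h5 ⊢
        simp only [Matrix.zero_apply]
        linear_combination h5 / 2
      have h4 := hf.Jd
      rw [h3] at h4
      have : Nonempty (Fin (m j)) := ⟨⟨0, h0⟩⟩
      rw [Matrix.det_zero] at h4
      exact h4 rfl
    have hpw : ∀ r, 2 ≤ r → (c • vecMulVec (S *ᵥ x) (J *ᵥ (S *ᵥ x))) ^ r = 0 := by
      intro r hr
      obtain ⟨r', rfl⟩ := Nat.exists_eq_add_of_le hr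
      rw [pow_add, sq, hsq, zero_mul]
    exact hpw _ hn2
  refine ⟨fun W hW => hf.irr hA h hr W fun k => ?_, g, hM g hf.mg, ?_⟩
  · have h1 := hf.conj hA hY k
    have h2 := pow_inv' hf.TTi k
    have h3 : Ti ^ k * T ^ k = 1 := mul_eq_one_comm.1 h2
    exact ⟨hW _ (hM _ h1.1) (hgg _ _ h2 (iso_pow hf.iT k)), hW _ (hM _ h1.2) (hgg _ _ h3 (iso_inv (iso_pow hf.iT k) h2))⟩
  · rw [hf.gx, add_sub_cancel_left, ← vecMulVec_smul]
    refine le_antisymm (rank_vecMulVec_le _ _) ?_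
    rw [Nat.one_le_iff_ne_zero]
    intro h0
    have h1 : LinearMap.range (vecMulVec x (c • (J *ᵥ x))).mulVecLin = ⊥ := Submodule.finrank_eq_zero.1 h0
    have h2 : ∀ v, vecMulVec x (c • (J *ᵥ x)) *ᵥ v = 0 := fun v => by
      have h3 : vecMulVec x (c • (J *ᵥ x)) *ᵥ v ∈ LinearMap.range (vecMulVec x (c • (J *ᵥ x))).mulVecLin := ⟨v, rfl⟩
      rw [h1] at h3
      exact h3
    have hJx : J *ᵥ x ≠ 0 := fun h0 => hf.x0 (Matrix.eq_zero_of_mulVec_eq_zero hf.Jd h0)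
    obtain ⟨a, ha⟩ := Function.ne_iff.1 hJx
    obtain ⟨b, hb⟩ := Function.ne_iff.1 hf.x0
    have h3 := congrFun (h2 (Pi.single a 1)) b
    rw [mulVec_single_one, Matrix.col_apply, vecMulVec_apply, Pi.smul_apply, smul_eq_mul] at h3
    exact mul_ne_zero hb (mul_ne_zero hf.c0 ha) h3

/-- **orthogonal case** -/
lemma Fac.bigO (hA : All) (h : Dat n P w Q s) (hs : s = 1) (hr : Rot P Q) {U : Set (κ → ℂ)} {YY : (κ → ℂ) → MT m} {j : κ}
    {JJ : MT m}
    (hn : m j = n) {Y : ℂ → Mat n}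
    (hY : ∀ a b, AnalyticOnNhd ℂ (fun z => Y z a b) D0)
    {J T Ti g : Mat n} {x : Fin n → ℂ} {c : ℂ} (hf : Fac n P Q s Y J T Ti g x c) (hJ : JJ j = hn ▸ J)
    (hM : ∀ g, Mo D0 Y g → IsMon U YY (Pi.mulSingle j (hn ▸ g)))
    (hinf : (∃ l : ℝ, P.eval l = 0 ∧ (derivative P).eval l = 0) ∨
      ((∃ N : ℕ, 0 < N ∧ T ^ N = 1) ∧ (Submonoid.closure {g, T} : Set (Mat n)).Infinite)) : BigO JJ U YY j := by
  subst hn
  simp only at hJ
  have hJ1 : Jᵀ = J := by rw [hf.Jt, hs, Complex.ofReal_one, one_smul]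
  obtain ⟨hb, hc, hgr⟩ := rank_one_refl hJ1 hf.Jd hf.c0 hf.x0 (by rw [← hf.gx]; exact hf.ig)
  rw [← hf.gx] at hgr
  have hrf : ∀ S Si : Mat (m j), S * Si = 1 → Sᵀ * J * S = J →
      S * g * Si = Pool.Agent.Y985.OR.refl J (S *ᵥ x) ∧ bl J (S *ᵥ x) (S *ᵥ x) ≠ 0 := by
    intro S Si hS iS
    refine ⟨?_, by rw [iso_bl iS]; exact hb⟩
    rw [conj_form hS hf.gx iS]
    unfold Pool.Agent.Y985.OR.refl
    rw [iso_bl iS, hc, neg_smul, ← sub_eq_add_neg]
  refine ⟨fun W hW => hf.irr hA h hr W fun k => ?_, ?_⟩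
  · have h1 := hf.conj hA hY k
    have h2 := pow_inv' hf.TTi k
    have h3 : Ti ^ k * T ^ k = 1 := mul_eq_one_comm.1 h2
    obtain ⟨e1, f1⟩ := hrf _ _ h2 (iso_pow hf.iT k)
    obtain ⟨e2, f2⟩ := hrf _ _ h3 (iso_inv (iso_pow hf.iT k) h2)
    rw [hJ] at hW
    rw [e1, e2] at h1 ⊢
    exact ⟨hW _ f1 (hM _ h1.1), hW _ f2 (hM _ h1.2)⟩
  · rw [hJ]
    rcases hinf with ⟨l, hl, hl'⟩ | ⟨⟨N, hN, hTN⟩, hinf⟩
    · have hl1 : aeval (l : ℂ) P = 0 := by rw [aeval_real, hl, Complex.ofReal_zero]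
      have hl2 : aeval (l : ℂ) (derivative P) = 0 := by rw [aeval_real, hl', Complex.ofReal_zero]
      obtain ⟨y, hy1, hy2⟩ := hf.dbl l hl1 hl2
      have hn1 : ‖Complex.exp (2 * Real.pi * Complex.I * l)‖ = 1 := by
        have : (2 * Real.pi * Complex.I * l : ℂ) = ((2 * Real.pi * l : ℝ) : ℂ) * Complex.I := by
          push_cast
          ring
        rw [this, Complex.norm_exp_ofReal_mul_I]
      obtain ⟨k, hk1, hk2⟩ := hA.unb (m j) J T Ti x y _ hJ1 hf.Jd hf.iT hf.TTi hb hf.ev hn1 hy1 hy2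
      have h1 := (hf.conj hA hY k).1
      rw [(hrf _ _ (pow_inv' hf.TTi k) (iso_pow hf.iT k)).1] at h1
      refine ⟨x, T ^ k *ᵥ x, hb, hk1, hM _ ?_, hM _ h1, hk2⟩
      rw [← hgr]
      exact hf.mg
    · rw [hgr, Set.pair_comm] at hinf
      obtain ⟨u, v, hu, hv, hu2, hv2, h1⟩ := hA.fin (m j) J T x N hJ1 hf.Jd hf.iT hN hTN hb hf.ev hinf
      have hm := hA.mon (m j) D0 Y isOpen_D0 preconn_D0 ⟨_, half_D0⟩ hY
      have hcl : ∀ h ∈ Submonoid.closure {T, Pool.Agent.Y985.OR.refl J x}, Mo D0 Y h := by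
        intro h hh
        induction hh using Submonoid.closure_induction with
        | mem a ha =>
          rcases ha with ha | ha
          · rw [ha]; exact hf.mT
          · rw [Set.mem_singleton_iff.1 ha, ← hgr]; exact hf.mg
        | one => exact hm.1
        | mul a b _ _ ha hb => exact hm.2.1 _ _ ha hb
      exact ⟨u, v, hu, hv, hM _ (hcl _ hu2), hM _ (hcl _ hv2), h1⟩

end

end Pool.Agent.N207.HG
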