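import Pool.Agent.N207.HG.Stm

/-!
# Project HG: statements of the second group of jobs
-/

set_option autoImplicit false

open Matrix Polynomial

namespace Pool.Agent.N207.HG

open Pool.Agent.Y985.OR (Mat bl refl)

open Classical in
/-- the multiplicity of `x` modulo the integers as a root of `P` -/
noncomputable def mu (P : ℝ[X]) (x : ℂ) : ℕ :=
  (P.map (algebraMap ℝ ℂ)).roots.countP fun r => ∃ m : ℤ, r = x + m

/-- HG-CHP: the characteristic polynomial of `exp (2 π i A)` for a companion matrix -/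
def S_CHP : Prop := ∀ (n : ℕ) (P : ℝ[X]), P.Monic → P.natDegree = n → ∀ x : ℂ,
  (EX (cmp n P) (2 * Real.pi * Complex.I)).charpoly.rootMultiplicity (Complex.exp (2 * Real.pi * Complex.I * x)) =
    mu P x

/-- HG-IR2: irreducibility, with multiplicities of the eigenvalues -/
def S_IR2 : Prop := ∀ (n : ℕ) (J T Ti g : Mat n) (x : Fin n → ℂ) (c : ℂ), (Jᵀ = J ∨ Jᵀ = -J) → J.det ≠ 0 →
  Tᵀ * J * T = J → T * Ti = 1 → x ≠ 0 → c ≠ 0 → g = 1 + c • vecMulVec x (J *ᵥ x) → gᵀ * J * g = J →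
  (∀ (e : Fin n → ℂ) (m : ℂ), e ≠ 0 → T *ᵥ e = m • e → bl J x e ≠ 0) →
  (∀ d : ℕ, 2 ≤ d →
    (∃ m : ℂ, T.charpoly.rootMultiplicity m ≠
      T.charpoly.rootMultiplicity (m * Complex.exp (2 * Real.pi * Complex.I / d))) ∨
    (∃ m : ℂ, (g * T).charpoly.rootMultiplicity m ≠
      (g * T).charpoly.rootMultiplicity (m * Complex.exp (2 * Real.pi * Complex.I / d)))) →
  ∀ W : Submodule ℂ (Fin n → ℂ), (∀ k : ℕ, (∀ y ∈ W, (T ^ k * g * Ti ^ k) *ᵥ y ∈ W) ∧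
    ∀ y ∈ W, (Ti ^ k * g * T ^ k) *ᵥ y ∈ W) → W = ⊥ ∨ W = ⊤

/-- HG-INT: a finite group forces the exponents to interlace -/
def S_INT : Prop := ∀ (n : ℕ) (J T Ti : Mat n) (x e1 e2 : Fin n → ℂ) (y1 y2 : ℝ), Jᵀ = J → J.det ≠ 0 →
  Tᵀ * J * T = J → T * Ti = 1 → bl J x x ≠ 0 → y1 < y2 → e1 ≠ 0 → e2 ≠ 0 →
  (refl J x * T) *ᵥ e1 = Complex.exp (2 * Real.pi * Complex.I * y1) • e1 →
  (refl J x * T) *ᵥ e2 = Complex.exp (2 * Real.pi * Complex.I * y2) • e2 →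
  (∀ t : ℝ, y1 ≤ t → t ≤ y2 → ∀ e : Fin n → ℂ, T *ᵥ e = Complex.exp (2 * Real.pi * Complex.I * t) • e → e = 0) →
  (Submonoid.closure {T, refl J x} : Set (Mat n)).Infinite

/-- HG-TN1: a companion matrix with simple rational eigenvalues -/
def S_TN1 : Prop := ∀ (n : ℕ) (P : ℝ[X]), P.Monic → P.natDegree = n →
  (∀ x : ℂ, Polynomial.aeval x P = 0 → (∃ q : ℚ, x = q) ∧ Polynomial.aeval x (derivative P) ≠ 0) →
  ∃ N : ℕ, 0 < N ∧ (EX (cmp n P) (2 * Real.pi * Complex.I)) ^ N = 1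

end Pool.Agent.N207.HG
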