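import Pool.Agent.N207.HG.Two

/-!
# Project HG: one factor, monodromy of an arbitrary fundamental matrix
-/

set_option autoImplicit false

open Matrix Polynomial

namespace Pool.Agent.N207.HG

open Pool.Agent.Y119.HY (Sol Hf Gm HD PG ps Lens mem_Lens real_mem_Lens isOpen_Lens preconn_Lens symm_Lens slit_Lens)
open Pool.Agent.Y985.OR (Mat bl)

variable {n : ℕ} {P w Q : ℝ[X]} {s : ℝ}

lemma Jz_an (n : ℕ) (P w : ℝ[X]) (s : ℝ) (i j : Fin n) (V : Set ℂ) :
    AnalyticOnNhd ℂ (fun z => Jz n P w s z i j) V := by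
  unfold Jz
  simp only [Matrix.sub_apply, Matrix.smul_apply, smul_eq_mul]
  exact analyticOnNhd_const.sub (analyticOnNhd_const.mul (analyticOnNhd_id.mul analyticOnNhd_const))

/-- the relation persists along chains -/
lemma Ch_rel {D V : Set ℂ} {Y F : ℂ → Mat n} {J : Mat n} (hY : ∀ z ∈ D, (Y z)ᵀ * Jz n P w s z * Y z = J)
    (h : Ch D Y V F) : ∀ z ∈ V, (F z)ᵀ * Jz n P w s z * F z = J := by
  induction h with
  | base => exact hY
  | @step V V' W F F' h hV' hp hF' hW hne hWV hWV' he ih =>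
    intro z hz
    ext i j
    have h1 : AnalyticOnNhd ℂ (fun z => ((F' z)ᵀ * Jz n P w s z * F' z) i j - J i j) V' := by
      simp only [Matrix.mul_apply, Matrix.transpose_apply]
      refine AnalyticOnNhd.sub ?_ analyticOnNhd_const
      refine Finset.analyticOnNhd_fun_sum _ fun l _ => AnalyticOnNhd.mul ?_ (hF' l j)
      refine Finset.analyticOnNhd_fun_sum _ fun k _ => ?_
      exact (hF' k i).mul (Jz_an n P w s k l V')
    obtain ⟨z0, hz0⟩ := hne
    have h2 := h1.eqOn_zero_of_preconnected_of_eventuallyEq_zero hp (hWV' hz0) (by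
      filter_upwards [hW.mem_nhds hz0] with x hx
      have h3 := ih x (hWV hx)
      rw [← he x hx] at h3
      simp only [h3, sub_self]
      rfl)
    exact sub_eq_zero.1 (h2 hz)

lemma Mo_iso {D : Set ℂ} {Y : ℂ → Mat n} {J g : Mat n} (hY : ∀ z ∈ D, (Y z)ᵀ * Jz n P w s z * Y z = J)
    (h : Mo D Y g) : gᵀ * J * g = J := by
  obtain ⟨V, W, F, hc, hW, ⟨z0, hz0⟩, hWV, hWD, he⟩ := h
  have h1 := Ch_rel hY hc z0 (hWV hz0)
  rw [he z0 hz0] at h1
  rw [← hY z0 (hWD hz0)]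
  rw [transpose_mul] at h1
  simp only [Matrix.mul_assoc] at h1 ⊢
  rw [h1, ← hY z0 (hWD hz0)]
  simp only [Matrix.mul_assoc]

/-- the form on the space of solutions -/
theorem Dat.form (hA : All) (h : Dat n P w Q s) {Y : ℂ → Mat n} (hY : ∀ z ∈ D0, HD Y (Gm (cmp n P) (bmp n P Q) z * Y z) z)
    (hdet : ∀ z ∈ D0, (Y z).det ≠ 0) : ∃ J : Mat n, (∀ z ∈ D0, (Y z)ᵀ * Jz n P w s z * Y z = J) ∧
      Jᵀ = (s : ℂ) • J ∧ J.det ≠ 0 := by
  have hrel := fun z (hz : z ∈ D0) => hA.rel n P w Q s h.n0 h.Pm h.Pd h.Qm h.Qd h.wd h.Pp h.wp (fun x hx => h.cop hx) h.typ z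
    (D0_ne hz) (D0_ne1 hz)
  refine ⟨(Y ((1 / 2 : ℝ) : ℂ))ᵀ * Jz n P w s ((1 / 2 : ℝ) : ℂ) * Y ((1 / 2 : ℝ) : ℂ), fun z hz => ?_, ?_, ?_⟩
  · ext i j
    exact isOpen_D0.is_const_of_deriv_eq_zero preconn_D0
      (fun x hx => (((hrel x hx).2 Y (hY x hx)) i j).differentiableAt.differentiableWithinAt)
      (fun x hx => (((hrel x hx).2 Y (hY x hx)) i j).deriv) hz half_D0
  · have h1 : (Jz n P w s ((1 / 2 : ℝ) : ℂ))ᵀ = (s : ℂ) • Jz n P w s ((1 / 2 : ℝ) : ℂ) := by
      have h2 := (hA.frm n P w s h.n0 h.sv h.Pm h.Pd h.wd h.Pp h.wp (fun x hx => h.cop hx)).1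
      unfold Jz
      rw [transpose_sub, h2, transpose_smul, transpose_smul, transpose_vecMulVec, smul_sub]
      congr 1
      rcases h.sv with h3 | h3
      · rw [h3, Complex.ofReal_one, one_smul]
      · rw [h3]
        norm_num
    rw [transpose_mul, transpose_mul, transpose_transpose, h1]
    simp only [smul_mul_assoc, mul_smul_comm, Matrix.mul_assoc]
  · rw [det_mul, det_mul, det_transpose]
    exact mul_ne_zero (mul_ne_zero (hdet _ half_D0) (hrel _ half_D0).1) (hdet _ half_D0)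

end Pool.Agent.N207.HG
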