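import Pool.Agent.N207.HG.One

/-!
# Project HG: one factor, local solutions and connection
-/

set_option autoImplicit false

open Matrix Polynomial

namespace Pool.Agent.N207.HG

open Pool.Agent.Y119.HY (Sol Hf Gm HD PG ps Lens mem_Lens real_mem_Lens isOpen_Lens preconn_Lens symm_Lens slit_Lens)
open Pool.Agent.Y985.OR (Mat bl refl)

variable {n : ℕ} {P w Q : ℝ[X]} {s : ℝ}

lemma EX_mul_neg (hA : All) (N : Mat n) (t : ℂ) : EX N t * EX N (-t) = 1 := by
  rw [← (hA.exx n N).2.1, add_neg_cancel, (hA.exx n N).1]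

lemma EX_det (hA : All) (N : Mat n) (t : ℂ) : (EX N t).det ≠ 0 := by
  have h1 := congrArg Matrix.det (EX_mul_neg hA N t)
  rw [det_mul, det_one] at h1
  exact left_ne_zero_of_mul_eq_one h1

lemma mem_D0 {z : ℂ} : z ∈ D0 ↔ ‖z‖ < 1 ∧ z ∈ Complex.slitPlane := Iff.rfl

lemma D0_ne {z : ℂ} (hz : z ∈ D0) : z ≠ 0 := Complex.slitPlane_ne_zero hz.2

lemma D0_ne1 {z : ℂ} (hz : z ∈ D0) : z ≠ 1 := by
  rintro rfl
  have := hz.1
  rw [norm_one] at this
  exact lt_irrefl _ this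

lemma Lens_D0 {z : ℂ} (hz : z ∈ Lens) : z ∈ D0 := ⟨(mem_Lens.1 hz).1, slit_Lens hz⟩

lemma isOpen_D0 : IsOpen D0 :=
  (isOpen_lt continuous_norm continuous_const).inter Complex.isOpen_slitPlane

lemma preconn_D0 : IsPreconnected D0 := by
  have h1 : StarConvex ℝ ((1 / 2 : ℝ) : ℂ) D0 := by
    intro z hz a b ha hb hab
    refine ⟨?_, ?_⟩
    · have h2 := (convex_ball (0 : ℂ) 1) (x := ((1 / 2 : ℝ) : ℂ)) (y := z) (by
        rw [Metric.mem_ball, dist_zero_right, Complex.norm_real]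
        norm_num) (by
        rw [Metric.mem_ball, dist_zero_right]
        exact hz.1) ha hb hab
      rwa [Metric.mem_ball, dist_zero_right] at h2
    · have hz2 := hz.2
      rw [Complex.mem_slitPlane_iff] at hz2 ⊢
      simp only [Complex.add_re, Complex.add_im, Complex.real_smul, Complex.mul_re, Complex.mul_im, Complex.ofReal_re,
        Complex.ofReal_im, zero_mul, sub_zero, mul_zero, add_zero, zero_add]
      rcases eq_or_lt_of_le hb with h0 | h0
      · left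
        have ha1 : a = 1 := by linarith
        rw [← h0, ha1]
        norm_num
      · by_cases h3 : z.im = 0
        · left
          rcases hz2 with h4 | h4
          · have : 0 < b * z.re := mul_pos h0 h4
            have : 0 ≤ a * (1 / 2) := by positivity
            linarith
          · exact absurd h3 h4
        · right
          exact mul_ne_zero h0.ne' h3
  exact h1.isPathConnected (by exact Lens_D0 (real_mem_Lens (by norm_num) (by norm_num))) |>.isConnected.isPreconnected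

lemma half_D0 : ((1 / 2 : ℝ) : ℂ) ∈ D0 := Lens_D0 (real_mem_Lens (by norm_num) (by norm_num))

lemma YE_det (hA : All) {N0 N1 : Mat n} {H : ℕ → Mat n} (hN : NR N0) (hH : Sol N0 N1 H) {z : ℂ} (hz : ‖z‖ < 1) :
    (YE N0 H z).det ≠ 0 := by
  unfold YE
  rw [det_mul]
  exact mul_ne_zero ((hA.ode n N0 N1 H hN hH).2.1 z hz) (EX_det hA _ _)

lemma YE_ode (hA : All) {N0 N1 : Mat n} {H : ℕ → Mat n} (hN : NR N0) (hH : Sol N0 N1 H) {z : ℂ} (hz : z ∈ D0) :
    HD (YE N0 H) (Gm N0 N1 z * YE N0 H z) z := by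
  refine (hA.ode n N0 N1 H hN hH).2.2 Complex.log z hz.1 (D0_ne hz) ?_
  rw [one_div]
  exact Complex.hasDerivAt_log hz.2

lemma YE_ode1 (hA : All) {A B : Mat n} {K : ℕ → Mat n} (hN : NR (-B)) (hK : Sol (-B) (-A) K) {z : ℂ} (hz : 1 - z ∈ D0) :
    HD (fun x => YE (-B) K (1 - x)) (Gm A B z * YE (-B) K (1 - z)) z := by
  have h1 := YE_ode hA hN hK hz
  have h2 : HasDerivAt (fun w : ℂ => 1 - w) (-1) z := by
    simpa using (hasDerivAt_id z).const_sub 1
  refine (h1.comp h2).congr ?_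
  rw [← smul_mul_assoc]
  congr 1
  unfold Gm
  rw [sub_sub_cancel, smul_neg, smul_neg]
  rw [← neg_add, neg_smul, one_smul, neg_neg, add_comm]

lemma HD_an {Y : ℂ → Mat n} {Y' : ℂ → Mat n} {V : Set ℂ} (hV : IsOpen V) (h : ∀ z ∈ V, HD Y (Y' z) z) (i j : Fin n) :
    AnalyticOnNhd ℂ (fun z => Y z i j) V :=
  DifferentiableOn.analyticOnNhd (fun z hz => (h z hz i j).differentiableAt.differentiableWithinAt) hV

/-- local solutions at `0` and `1` and their connection -/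
theorem Dat.setup (hA : All) (h : Dat n P w Q s) : ∃ (H K : ℕ → Mat n) (M Mi : Mat n),
    Sol (cmp n P) (bmp n P Q) H ∧ Sol (-bmp n P Q) (-cmp n P) K ∧ M * Mi = 1 ∧
    ∀ z ∈ Lens, YE (cmp n P) H z = YE (-bmp n P Q) K (1 - z) * M := by
  obtain ⟨⟨H, hH⟩, -⟩ := hA.loc n (cmp n P) (bmp n P Q) (h.nrA hA)
  obtain ⟨⟨K, hK⟩, -⟩ := hA.loc n (-bmp n P Q) (-cmp n P) (h.nrB hA)
  obtain ⟨M, hM⟩ := hA.uni n Lens (Gm (cmp n P) (bmp n P Q)) (fun z => YE (-bmp n P Q) K (1 - z)) (YE (cmp n P) H)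
    isOpen_Lens preconn_Lens (fun z hz => YE_ode1 hA (h.nrB hA) hK (Lens_D0 (symm_Lens hz)))
    (fun z hz => YE_ode hA (h.nrA hA) hH (Lens_D0 hz))
    (fun z hz => YE_det hA (h.nrB hA) hK (Lens_D0 (symm_Lens hz)).1)
  have hhalf : ((1 / 2 : ℝ) : ℂ) ∈ Lens := real_mem_Lens (by norm_num) (by norm_num)
  have h1 := congrArg Matrix.det (hM _ hhalf)
  rw [det_mul] at h1
  have h2 := YE_det hA (h.nrA hA) hH (Lens_D0 hhalf).1
  rw [h1] at h2
  have h3 : IsUnit M.det := Ne.isUnit (right_ne_zero_of_mul h2)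
  exact ⟨H, K, M, M⁻¹, hH, hK, mul_nonsing_inv M h3, hM⟩

/-- an isometry of rank one -/
lemma rank_one {J : Mat n} (hJ : Jᵀ = J ∨ Jᵀ = -J) (hdet : J.det ≠ 0) {κ : ℂ} {x y : Fin n → ℂ} (hκ : κ ≠ 0) (hx : x ≠ 0)
    (hy : y ≠ 0) (h : (1 + κ • vecMulVec x y)ᵀ * J * (1 + κ • vecMulVec x y) = J) :
    ∃ c : ℂ, c ≠ 0 ∧ y = c • (J *ᵥ x) := by
  have hJx : J *ᵥ x ≠ 0 := by
    intro h0
    exact hx (Matrix.eq_zero_of_mulVec_eq_zero hdet h0)
  obtain ⟨ε, hε⟩ : ∃ ε : ℂ, x ᵥ* J = ε • (J *ᵥ x) := by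
    rcases hJ with h1 | h1
    · exact ⟨1, by rw [one_smul, ← mulVec_transpose, h1]⟩
    · exact ⟨-1, by rw [← mulVec_transpose, h1, neg_mulVec, neg_one_smul]⟩
  have h2 : (1 + κ • vecMulVec x y)ᵀ * J * (1 + κ • vecMulVec x y) = J + (κ • vecMulVec y (x ᵥ* J) +
      κ • vecMulVec (J *ᵥ x) y + (κ * κ * ((x ᵥ* J) ⬝ᵥ x)) • vecMulVec y y) := by
    have e1 : (1 + κ • vecMulVec x y)ᵀ = 1 + κ • vecMulVec y x := by
      rw [transpose_add, transpose_one, transpose_smul, transpose_vecMulVec]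
    have e2 : (1 + κ • vecMulVec y x) * J = J + κ • vecMulVec y (x ᵥ* J) := by
      rw [add_mul, one_mul, smul_mul_assoc, vecMulVec_mul]
    rw [e1, e2, mul_add, mul_one, mul_smul_comm, add_mul, mul_vecMulVec, smul_mul_assoc, vecMulVec_mul_vecMulVec,
      vecMulVec_smul, smul_add, smul_smul, smul_smul]
    abel_nf
  rw [h2] at h
  have h3 : κ • vecMulVec y (x ᵥ* J) + κ • vecMulVec (J *ᵥ x) y + (κ * κ * ((x ᵥ* J) ⬝ᵥ x)) • vecMulVec y y = 0 := by
    simpa using h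
  obtain ⟨j, hj⟩ : ∃ j, y j ≠ 0 := by
    by_contra h0
    push Not at h0
    exact hy (funext h0)
  have h4 : ∃ c : ℂ, J *ᵥ x = c • y := by
    refine ⟨-(ε * (J *ᵥ x) j / y j + κ * ((x ᵥ* J) ⬝ᵥ x)), funext fun i => ?_⟩
    have h5 := congrFun (congrFun h3 i) j
    simp only [Matrix.add_apply, Matrix.smul_apply, vecMulVec_apply, smul_eq_mul, Matrix.zero_apply, hε, Pi.smul_apply]
      at h5
    simp only [Pi.smul_apply, smul_eq_mul, hε]
    have h6 : κ * (y i * (ε * (J *ᵥ x) j) + (J *ᵥ x) i * y j + κ * ((ε • (J *ᵥ x)) ⬝ᵥ x) * (y i * y j)) = 0 := by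
      linear_combination h5
    have h7 := (mul_eq_zero.1 h6).resolve_left hκ
    field_simp
    linear_combination h7
  obtain ⟨c, hc⟩ := h4
  have hc0 : c ≠ 0 := by
    rintro rfl
    rw [zero_smul] at hc
    exact hJx hc
  refine ⟨c⁻¹, inv_ne_zero hc0, ?_⟩
  rw [hc, smul_smul, inv_mul_cancel₀ hc0, one_smul]

/-- a symmetric isometry of rank one is a reflection -/
lemma rank_one_refl {J : Mat n} (hJ : Jᵀ = J) (hdet : J.det ≠ 0) {c : ℂ} {x : Fin n → ℂ} (hc : c ≠ 0) (hx : x ≠ 0)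
    (h : (1 + c • vecMulVec x (J *ᵥ x))ᵀ * J * (1 + c • vecMulVec x (J *ᵥ x)) = J) :
    bl J x x ≠ 0 ∧ c = -(2 / bl J x x) ∧ 1 + c • vecMulVec x (J *ᵥ x) = Pool.Agent.Y985.OR.refl J x := by
  have hJx : J *ᵥ x ≠ 0 := by
    intro h0
    exact hx (Matrix.eq_zero_of_mulVec_eq_zero hdet h0)
  have hT : x ᵥ* J = J *ᵥ x := by rw [← mulVec_transpose, hJ]
  have h2 : (1 + c • vecMulVec x (J *ᵥ x))ᵀ * J * (1 + c • vecMulVec x (J *ᵥ x)) = J +
      (c * (2 + c * bl J x x)) • vecMulVec (J *ᵥ x) (J *ᵥ x) := by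
    have e1 : (1 + c • vecMulVec x (J *ᵥ x))ᵀ = 1 + c • vecMulVec (J *ᵥ x) x := by
      rw [transpose_add, transpose_one, transpose_smul, transpose_vecMulVec]
    have e2 : (1 + c • vecMulVec (J *ᵥ x) x) * J = J + c • vecMulVec (J *ᵥ x) (J *ᵥ x) := by
      rw [add_mul, one_mul, smul_mul_assoc, vecMulVec_mul, hT]
    rw [e1, e2, mul_add, mul_one, mul_smul_comm, add_mul, mul_vecMulVec, smul_mul_assoc, vecMulVec_mul_vecMulVec,
      vecMulVec_smul, smul_add, smul_smul, smul_smul]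
    have e3 : (J *ᵥ x) ⬝ᵥ x = bl J x x := dotProduct_comm _ _
    rw [e3]
    module
  rw [h2] at h
  have h3 : (c * (2 + c * bl J x x)) • vecMulVec (J *ᵥ x) (J *ᵥ x) = 0 := by simpa using h
  have h4 : c * (2 + c * bl J x x) = 0 := by
    obtain ⟨j, hj⟩ : ∃ j, (J *ᵥ x) j ≠ 0 := by
      by_contra h0
      push Not at h0
      exact hJx (funext h0)
    have h5 := congrFun (congrFun h3 j) j
    simp only [Matrix.smul_apply, vecMulVec_apply, smul_eq_mul, Matrix.zero_apply] at h5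
    exact (mul_eq_zero.1 h5).resolve_right (mul_ne_zero hj hj)
  have h5 := (mul_eq_zero.1 h4).resolve_left hc
  have hb : bl J x x ≠ 0 := by
    intro h0
    rw [h0] at h5
    norm_num at h5
  have h6 : c = -(2 / bl J x x) := by
    field_simp
    linear_combination h5
  refine ⟨hb, h6, ?_⟩
  unfold Pool.Agent.Y985.OR.refl
  rw [h6, neg_smul, sub_eq_add_neg]

end Pool.Agent.N207.HG
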